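import Mathlib

/-!
# Extending equivariant partial bijections, and equivariant choice
-/

set_option autoImplicit false

open Set

namespace Run7.h181.LR

section Ext

variable {Pi' Z : Type*} [Group Pi'] [MulAction Pi' Z]

open MulAction

theorem exists_free_spot [Finite (orbitRel.Quotient Pi' Z)] {P : Set Z}
    (hP : ∀ (g : Pi') z, z ∈ P → g • z ∈ P) {φ : Z → Z}
    (hφ : ∀ (g : Pi') z, z ∈ P → φ (g • z) = g • φ z) (hinj : InjOn φ P) {z : Z} (hz : z ∉ P) :
    ∃ y, y ∉ φ '' P ∧ stabilizer Pi' y = stabilizer Pi' z := by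
  classical
  by_contra hcon
  push Not at hcon
  let mk : Z → orbitRel.Quotient Pi' Z := Quotient.mk _
  have hmk : ∀ (g : Pi') z, mk (g • z) = mk z := fun g z =>
    Quotient.sound (⟨g, rfl⟩ : g • z ∈ orbit Pi' z)
  have hmk' : ∀ a b, mk a = mk b → ∃ g : Pi', g • b = a := by
    intro a b h
    have : a ∈ orbit Pi' b := Quotient.exact h
    exact this
  let U : Set Z := {u | stabilizer Pi' u = stabilizer Pi' z}
  let A := mk '' U
  let B := mk '' (U ∩ P)
  have hBA : B ⊂ A := by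
    refine ⟨image_mono inter_subset_left, fun h => ?_⟩
    have hzA : mk z ∈ A := ⟨z, rfl, rfl⟩
    obtain ⟨w, ⟨-, hwP⟩, hw⟩ := h hzA
    obtain ⟨g, hg⟩ := hmk' _ _ hw.symm
    exact hz (hg ▸ hP g w hwP)
  let ψ : orbitRel.Quotient Pi' Z → orbitRel.Quotient Pi' Z := fun o => mk (φ o.out)
  have hA : A ⊆ ψ '' B := by
    rintro _ ⟨y, hy, rfl⟩
    have hyP : y ∈ φ '' P := by
      by_contra h
      exact hcon y h hy
    obtain ⟨y', hy'P, rfl⟩ := hyP
    have hst : stabilizer Pi' y' = stabilizer Pi' (φ y') := by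
      ext g
      rw [mem_stabilizer_iff, mem_stabilizer_iff]
      constructor
      · intro h
        rw [← hφ g y' hy'P, h]
      · intro h
        rw [← hφ g y' hy'P] at h
        exact hinj (hP g _ hy'P) hy'P h
    refine ⟨mk y', ⟨y', ⟨?_, hy'P⟩, rfl⟩, ?_⟩
    · show stabilizer Pi' y' = _
      rw [hst]; exact hy
    · have : mk ((mk y').out) = mk y' := Quotient.out_eq _
      obtain ⟨g, hg⟩ := hmk' _ _ this
      show mk (φ (mk y').out) = mk (φ y')
      rw [← hg, hφ g _ hy'P, hmk]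
  have h1 := ncard_lt_ncard hBA (toFinite _)
  have h2 := ncard_le_ncard hA (toFinite _)
  have h3 := ncard_image_le (f := ψ) (s := B) (toFinite _)
  omega

theorem extend_aux [Finite (orbitRel.Quotient Pi' Z)] (n : ℕ) : ∀ (P : Set Z)
    (_ : ∀ (g : Pi') z, z ∈ P → g • z ∈ P) (φ : Z → Z)
    (_ : ∀ (g : Pi') z, z ∈ P → φ (g • z) = g • φ z) (_ : InjOn φ P),
    ((fun z => (Quotient.mk _ z : orbitRel.Quotient Pi' Z)) '' P)ᶜ.ncard = n →
    ∃ θ : Equiv.Perm Z, (∀ (g : Pi') z, θ (g • z) = g • θ z) ∧ ∀ z ∈ P, θ z = φ z := by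
  classical
  induction n using Nat.strong_induction_on with
  | _ n ih =>
  intro P hP φ hφ hinj hn
  let mk : Z → orbitRel.Quotient Pi' Z := Quotient.mk _
  have hmk : ∀ (g : Pi') z, mk (g • z) = mk z := fun g z =>
    Quotient.sound (⟨g, rfl⟩ : g • z ∈ orbit Pi' z)
  have hmk' : ∀ a b, mk a = mk b → ∃ g : Pi', g • b = a := by
    intro a b h
    have : a ∈ orbit Pi' b := Quotient.exact h
    exact this
  by_cases hall : ∀ z, z ∈ P
  · have hinj' : Function.Injective φ := fun a b h => hinj (hall a) (hall b) h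
    have hsurj : Function.Surjective φ := by
      let ψ : orbitRel.Quotient Pi' Z → orbitRel.Quotient Pi' Z := fun o => mk (φ o.out)
      have hψ : ∀ z, ψ (mk z) = mk (φ z) := by
        intro z
        have : mk ((mk z).out) = mk z := Quotient.out_eq _
        obtain ⟨g, hg⟩ := hmk' _ _ this
        show mk (φ (mk z).out) = _
        rw [← hg, hφ g _ (hall _), hmk]
      have hψi : Function.Injective ψ := by
        intro a b
        induction a using Quotient.inductionOn
        induction b using Quotient.inductionOn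
        rename_i a b
        intro h
        change ψ (mk a) = ψ (mk b) at h
        rw [hψ, hψ] at h
        obtain ⟨g, hg⟩ := hmk' _ _ h
        rw [← hφ g _ (hall _)] at hg
        rw [← hinj' hg]
        exact hmk g b
      intro y
      obtain ⟨o, ho⟩ := (Finite.injective_iff_surjective.1 hψi) (mk y)
      induction o using Quotient.inductionOn
      rename_i z
      change ψ (mk z) = mk y at ho
      rw [hψ] at ho
      obtain ⟨g, hg⟩ := hmk' _ _ ho.symm
      exact ⟨g • z, by rw [hφ g _ (hall _), hg]⟩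
    exact ⟨Equiv.ofBijective φ ⟨hinj', hsurj⟩, fun g z => hφ g z (hall z), fun z _ => rfl⟩
  · push Not at hall
    obtain ⟨z, hz⟩ := hall
    obtain ⟨y, hy, hst⟩ := exists_free_spot hP hφ hinj hz
    have hst' : ∀ g g' : Pi', g • y = g' • y ↔ g • z = g' • z := by
      intro g g'
      rw [← inv_smul_eq_iff, smul_smul, ← mem_stabilizer_iff, hst, mem_stabilizer_iff,
        ← smul_smul, inv_smul_eq_iff]
    have horb : ∀ g : Pi', g • z ∉ P := by
      intro g h
      exact hz (by simpa using hP g⁻¹ _ h)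
    let φ' : Z → Z := fun w => if h : ∃ g : Pi', g • z = w then h.choose • y else φ w
    have hφ'1 : ∀ g : Pi', φ' (g • z) = g • y := by
      intro g
      have hex : ∃ g' : Pi', g' • z = g • z := ⟨g, rfl⟩
      show (if h : ∃ g' : Pi', g' • z = g • z then h.choose • y else φ (g • z)) = _
      rw [dif_pos hex, hst']
      exact hex.choose_spec
    have hφ'2 : ∀ w ∈ P, φ' w = φ w := by
      intro w hw
      have hex : ¬ ∃ g' : Pi', g' • z = w := by
        rintro ⟨g, rfl⟩
        exact horb g hw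
      show (if h : ∃ g' : Pi', g' • z = w then h.choose • y else φ w) = _
      rw [dif_neg hex]
    have hmixed : ∀ w ∈ P, ∀ g : Pi', φ w ≠ g • y := by
      intro w hw g h
      apply hy
      refine ⟨g⁻¹ • w, hP _ _ hw, ?_⟩
      rw [hφ _ _ hw, h, inv_smul_smul]
    let P' : Set Z := P ∪ orbit Pi' z
    have hP' : ∀ (g : Pi') w, w ∈ P' → g • w ∈ P' := by
      rintro g w (hw | ⟨g', rfl⟩)
      · exact Or.inl (hP g w hw)
      · exact Or.inr ⟨g * g', by simp [mul_smul]⟩
    have hφ' : ∀ (g : Pi') w, w ∈ P' → φ' (g • w) = g • φ' w := by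
      rintro g w (hw | ⟨g', rfl⟩)
      · rw [hφ'2 _ (hP g w hw), hφ'2 _ hw, hφ g w hw]
      · show φ' (g • g' • z) = g • φ' (g' • z)
        rw [hφ'1, smul_smul, hφ'1, mul_smul]
    have hinj' : InjOn φ' P' := by
      rintro a (ha | ⟨g, rfl⟩) b (hb | ⟨g', rfl⟩) hab
      · rw [hφ'2 _ ha, hφ'2 _ hb] at hab
        exact hinj ha hb hab
      · change φ' a = φ' (g' • z) at hab
        rw [hφ'2 _ ha, hφ'1] at hab
        exact absurd hab (hmixed a ha g')
      · change φ' (g • z) = φ' b at hab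
        rw [hφ'2 _ hb, hφ'1] at hab
        exact absurd hab.symm (hmixed b hb g)
      · change φ' (g • z) = φ' (g' • z) at hab
        rw [hφ'1, hφ'1, hst'] at hab
        exact hab
    have hlt : (mk '' P')ᶜ.ncard < n := by
      rw [← hn]
      refine ncard_lt_ncard ⟨?_, ?_⟩ (toFinite _)
      · exact compl_subset_compl.2 (image_mono subset_union_left)
      · intro h
        have h1 : mk z ∈ (mk '' P)ᶜ := by
          rintro ⟨w, hw, hwz⟩
          obtain ⟨g, hg⟩ := hmk' _ _ hwz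
          exact horb g (hg ▸ hw)
        exact h h1 ⟨z, Or.inr (mem_orbit_self z), rfl⟩
    obtain ⟨θ, h1, h2⟩ := ih _ hlt P' hP' φ' hφ' hinj' rfl
    exact ⟨θ, h1, fun w hw => by rw [h2 w (Or.inl hw), hφ'2 w hw]⟩

theorem extend_equivariant [Finite (orbitRel.Quotient Pi' Z)] (P : Set Z)
    (hP : ∀ (g : Pi') z, z ∈ P → g • z ∈ P) (φ : Z → Z)
    (hφ : ∀ (g : Pi') z, z ∈ P → φ (g • z) = g • φ z) (hinj : InjOn φ P) :
    ∃ θ : Equiv.Perm Z, (∀ (g : Pi') z, θ (g • z) = g • θ z) ∧ ∀ z ∈ P, θ z = φ z :=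
  extend_aux _ P hP φ hφ hinj rfl

theorem extend_pair [Finite (orbitRel.Quotient Pi' Z)] {R : Type*} (a b : R → Z)
    (ha : Function.Injective a) (hb : Function.Injective b)
    (hab : ∀ (g : Pi') r, ∃ r', a r' = g • a r ∧ b r' = g • b r) :
    ∃ θ : Equiv.Perm Z, (∀ (g : Pi') z, θ (g • z) = g • θ z) ∧ ∀ r, θ (a r) = b r := by
  classical
  let φ : Z → Z := fun z => if h : ∃ r, a r = z then b h.choose else z
  have hφ : ∀ r, φ (a r) = b r := by
    intro r
    have hex : ∃ r', a r' = a r := ⟨r, rfl⟩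
    show (if h : ∃ r', a r' = a r then b h.choose else a r) = b r
    rw [dif_pos hex, ha hex.choose_spec]
  obtain ⟨θ, h1, h2⟩ := extend_equivariant (Pi' := Pi') (range a) (by
      rintro g _ ⟨r, rfl⟩
      obtain ⟨r', hr', -⟩ := hab g r
      exact ⟨r', hr'⟩) φ (by
      rintro g _ ⟨r, rfl⟩
      obtain ⟨r', hr', hr''⟩ := hab g r
      rw [← hr', hφ, hφ, hr'']) (by
      rintro _ ⟨r, rfl⟩ _ ⟨r', rfl⟩ h
      rw [hφ, hφ] at h
      rw [hb h])
  exact ⟨θ, h1, fun r => by rw [h2 _ ⟨r, rfl⟩, hφ]⟩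

end Ext

section Choice

variable {Γ X W : Type*} [Group Γ] [MulAction Γ X] [Group W]

theorem equivariant_choice (𝒳 : Set X) (h𝒳 : ∀ (g : Γ) x, x ∈ 𝒳 → g • x ∈ 𝒳)
    (c d : Γ → X → W)
    (hc : ∀ g h x, x ∈ 𝒳 → c (g * h) x = c g (h • x) * c h x)
    (hd : ∀ g h x, x ∈ 𝒳 → d (g * h) x = d g (h • x) * d h x)
    (Q : X → W → Prop)
    (hQ : ∀ g x t, x ∈ 𝒳 → Q x t → Q (g • x) (d g x * t * (c g x)⁻¹))
    (hex : ∀ x ∈ 𝒳, ∃ t, Q x t ∧ ∀ b : Γ, b • x = x → d b x * t = t * c b x) :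
    ∃ θ : X → W, ∀ x ∈ 𝒳, Q x (θ x) ∧ ∀ g, d g x * θ x = θ (g • x) * c g x := by
  classical
  let mk : X → MulAction.orbitRel.Quotient Γ X := Quotient.mk _
  have hmk : ∀ (g : Γ) z, mk (g • z) = mk z := fun g z =>
    Quotient.sound (⟨g, rfl⟩ : g • z ∈ MulAction.orbit Γ z)
  let r : X → X := fun x => (mk x).out
  have hr : ∀ x, ∃ g : Γ, g • r x = x := by
    intro x
    have : mk (r x) = mk x := Quotient.out_eq _
    have h2 : x ∈ MulAction.orbit Γ (r x) := Quotient.exact this.symm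
    exact h2
  choose γ hγ using hr
  have hr𝒳 : ∀ x ∈ 𝒳, r x ∈ 𝒳 := by
    intro x hx
    have := h𝒳 (γ x)⁻¹ x hx
    rwa [inv_smul_eq_iff.2 (hγ x).symm] at this
  let t : X → W := fun x => if h : x ∈ 𝒳 then (hex x h).choose else 1
  have ht : ∀ x ∈ 𝒳, Q x (t x) ∧ ∀ b : Γ, b • x = x → d b x * t x = t x * c b x := by
    intro x hx
    simp only [t, dif_pos hx]
    exact (hex x hx).choose_spec
  refine ⟨fun x => d (γ x) (r x) * t (r x) * (c (γ x) (r x))⁻¹, ?_⟩
  intro x hx
  have hrx := hr𝒳 x hx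
  refine ⟨?_, ?_⟩
  · have := hQ (γ x) (r x) (t (r x)) hrx (ht _ hrx).1
    rwa [hγ] at this
  · intro g
    have e1 : r (g • x) = r x := by simp only [r, hmk]
    have e2 : γ (g • x) • r x = g • x := by rw [← e1]; exact hγ _
    set b := (γ (g • x))⁻¹ * (g * γ x) with hb
    have e3 : b • r x = r x := by
      rw [hb, mul_smul, mul_smul, hγ, inv_smul_eq_iff, e2]
    have e4 : γ (g • x) * b = g * γ x := by rw [hb]; group
    have e5 := (ht _ hrx).2 b e3
    have d1 := hd (γ (g • x)) b (r x) hrx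
    have d2 := hd g (γ x) (r x) hrx
    have c1 := hc (γ (g • x)) b (r x) hrx
    have c2 := hc g (γ x) (r x) hrx
    rw [e3, e4] at d1 c1
    rw [hγ] at d2 c2
    show d g x * (d (γ x) (r x) * t (r x) * (c (γ x) (r x))⁻¹) =
      d (γ (g • x)) (r (g • x)) * t (r (g • x)) * (c (γ (g • x)) (r (g • x)))⁻¹ * c g x
    rw [e1]
    have c3 : c g x = c (γ (g • x)) (r x) * c b (r x) * (c (γ x) (r x))⁻¹ := by
      rw [← c1, c2]; group
    rw [c3]
    calc d g x * (d (γ x) (r x) * t (r x) * (c (γ x) (r x))⁻¹)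
        = (d g x * d (γ x) (r x)) * t (r x) * (c (γ x) (r x))⁻¹ := by group
      _ = d (γ (g • x)) (r x) * (d b (r x) * t (r x)) * (c (γ x) (r x))⁻¹ := by
          rw [← d2, d1]; group
      _ = _ := by rw [e5]; group

end Choice

end Run7.h181.LR
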