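import Pool.Agent.Run7.h181.LR.BaseTree
import Pool.Agent.Run7.h181.LR.Extend

/-!
# The base step: representing a finitely generated virtually free group on a free `H`-set
-/

set_option autoImplicit false

open Set Relation
open scoped Pointwise

namespace Run7.h181.LR

/-- The data of a target: a set `Z` with a free cofinite action `L` of `H`, a group `W` of
permutations commuting with it, and a homomorphism `F` from `A` to `W`. -/
structure Target (H A : Type) [Group H] [Group A] where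
  Z : Type
  L : H →* Equiv.Perm Z
  W : Subgroup (Equiv.Perm Z)
  F : A →* W
  e₀ : Z
  comm : ∀ w ∈ W, ∀ h z, w (L h z) = L h (w z)
  free : ∀ h z, L h z = z → h = 1
  fin : ∃ Z₀ : Set Z, Z₀.Finite ∧ ∀ z, ∃ h, ∃ z₀ ∈ Z₀, z = L h z₀

variable {Γ A : Type} [Group Γ] [Group A] [Finite A] (q : Γ →* A) {α : Type}
  (ι : q.ker →* FreeGroup α)

section Hull

variable (T : TreeSet Γ Γ) (H : Subgroup Γ)

/-- edges of the hull of `H` -/
def hullE : Set (Set Γ) := {C ∈ T.E | (∃ h ∈ H, h ∈ C) ∧ (∃ h ∈ H, h ∉ C)}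

/-- vertices of the hull of `H` -/
def hullV : Set (Set (Set Γ)) := {u | T.IsVert 1 u ∧ ∀ C ∈ u, ∃ h ∈ H, h ∈ C}

/-- vertices and midpoints of edges of the hull -/
def hullS : Set (Set (Set Γ)) := hullV T H ∪ (fun C => ({C, Cᶜ} : Set (Set Γ))) '' hullE T H

variable {T H}

theorem hullE_compl {C : Set Γ} (h : C ∈ hullE T H) : Cᶜ ∈ hullE T H := by
  obtain ⟨h1, ⟨a, ha, ha'⟩, ⟨b, hb, hb'⟩⟩ := h
  exact ⟨T.compl_mem h1, ⟨b, hb, hb'⟩, ⟨a, ha, fun h => h ha'⟩⟩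

theorem hullE_smul {C : Set Γ} (h : C ∈ hullE T H) {k : Γ} (hk : k ∈ H) :
    k • C ∈ hullE T H := by
  obtain ⟨h1, ⟨a, ha, ha'⟩, ⟨b, hb, hb'⟩⟩ := h
  refine ⟨T.smul_mem k h1, ⟨k * a, H.mul_mem hk ha, ?_⟩, ⟨k * b, H.mul_mem hk hb, ?_⟩⟩
  · exact smul_mem_smul_set ha'
  · intro hh
    apply hb'
    have : k • b ∈ k • C := hh
    rwa [smul_mem_smul_set_iff] at this

theorem hullV_smul {u : Set (Set Γ)} (h : u ∈ hullV T H) {k : Γ} (hk : k ∈ H) :
    k • u ∈ hullV T H := by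
  refine ⟨h.1.smul k, ?_⟩
  rintro _ ⟨C, hC, rfl⟩
  obtain ⟨a, ha, ha'⟩ := h.2 C hC
  exact ⟨k * a, H.mul_mem hk ha, smul_mem_smul_set ha'⟩

theorem smul_mid (k : Γ) (C : Set Γ) :
    k • ({C, Cᶜ} : Set (Set Γ)) = {k • C, (k • C)ᶜ} := by
  rw [← image_smul, image_pair, smul_set_compl]

theorem hullS_smul {u : Set (Set Γ)} (h : u ∈ hullS T H) {k : Γ} (hk : k ∈ H) :
    k • u ∈ hullS T H := by
  rcases h with h | ⟨C, hC, rfl⟩
  · exact Or.inl (hullV_smul h hk)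
  · refine Or.inr ⟨k • C, hullE_smul hC hk, ?_⟩
    rw [smul_mid]

theorem pt_hullV {h : Γ} (hh : h ∈ H) : T.pt h ∈ hullV T H :=
  ⟨TreeSet.pt_isVert h, fun _ hC => ⟨h, hh, hC.2⟩⟩

theorem org_hullV {C : Set Γ} (hC : C ∈ hullE T H) : T.org C ∈ hullV T H := by
  refine ⟨TreeSet.org_isVert hC.1, ?_⟩
  rintro D ⟨hD, h | ⟨h, -⟩⟩
  · obtain ⟨-, ⟨a, ha, ha'⟩, -⟩ := hC
    exact ⟨a, ha, h ha'⟩
  · obtain ⟨-, -, ⟨a, ha, ha'⟩⟩ := hC
    exact ⟨a, ha, h ha'⟩

theorem hullE_finite (hH : H.FG) : ∃ E₀ : Set (Set Γ), E₀.Finite ∧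
    ∀ C ∈ hullE T H, ∃ k ∈ H, k • C ∈ E₀ := by
  obtain ⟨S, hS⟩ := hH
  refine ⟨⋃ s ∈ S, ({D ∈ T.E | (1 : Γ) ∈ D ∧ s ∉ D} ∪ {D ∈ T.E | (1 : Γ) ∈ D ∧ s⁻¹ ∉ D}),
    S.finite_toSet.biUnion fun s _ => (T.fin _ _).union (T.fin _ _), ?_⟩
  rintro C ⟨hC, ⟨a, ha, ha'⟩, ⟨b, hb, hb'⟩⟩
  by_contra hcon
  push Not at hcon
  have h1 : ∀ k ∈ H, k ∈ C → ∀ s ∈ S, k * s ∈ C ∧ k * s⁻¹ ∈ C := by
    intro k hk hkC s hs
    have h2 := hcon k⁻¹ (H.inv_mem hk)
    have h3 : (1 : Γ) ∈ k⁻¹ • C := by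
      rw [mem_inv_smul_set_iff]; simpa using hkC
    simp only [mem_iUnion, not_exists, mem_union, mem_ofPred_eq, not_or, not_and, not_not] at h2
    obtain ⟨h4, h5⟩ := h2 s hs
    have h4' := h4 (T.smul_mem _ hC) h3
    have h5' := h5 (T.smul_mem _ hC) h3
    rw [mem_inv_smul_set_iff] at h4' h5'
    exact ⟨h4', h5'⟩
  have h2 : ∀ g ∈ Subgroup.closure (S : Set Γ), ∀ k ∈ H, (k ∈ C ↔ k * g ∈ C) := by
    intro g hg
    induction hg using Subgroup.closure_induction with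
    | mem s hs =>
      intro k hk
      have hsH : s ∈ H := hS ▸ Subgroup.subset_closure hs
      constructor
      · intro h; exact (h1 k hk h s hs).1
      · intro h
        have := (h1 _ (H.mul_mem hk hsH) h s hs).2
        rwa [mul_inv_cancel_right] at this
    | one => intro k _; rw [mul_one]
    | mul x y hx hy ihx ihy =>
      intro k hk
      rw [hS] at hx hy
      rw [ihx k hk, ihy _ (H.mul_mem hk hx), mul_assoc]
    | inv x hx ihx =>
      intro k hk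
      rw [hS] at hx
      have := ihx (k * x⁻¹) (H.mul_mem hk (H.inv_mem hx))
      rw [inv_mul_cancel_right] at this
      exact this.symm
  have h3 := h2 (a⁻¹ * b) (by rw [hS]; exact H.mul_mem (H.inv_mem ha) hb) a ha
  rw [mul_inv_cancel_left] at h3
  exact hb' (h3.1 ha')

theorem hullS_finite (hH : H.FG) : ∃ S₀ : Set (Set (Set Γ)), S₀.Finite ∧
    ∀ w ∈ hullS T H, ∃ k ∈ H, k • w ∈ S₀ := by
  obtain ⟨E₀, hE₀, hE⟩ := hullE_finite (T := T) hH
  refine ⟨({T.pt 1} ∪ T.org '' E₀) ∪ (fun C => ({C, Cᶜ} : Set (Set Γ))) '' E₀,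
    ((finite_singleton _).union (hE₀.image _)).union (hE₀.image _), ?_⟩
  rintro w (⟨hv, hw⟩ | ⟨C, hC, rfl⟩)
  · by_cases h1 : w = T.pt 1
    · exact ⟨1, H.one_mem, Or.inl (Or.inl (by rw [one_smul]; exact h1))⟩
    · obtain ⟨C, hC, h1C, rfl⟩ := TreeSet.exists_parent hv h1
      have h2 : Cᶜ ∈ hullE T H := by
        refine ⟨T.compl_mem hC, hw _ (TreeSet.self_mem_org (T.compl_mem hC)), ?_⟩
        exact ⟨1, H.one_mem, fun h => h h1C⟩
      obtain ⟨k, hk, hk'⟩ := hE _ h2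
      exact ⟨k, hk, Or.inl (Or.inr ⟨_, hk', (TreeSet.smul_org _ _).symm⟩)⟩
  · obtain ⟨k, hk, hk'⟩ := hE _ hC
    exact ⟨k, hk, Or.inr ⟨_, hk', by rw [smul_mid]⟩⟩

end Hull

/-- The action of `A × H` on `A × S`. -/
@[reducible] def actAH {T : TreeSet Γ Γ} {H : Subgroup Γ} :
    MulAction (A × H) (A × hullS T H) where
  smul x z := (x.1 * z.1 * (q (x.2 : Γ))⁻¹, ⟨(x.2 : Γ) • z.2.1, hullS_smul z.2.2 x.2.2⟩)
  one_smul z := by
    show ((1 : A) * z.1 * (q ((1 : H) : Γ))⁻¹, _) = z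
    ext1
    · simp
    · apply Subtype.ext
      show ((1 : H) : Γ) • z.2.1 = z.2.1
      simp
  mul_smul x y z := by
    show ((x.1 * y.1) * z.1 * (q ((x.2 * y.2 : H) : Γ))⁻¹, _) =
      (x.1 * (y.1 * z.1 * (q (y.2 : Γ))⁻¹) * (q (x.2 : Γ))⁻¹, _)
    ext1
    · simp [mul_assoc]
    · apply Subtype.ext
      show ((x.2 * y.2 : H) : Γ) • z.2.1 = (x.2 : Γ) • (y.2 : Γ) • z.2.1
      rw [Subgroup.coe_mul, mul_smul]

/-- **Base step.** -/
theorem base (hι : Function.Injective ι) (hΓ : (⊤ : Subgroup Γ).FG) (H : Subgroup Γ)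
    (hH : H.FG) : ∃ (t : Target H A) (f : Γ →* t.W),
      (∀ h : H, (f h : Equiv.Perm t.Z) t.e₀ = t.L h⁻¹ t.e₀) ∧
      (∀ (B : Subgroup Γ) [Finite B], ∃ w : t.W, ∀ b ∈ B, t.F (q b) * w = w * f b) := by
  classical
  obtain ⟨S, hS⟩ := hΓ
  obtain ⟨T, hT1, hT2, hT3⟩ := base_tree q ι hι S hS
  let act : MulAction (A × H) (A × hullS T H) := actAH q
  let Z := A × hullS T H
  have hact : ∀ (x : A × H) (z : Z), x • z =
      (x.1 * z.1 * (q (x.2 : Γ))⁻¹, ⟨(x.2 : Γ) • z.2.1, hullS_smul z.2.2 x.2.2⟩) :=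
    fun x z => rfl
  let toP : (A × H) →* Equiv.Perm Z := MulAction.toPermHom (A × H) Z
  let L : H →* Equiv.Perm Z := toP.comp (MonoidHom.inr A H)
  let W : Subgroup (Equiv.Perm Z) := Subgroup.centralizer (range L)
  have hWmem : ∀ w : Equiv.Perm Z, w ∈ W ↔ ∀ h z, w (L h z) = L h (w z) := by
    intro w
    simp only [W, Subgroup.mem_centralizer_iff]
    constructor
    · intro hw h z
      have := hw (L h) ⟨h, rfl⟩
      exact (congrArg (fun (p : Equiv.Perm Z) => p z) this).symm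
    · rintro hw _ ⟨h, rfl⟩
      ext1 z
      exact (hw h z).symm
  let F0 : A →* Equiv.Perm Z := toP.comp (MonoidHom.inl A H)
  have hF0 : ∀ a, F0 a ∈ W := by
    intro a
    rw [hWmem]
    intro h z
    show (a, (1 : H)) • ((1 : A), h) • z = ((1 : A), h) • (a, (1 : H)) • z
    rw [smul_smul, smul_smul]
    simp
  let F : A →* W := F0.codRestrict W hF0
  let e₀ : Z := (1, ⟨T.pt 1, Or.inl (pt_hullV H.one_mem)⟩)
  -- freeness on the hull
  have hfree : ∀ n : Γ, n ∈ q.ker → ∀ w ∈ hullS T H, n • w = w → n = 1 := by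
    intro n hn w hw hnw
    by_contra hn1
    rcases hw with hw | ⟨C, hC, rfl⟩
    · exact hT2 n hn hn1 w hw.1 hnw
    · simp only [smul_mid] at hnw
      have h1 : n • C ∈ ({C, Cᶜ} : Set (Set Γ)) := by
        rw [← hnw]; exact Or.inl rfl
      rcases h1 with h1 | h1
      · exact (hT3 n hn hn1 C hC.1).1 h1
      · exact (hT3 n hn hn1 C hC.1).2 h1
  have hLfree : ∀ h z, L h z = z → h = 1 := by
    intro h z hz
    have h1 : ((1 : A), h) • z = z := hz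
    rw [hact] at h1
    obtain ⟨a, w⟩ := z
    have h3 : (1 : A) * a * (q (h : Γ))⁻¹ = a := congrArg (fun z : A × hullS T H => z.1) h1
    have h4 : (h : Γ) • w.1 = w.1 := congrArg (fun z : A × hullS T H => z.2.1) h1
    rw [one_mul, mul_eq_left, inv_eq_one] at h3
    exact Subtype.ext (hfree h h3 w.1 w.2 h4)
  -- finitely many orbits
  obtain ⟨S₀, hS₀, hS₀'⟩ := hullS_finite (T := T) hH
  have hfinL : ∃ Z₀ : Set Z, Z₀.Finite ∧ ∀ z, ∃ h, ∃ z₀ ∈ Z₀, z = L h z₀ := by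
    refine ⟨{z | z.2.1 ∈ S₀}, ?_, ?_⟩
    · have h1 : ({w : hullS T H | w.1 ∈ S₀}).Finite :=
        Set.Finite.preimage (Subtype.val_injective.injOn) hS₀
      have h2 := (Set.finite_univ (α := A)).prod h1
      refine h2.subset ?_
      rintro ⟨a, w⟩ hz
      exact ⟨trivial, hz⟩
    · intro z
      obtain ⟨k, hk, hk'⟩ := hS₀' z.2.1 z.2.2
      refine ⟨⟨k, hk⟩⁻¹, L ⟨k, hk⟩ z, ?_, ?_⟩
      · show (((1 : A), (⟨k, hk⟩ : H)) • z).2.1 ∈ S₀
        rw [hact]; exact hk'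
      · rw [map_inv]; simp
  -- partial maps
  have hR1 : ∀ (C : Set Γ) (g : Γ), g • C ∈ hullE T H → g • T.org C ∈ hullS T H := by
    intro C g hg
    rw [TreeSet.smul_org]
    exact Or.inl (org_hullV hg)
  have hR2 : ∀ (C : Set Γ) (g : Γ), g • C ∈ hullE T H →
      g • ({C, Cᶜ} : Set (Set Γ)) ∈ hullS T H := by
    intro C g hg
    rw [smul_mid]
    exact Or.inr ⟨_, hg, rfl⟩
  let Q : Set Γ → W → Prop := fun C w => ∀ (g : Γ) (hg : g • C ∈ hullE T H),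
    (w : Equiv.Perm Z) ((q g)⁻¹, ⟨g • T.org C, hR1 C g hg⟩) =
      ((q g)⁻¹, ⟨g • ({C, Cᶜ} : Set (Set Γ)), hR2 C g hg⟩)
  have hex : ∀ C ∈ T.E, ∃ t : W, Q C t ∧ ∀ b : Γ, b • C = C → F (q b) * t = t * F (q b) := by
    intro C hC
    -- the group
    let Pi' : Subgroup (A × H) :=
      { carrier := {x | ∃ b : Γ, b • C = C ∧ q b = x.1}
        mul_mem' := by
          rintro x y ⟨b, hb, hb'⟩ ⟨c, hc, hc'⟩
          exact ⟨b * c, by rw [mul_smul, hc, hb], by rw [map_mul, hb', hc']; rfl⟩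
        one_mem' := ⟨1, one_smul _ _, map_one q⟩
        inv_mem' := by
          rintro x ⟨b, hb, hb'⟩
          exact ⟨b⁻¹, by rw [inv_smul_eq_iff, hb], by rw [map_inv, hb']; rfl⟩ }
    have hPi1 : ∀ h : H, ((1 : A), h) ∈ Pi' := fun h => ⟨1, one_smul _ _, map_one q⟩
    have hPi2 : ∀ b : Γ, b • C = C → (q b, (1 : H)) ∈ Pi' := fun b hb => ⟨b, hb, rfl⟩
    have hfinQ : Finite (MulAction.orbitRel.Quotient Pi' Z) := by
      obtain ⟨Z₀, hZ₀, hZ⟩ := hfinL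
      have : Finite Z₀ := hZ₀
      refine Finite.of_surjective (fun z : Z₀ =>
        (Quotient.mk _ (z : Z) : MulAction.orbitRel.Quotient Pi' Z)) ?_
      intro o
      induction o using Quotient.inductionOn
      rename_i z
      obtain ⟨h, z₀, hz₀, rfl⟩ := hZ z
      refine ⟨⟨z₀, hz₀⟩, ?_⟩
      apply Quotient.sound
      exact ⟨⟨((1 : A), h), hPi1 h⟩⁻¹, inv_smul_smul (⟨((1 : A), h), hPi1 h⟩ : Pi') z₀⟩
    let R := {g : Γ // g • C ∈ hullE T H}
    let a : R → Z := fun g => ((q g)⁻¹, ⟨(g : Γ) • T.org C, hR1 C g g.2⟩)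
    let b : R → Z := fun g => ((q g)⁻¹, ⟨(g : Γ) • ({C, Cᶜ} : Set (Set Γ)), hR2 C g g.2⟩)
    have hinj : ∀ (g g' : R) (w : Set (Set Γ)), (g : Γ) • w ∈ hullS T H → q g = q g' →
        (g : Γ) • w = (g' : Γ) • w → g = g' := by
      intro g g' w hw hqq hww
      have h1 : (g' : Γ) * (g : Γ)⁻¹ ∈ q.ker := by
        rw [MonoidHom.mem_ker, map_mul, map_inv, hqq, mul_inv_cancel]
      have h2 := hfree _ h1 _ hw (by rw [mul_smul, inv_smul_smul, hww])
      apply Subtype.ext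
      exact (mul_inv_eq_one.1 h2).symm
    have ha : Function.Injective a := by
      intro g g' h
      exact hinj g g' _ (hR1 C g g.2)
        (inv_injective (congrArg (fun z : A × hullS T H => z.1) h))
        (congrArg (fun z : A × hullS T H => z.2.1) h)
    have hb : Function.Injective b := by
      intro g g' h
      exact hinj g g' _ (hR2 C g g.2)
        (inv_injective (congrArg (fun z : A × hullS T H => z.1) h))
        (congrArg (fun z : A × hullS T H => z.2.1) h)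
    have hab : ∀ (x : Pi') (r : R), ∃ r', a r' = x • a r ∧ b r' = x • b r := by
      rintro ⟨⟨x, h⟩, ⟨c, hc, hcx⟩⟩ ⟨g, hg⟩
      have hcx' : q c = x := hcx
      have e1 : ((h : Γ) * g * c⁻¹) • C = (h : Γ) • (g • C) := by
        rw [mul_smul, inv_smul_eq_iff.2 hc.symm, mul_smul]
      have e2 : c⁻¹ • T.org C = T.org C := by
        rw [TreeSet.smul_org, inv_smul_eq_iff.2 hc.symm]
      have e3 : c⁻¹ • ({C, Cᶜ} : Set (Set Γ)) = {C, Cᶜ} := by
        rw [smul_mid, inv_smul_eq_iff.2 hc.symm]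
      refine ⟨⟨(h : Γ) * g * c⁻¹, by rw [e1]; exact hullE_smul hg h.2⟩, ?_, ?_⟩
      · show _ = (x, h) • a ⟨g, hg⟩
        rw [hact]
        simp only [a, map_mul, map_inv, mul_inv_rev, inv_inv, hcx', mul_smul, e2, mul_assoc]
      · show _ = (x, h) • b ⟨g, hg⟩
        rw [hact]
        simp only [b, map_mul, map_inv, mul_inv_rev, inv_inv, hcx', mul_smul, e3, mul_assoc]
    obtain ⟨θ, hθ1, hθ2⟩ := extend_pair (Pi' := Pi') a b ha hb hab
    have hθW : θ ∈ W := by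
      rw [hWmem]
      intro h z
      exact hθ1 ⟨_, hPi1 h⟩ z
    refine ⟨⟨θ, hθW⟩, ?_, ?_⟩
    · intro g hg
      exact hθ2 ⟨g, hg⟩
    · intro c hc
      apply Subtype.ext
      ext1 z
      exact (hθ1 ⟨_, hPi2 c hc⟩ z).symm
  obtain ⟨θ, hθ⟩ := equivariant_choice (Γ := Γ) (X := Set Γ) (W := W) T.E
    (fun g C hC => T.smul_mem g hC) (fun g _ => F (q g)) (fun g _ => F (q g))
    (fun g h C _ => by rw [map_mul, map_mul]) (fun g h C _ => by rw [map_mul, map_mul])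
    Q (by
      intro g C w hC hQ k hk
      have e1 : (k * g) • C ∈ hullE T H := by rw [mul_smul]; exact hk
      have := hQ (k * g) e1
      have e2 : ∀ (x : A) (a' : A) (w' : hullS T H), ((F x : Equiv.Perm Z)) (a', w') = (x * a', w') := by
        intro x a' w'
        show (x, (1 : H)) • ((a', w') : Z) = _
        rw [hact]; simp
      have e3 : ∀ (x : A) (a' : A) (w' : hullS T H), (((F x)⁻¹ : W) : Equiv.Perm Z) (a', w') =
          (x⁻¹ * a', w') := by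
        intro x a' w'
        rw [← map_inv]; exact e2 _ _ _
      simp only [Subgroup.coe_mul, Equiv.Perm.mul_apply]
      rw [e3]
      have e4 : (q g)⁻¹ * (q k)⁻¹ = (q (k * g))⁻¹ := by rw [map_mul, mul_inv_rev]
      have e5 : k • T.org (g • C) = (k * g) • T.org C := by
        rw [mul_smul, TreeSet.smul_org, TreeSet.smul_org, TreeSet.smul_org]
      have e6 : k • ({g • C, (g • C)ᶜ} : Set (Set Γ)) = (k * g) • ({C, Cᶜ} : Set (Set Γ)) := by
        rw [mul_smul, smul_mid g]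
      simp only [e4, e5, e6]
      rw [this, e2, map_mul]
      simp) hex
  obtain ⟨f, τ, hτ0, hτ1, hτ2, hlc⟩ := TreeSet.ext_hom_lc (T := T) (v₀ := (1 : Γ)) (F.comp q)
    (fun g _ => F (q g)) (fun g h u _ => by rw [map_mul, map_mul]) θ
    (fun g C hC => (hθ C hC).2 g) (fun B _ u _ _ => ⟨1, fun b _ => by simp⟩)
  refine ⟨⟨Z, L, W, F, e₀, fun w hw => (hWmem w).1 hw, hLfree, hfinL⟩, f, ?_, hlc⟩
  -- the hull vertices
  have key : ∀ u, T.IsVert (1 : Γ) u → ∀ hu : u ∈ hullV T H,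
      (τ u : Equiv.Perm Z) e₀ = (1, ⟨u, Or.inl hu⟩) := by
    refine TreeSet.vert_ind ?_ ?_
    · intro hu
      rw [hτ0]; rfl
    · intro C hC h1C ih hu
      have hCh : C ∈ hullE T H := by
        refine ⟨hC, ⟨1, H.one_mem, h1C⟩, ?_⟩
        obtain ⟨h, hh, hh'⟩ := hu.2 _ (TreeSet.self_mem_org (T.compl_mem hC))
        exact ⟨h, hh, hh'⟩
      have hCh' := hullE_compl hCh
      have ih' := ih (org_hullV hCh)
      have e1 : τ (T.org Cᶜ) = (θ Cᶜ)⁻¹ * (θ C * τ (T.org C)) := by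
        rw [hτ1 C hC]; group
      have q1 := (hθ C hC).1 1 (by rw [one_smul]; exact hCh)
      have q2 := (hθ Cᶜ (T.compl_mem hC)).1 1 (by rw [one_smul]; exact hCh')
      simp only [map_one, inv_one, one_smul] at q1 q2
      rw [e1]
      simp only [Subgroup.coe_mul, Equiv.Perm.mul_apply, ih']
      rw [q1]
      have e2 : ({C, Cᶜ} : Set (Set Γ)) = {Cᶜ, Cᶜᶜ} := by
        rw [compl_compl, pair_comm]
      rw [InvMemClass.coe_inv, Equiv.Perm.inv_eq_iff_eq]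
      rw [q2]
      simp only [e2]
  intro h
  have h1 := hτ2 (h : Γ) (T.pt 1) (TreeSet.pt_isVert 1)
  rw [hτ0, one_mul] at h1
  have h2 : ((h : Γ))⁻¹ • T.pt 1 ∈ hullV T H := hullV_smul (pt_hullV H.one_mem) (H.inv_mem h.2)
  have h3 := key _ h2.1 h2
  rw [← h1]
  simp only [Subgroup.coe_mul, Equiv.Perm.mul_apply]
  rw [h3]
  show (q (h : Γ), (1 : H)) • ((1, ⟨((h : Γ))⁻¹ • T.pt 1, Or.inl h2⟩) : Z) = ((1 : A), h⁻¹) • e₀
  rw [hact, hact]
  simp [e₀]

end Run7.h181.LR
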