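import Pool.Agent.Run7.h181.LR.Bound

/-!
# The structure tree of a finitely generated virtually free group
-/

set_option autoImplicit false

open Set Relation Filter
open scoped Pointwise

namespace Run7.h181.LR

theorem rtg_symm {V : Type*} {adj : V → V → Prop} (hs : ∀ ⦃x y⦄, adj x y → adj y x) {x y : V}
    (h : ReflTransGen adj x y) : ReflTransGen adj y x := by
  induction h with
  | refl => exact ReflTransGen.refl
  | tail h1 h2 ih => exact ReflTransGen.head (hs h2) ih

variable {Γ A : Type} [Group Γ] [Group A] [Finite A] (q : Γ →* A) {α : Type}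
  (ι : q.ker →* FreeGroup α)

theorem ends_aux {s : Γ} (D : Set Γ) (hfin : {g : Γ | g • D = D}.Finite)
    (hs : ∀ m n : ℕ, s ^ m = s ^ n → m = n) {m : ℕ} (hm : m ≠ 0) : s ^ m • D ≠ D := by
  intro h
  have h1 : ∀ k : ℕ, (s ^ m) ^ k • D = D := by
    intro k
    induction k with
    | zero => simp
    | succ k ih => rw [pow_succ, mul_smul, h, ih]
  refine Set.infinite_of_injective_forall_mem (f := fun k : ℕ => (s ^ m) ^ k) ?_ h1 hfin
  intro k k' hk
  simp only [← pow_mul] at hk
  exact Nat.eq_of_mul_eq_mul_left (Nat.pos_of_ne_zero hm) (hs _ _ hk)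

theorem base_tree (hι : Function.Injective ι) (S : Finset Γ)
    (hS : Subgroup.closure (S : Set Γ) = ⊤) :
    ∃ T : TreeSet Γ Γ, (∀ C ∈ T.E, {g : Γ | g • C = C}.Finite) ∧
      (∀ s : Γ, s ∈ q.ker → s ≠ 1 → ∀ u, T.IsVert (1 : Γ) u → s • u ≠ u) ∧
      (∀ s : Γ, s ∈ q.ker → s ≠ 1 → ∀ C ∈ T.E, s • C ≠ C ∧ s • C ≠ Cᶜ) := by
  classical
  let adj : Γ → Γ → Prop := fun x y => ∃ s ∈ S, x * s = y ∨ y * s = x
  have hs : ∀ ⦃x y⦄, adj x y → adj y x := by
    rintro x y ⟨s, hs, h | h⟩
    · exact ⟨s, hs, Or.inr h⟩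
    · exact ⟨s, hs, Or.inl h⟩
  have hc : ∀ x y, ReflTransGen adj x y := by
    have key : ∀ g : Γ, g ∈ Subgroup.closure (S : Set Γ) → ∀ x, ReflTransGen adj x (x * g) := by
      intro g hg
      induction hg using Subgroup.closure_induction with
      | mem s hs => intro x; exact ReflTransGen.single ⟨s, hs, Or.inl rfl⟩
      | one => intro x; rw [mul_one]
      | mul a b _ _ ha hb => intro x; rw [← mul_assoc]; exact (ha x).trans (hb _)
      | inv a _ ha =>
        intro x
        have := ha (x * a⁻¹)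
        rw [inv_mul_cancel_right] at this
        exact rtg_symm hs this
    intro x y
    have := key (x⁻¹ * y) (by rw [hS]; trivial) x
    rwa [mul_inv_cancel_left] at this
  have ha : ∀ (g : Γ) x y, adj (g • x) (g • y) ↔ adj x y := by
    intro g x y
    simp only [adj, smul_eq_mul, mul_assoc, mul_right_inj]
  have hst : ∀ x y, adj x y → x ≠ y → {g : Γ | g • x = x ∧ g • y = y}.Finite := by
    intro x y _ _
    refine (finite_singleton (1 : Γ)).subset ?_
    rintro g ⟨h, -⟩
    simpa using h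
  -- representatives
  let ρ : A → Γ := fun a => if a = 1 then 1 else if h : ∃ g, q g = a then h.choose else 1
  have hρ1 : ρ 1 = 1 := by simp [ρ]
  have hρ : ∀ g, q (ρ (q g)) = q g := by
    intro g
    by_cases h : q g = 1
    · rw [h, hρ1, map_one]
    · have hex : ∃ g', q g' = q g := ⟨g, rfl⟩
      simp only [ρ, if_neg h, dif_pos hex]
      exact hex.choose_spec
  have hπ : ∀ g : Γ, g * (ρ (q g))⁻¹ ∈ q.ker := by
    intro g
    rw [MonoidHom.mem_ker, map_mul, map_inv, hρ, mul_inv_cancel]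
  let π : Γ → q.ker := fun g => ⟨g * (ρ (q g))⁻¹, hπ g⟩
  have hπn : ∀ (n : q.ker) (g : Γ), π ((n : Γ) * g) = n * π g := by
    intro n g
    have : q ((n : Γ) * g) = q g := by rw [map_mul, (MonoidHom.mem_ker).1 n.2, one_mul]
    apply Subtype.ext
    simp only [π, this, Subgroup.coe_mul, mul_assoc]
  have hπ1 : ∀ n : q.ker, π (n : Γ) = n := by
    intro n
    apply Subtype.ext
    simp only [π, (MonoidHom.mem_ker).1 n.2, hρ1, inv_one, mul_one]
  have hA := Fintype.ofFinite A
  let E₀ : Finset (Γ × Γ) :=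
    (Finset.univ ×ˢ S).biUnion fun as : A × Γ => {(ρ as.1, ρ as.1 * as.2), (ρ as.1 * as.2, ρ as.1)}
  have hE₀ : ∀ x y, adj x y → ∃ n : q.ker, ∃ e ∈ E₀, x = (n : Γ) • e.1 ∧ y = (n : Γ) • e.2 := by
    rintro x y ⟨s, hs, rfl | rfl⟩
    · refine ⟨π x, (ρ (q x), ρ (q x) * s), ?_, ?_, ?_⟩
      · simp only [E₀, Finset.mem_biUnion]
        exact ⟨(q x, s), by simp [hs], by simp⟩
      · simp [π]
      · simp [π]
    · refine ⟨π y, (ρ (q y) * s, ρ (q y)), ?_, ?_, ?_⟩
      · simp only [E₀, Finset.mem_biUnion]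
        exact ⟨(q y, s), by simp [hs], by simp⟩
      · simp [π]
      · simp [π]
  let Φ : Γ → Mo α := fun g => fox ∅ (ι (π g))
  have hΦ : ∀ (n : q.ker) v w, Φ ((n : Γ) • v) - Φ ((n : Γ) • w) = tr (ι n) (Φ v - Φ w) := by
    intro n v w
    simp only [Φ, smul_eq_mul, hπn, map_mul, fox_mul, map_sub]
    abel
  obtain ⟨T, hT1, hT2⟩ := exists_tree q.ker ι hι adj hs hc ha hst E₀ hE₀ Φ hΦ
  have hord : ∀ s ∈ q.ker, s ≠ 1 → ∀ m n : ℕ, s ^ m = s ^ n → m = n := by
    intro s hs hs1 m n hmn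
    have h1 : ι ⟨s, hs⟩ ≠ 1 := by
      intro h
      apply hs1
      have := hι (h.trans (map_one ι).symm)
      exact congrArg Subtype.val this
    have h2 : (⟨s, hs⟩ : q.ker) ^ m = ⟨s, hs⟩ ^ n := Subtype.ext (by simpa using hmn)
    have h3 := congrArg ι h2
    rw [map_pow, map_pow] at h3
    have := zpow_inj h1 (m := m) (n := n) (by simpa using h3)
    omega
  refine ⟨T, hT1, ?_, ?_⟩
  · intro s hs hs1 u hu hsu
    -- powers
    have key : ∀ t ∈ q.ker, t ≠ 1 → t • u = u → ∀ D ∈ u, {j : ℕ | t ^ j ∉ D}.Finite := by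
      intro t ht ht1 htu D hD
      have hpow : ∀ j : ℕ, (t ^ j)⁻¹ • u = u := by
        intro j
        rw [inv_smul_eq_iff]
        induction j with
        | zero => simp
        | succ j ih => rw [pow_succ, mul_smul, htu, ← ih]
      refine Set.Finite.of_finite_image (f := fun j : ℕ => (t ^ j)⁻¹ • D) (hu.fin.subset ?_) ?_
      · rintro _ ⟨j, hj, rfl⟩
        refine ⟨?_, fun h => hj ?_⟩
        · show (t ^ j)⁻¹ • D ∈ u
          rw [← hpow j]
          exact smul_mem_smul_set hD
        · have : (1 : Γ) ∈ (t ^ j)⁻¹ • D := h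
          rw [mem_inv_smul_set_iff] at this
          simpa using this
      · have hle : ∀ i j : ℕ, i < j → (t ^ i)⁻¹ • D ≠ (t ^ j)⁻¹ • D := by
          intro i j hij h
          refine ends_aux D (hT1 D (hu.sub hD)) (hord t ht ht1) (m := j - i) (by omega) ?_
          have e1 : t ^ (j - i) = t ^ j * (t ^ i)⁻¹ := by
            rw [eq_mul_inv_iff_mul_eq, ← pow_add]; congr 1; omega
          rw [e1, mul_smul, h, smul_inv_smul]
        intro i _ j _ h
        by_contra hne
        rcases Nat.lt_or_gt_of_ne hne with h' | h'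
        · exact hle i j h' h
        · exact hle j i h' h.symm
    have hs1' : ι ⟨s, hs⟩ ≠ 1 := by
      intro h
      apply hs1
      have := hι (h.trans (map_one ι).symm)
      exact congrArg Subtype.val this
    obtain ⟨i, a, b, hab, ⟨n₁, hn₁⟩, ⟨n₂, hn₂⟩⟩ := fox_sep hs1'
    let P : Ultrafilter Γ := (hyperfilter ℕ).map (fun j => s ^ j)
    let Q : Ultrafilter Γ := (hyperfilter ℕ).map (fun j => s⁻¹ ^ j)
    have hmem : ∀ X : Set ℕ, Xᶜ.Finite → X ∈ hyperfilter ℕ := fun X hX =>
      mem_hyperfilter_of_finite_compl hX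
    have hP : {v | Φ v i = a} ∈ P := by
      rw [Ultrafilter.mem_map]
      apply hmem
      refine (Set.finite_Iio n₁).subset ?_
      intro j hj
      by_contra hlt
      apply hj
      have e1 : π (s ^ j) = (⟨s, hs⟩ : q.ker) ^ j := hπ1 ((⟨s, hs⟩ : q.ker) ^ j)
      show Φ (s ^ j) i = a
      simp only [Φ]
      rw [e1, map_pow]
      exact hn₁ j (by simpa using hlt)
    have hQ : {v | Φ v i = b} ∈ Q := by
      rw [Ultrafilter.mem_map]
      apply hmem
      refine (Set.finite_Iio n₂).subset ?_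
      intro j hj
      by_contra hlt
      apply hj
      have e1 : π (s⁻¹ ^ j) = ((⟨s, hs⟩ : q.ker)⁻¹) ^ j := hπ1 (((⟨s, hs⟩ : q.ker)⁻¹) ^ j)
      show Φ (s⁻¹ ^ j) i = b
      simp only [Φ]
      rw [e1, map_pow, map_inv]
      exact hn₂ j (by simpa using hlt)
    obtain ⟨C, hC, hCP, hCQ⟩ := hT2 P Q i a b hab hP hQ
    rcases hu.mem_or hC with h | h
    · apply hCQ
      rw [Ultrafilter.mem_map]
      apply hmem
      have := key s⁻¹ (inv_mem hs) (inv_ne_one.2 hs1) (by rw [inv_smul_eq_iff, hsu]) C h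
      exact this
    · have h1 : Cᶜ ∈ P := by
        rw [Ultrafilter.mem_map]
        apply hmem
        exact key s hs hs1 hsu Cᶜ h
      exact (Ultrafilter.compl_mem_iff_notMem.1 h1) hCP
  · intro s hs hs1 C hC
    constructor
    · have := ends_aux C (hT1 C hC) (hord s hs hs1) (m := 1) one_ne_zero
      rwa [pow_one] at this
    · intro h
      refine ends_aux C (hT1 C hC) (hord s hs hs1) (m := 2) two_ne_zero ?_
      rw [pow_two, mul_smul, h, smul_set_compl, h, compl_compl]

end Run7.h181.LR
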