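import Mathlib

/-!
# The Fox derivation on a free group relative to a subset of the basis
-/

set_option autoImplicit false

open Set

namespace Run7.h181.LR

variable {α : Type*}

/-- the module of finitely supported functions on edges -/
abbrev Mo (α : Type*) := (FreeGroup α × α) →₀ ℤ

/-- translation -/
noncomputable def tr (u : FreeGroup α) : Mo α ≃+ Mo α :=
  Finsupp.domCongr (Equiv.prodCongr (Equiv.mulLeft u) (Equiv.refl α))

theorem tr_apply (u : FreeGroup α) (φ : Mo α) (p : FreeGroup α × α) :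
    tr u φ p = φ (u⁻¹ * p.1, p.2) := by
  simp only [tr, Finsupp.domCongr, AddEquiv.coe_mk, Equiv.coe_fn_mk,
    Finsupp.equivMapDomain_apply]
  rfl

theorem tr_one (φ : Mo α) : tr 1 φ = φ := by
  ext p; simp [tr_apply]

theorem tr_mul (u v : FreeGroup α) (φ : Mo α) : tr (u * v) φ = tr u (tr v φ) := by
  ext p; simp [tr_apply, mul_assoc]

theorem tr_single (u : FreeGroup α) (p : FreeGroup α × α) (n : ℤ) :
    tr u (Finsupp.single p n) = Finsupp.single (u * p.1, p.2) n := by
  classical
  ext q
  rw [tr_apply, Finsupp.single_apply, Finsupp.single_apply]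
  congr 1
  simp only [Prod.ext_iff, eq_iff_iff]
  constructor
  · rintro ⟨h1, h2⟩
    exact ⟨by rw [h1]; group, h2⟩
  · rintro ⟨h1, h2⟩
    exact ⟨by rw [← h1]; group, h2⟩

theorem exists_fox (κ : α → Mo α) : ∃ K : FreeGroup α → Mo α,
    (∀ x, K (FreeGroup.of x) = κ x) ∧ ∀ u v, K (u * v) = K u + tr u (K v) := by
  let A : α → Equiv.Perm (Mo α) := fun x =>
    { toFun := fun φ => κ x + tr (FreeGroup.of x) φ
      invFun := fun φ => tr (FreeGroup.of x)⁻¹ (φ - κ x)
      left_inv := fun φ => by
        show tr (FreeGroup.of x)⁻¹ (κ x + tr (FreeGroup.of x) φ - κ x) = φ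
        rw [add_sub_cancel_left, ← tr_mul, inv_mul_cancel, tr_one]
      right_inv := fun φ => by
        show κ x + tr (FreeGroup.of x) (tr (FreeGroup.of x)⁻¹ (φ - κ x)) = φ
        rw [← tr_mul, mul_inv_cancel, tr_one, add_sub_cancel] }
  let L : FreeGroup α →* Equiv.Perm (Mo α) := FreeGroup.lift A
  have hL : ∀ u φ, L u φ = L u 0 + tr u φ := by
    intro u
    induction u using FreeGroup.induction_on with
    | C1 => intro φ; simp [tr_one]
    | of x =>
      intro φ
      show L (FreeGroup.of x) φ = L (FreeGroup.of x) 0 + tr (FreeGroup.of x) φ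
      simp only [L, FreeGroup.lift_apply_of, A, Equiv.coe_fn_mk, map_zero, add_zero]
    | inv_of x _ =>
      intro φ
      show L (FreeGroup.of x)⁻¹ φ = L (FreeGroup.of x)⁻¹ 0 + tr (FreeGroup.of x)⁻¹ φ
      simp only [L, map_inv, FreeGroup.lift_apply_of, A, Equiv.Perm.inv_def, Equiv.coe_fn_symm_mk,
        map_sub, map_zero]
      abel
    | mul u v hu hv =>
      intro φ
      rw [map_mul, Equiv.Perm.mul_apply, Equiv.Perm.mul_apply, hu, hv, hu (L v 0), map_add,
        tr_mul, add_assoc]
  refine ⟨fun u => L u 0, ?_, ?_⟩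
  · intro x
    simp [L, A]
  · intro u v
    show L (u * v) 0 = L u 0 + tr u (L v 0)
    rw [map_mul, Equiv.Perm.mul_apply, hL]

open Classical in
/-- the Fox derivation, killing the letters in `Y` -/
noncomputable def fox (Y : Set α) : FreeGroup α → Mo α :=
  (exists_fox (fun x => if x ∈ Y then 0 else Finsupp.single (1, x) 1)).choose

open Classical in
theorem fox_of (Y : Set α) (x : α) :
    fox Y (FreeGroup.of x) = if x ∈ Y then 0 else Finsupp.single (1, x) 1 :=
  (exists_fox (fun x => if x ∈ Y then 0 else Finsupp.single (1, x) 1)).choose_spec.1 x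

theorem fox_mul (Y : Set α) (u v : FreeGroup α) : fox Y (u * v) = fox Y u + tr u (fox Y v) := by
  classical
  exact (exists_fox (fun x => if x ∈ Y then 0 else Finsupp.single (1, x) 1)).choose_spec.2 u v

theorem fox_one (Y : Set α) : fox Y 1 = 0 := by
  have := fox_mul Y 1 1
  rw [mul_one, tr_one] at this
  simpa using this

theorem fox_inv (Y : Set α) (u : FreeGroup α) : fox Y u⁻¹ = - tr u⁻¹ (fox Y u) := by
  have := fox_mul Y u⁻¹ u
  rw [inv_mul_cancel, fox_one] at this
  exact (neg_eq_of_add_eq_zero_left this.symm).symm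

/-- Stokes' formula -/
theorem stokes {R : Type*} [AddCommGroup R] (Y : Set α) (u : FreeGroup α) :
    ∀ h : FreeGroup α → R, (∀ w, ∀ y ∈ Y, h (w * FreeGroup.of y) = h w) →
    Finsupp.linearCombination ℤ
      (fun p : FreeGroup α × α => h (p.1 * FreeGroup.of p.2) - h p.1) (fox Y u) = h u - h 1 := by
  classical
  have htr : ∀ (u : FreeGroup α) (h : FreeGroup α → R) (φ : Mo α), Finsupp.linearCombination ℤ
      (fun p : FreeGroup α × α => h (p.1 * FreeGroup.of p.2) - h p.1) (tr u φ) =
      Finsupp.linearCombination ℤ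
      (fun p : FreeGroup α × α => h (u * (p.1 * FreeGroup.of p.2)) - h (u * p.1)) φ := by
    intro u h φ
    induction φ using Finsupp.induction_linear with
    | zero => simp
    | add f g hf hg => rw [map_add, map_add, map_add, hf, hg]
    | single p n => rw [tr_single, Finsupp.linearCombination_single,
        Finsupp.linearCombination_single, mul_assoc]
  induction u using FreeGroup.induction_on with
  | C1 => intro h _; simp [fox_one]
  | of x =>
    intro h hh
    show Finsupp.linearCombination ℤ _ (fox Y (FreeGroup.of x)) = h (FreeGroup.of x) - h 1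
    rw [fox_of]
    split_ifs with hx
    · have := hh 1 x hx
      rw [one_mul] at this
      rw [map_zero, this, sub_self]
    · simp
  | inv_of x ih =>
    intro h hh
    show Finsupp.linearCombination ℤ _ (fox Y (FreeGroup.of x)⁻¹) = h (FreeGroup.of x)⁻¹ - h 1
    have := ih (fun w => h ((FreeGroup.of x)⁻¹ * w)) (fun w y hy => by
      rw [← mul_assoc]; exact hh _ y hy)
    rw [fox_inv, map_neg, htr]
    rw [this, inv_mul_cancel, mul_one, neg_sub]
  | mul u v hu hv =>
    intro h hh
    rw [fox_mul, map_add, hu h hh, htr, hv (fun w => h (u * w)) (fun w y hy => by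
      rw [← mul_assoc]; exact hh _ y hy)]
    simp only [mul_one]
    abel

/-- the free factor generated by `Y` -/
def FY (Y : Set α) : Subgroup (FreeGroup α) := Subgroup.closure (FreeGroup.of '' Y)

theorem fox_eq_zero_iff (Y : Set α) (u : FreeGroup α) : fox Y u = 0 ↔ u ∈ FY Y := by
  classical
  constructor
  · intro h
    have := stokes (R := ℤ) Y u (fun w => if w ∈ FY Y then 1 else 0) (by
      intro w y hy
      have hy' : FreeGroup.of y ∈ FY Y := Subgroup.subset_closure ⟨y, hy, rfl⟩
      simp only [Subgroup.mul_mem_cancel_right _ hy'])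
    rw [h, map_zero] at this
    simp only [Subgroup.one_mem, if_true] at this
    by_contra hu
    simp [hu] at this
  · intro h
    induction h using Subgroup.closure_induction with
    | mem x hx =>
      obtain ⟨y, hy, rfl⟩ := hx
      rw [fox_of, if_pos hy]
    | one => exact fox_one Y
    | mul x y _ _ hx hy => rw [fox_mul, hx, hy, map_zero, add_zero]
    | inv x _ hx => rw [fox_inv, hx, map_zero, neg_zero]

theorem zpow_inj {u : FreeGroup α} (hu : u ≠ 1) {m n : ℤ} (h : u ^ m = u ^ n) : m = n := by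
  by_contra hne
  apply hu
  have h1 : u ^ (m - n) = 1 := by rw [zpow_sub, h, mul_inv_cancel]
  have h2 : m - n ≠ 0 := by omega
  exact (IsMulTorsionFree.zpow_eq_one_iff_left h2).1 h1

/-- a nonzero finitely supported function is not invariant under an infinite order element -/
theorem tr_ne {u : FreeGroup α} (hu : u ≠ 1) {φ : Mo α} (h : tr u φ = φ) : φ = 0 := by
  by_contra hne
  obtain ⟨p, hp⟩ := Finsupp.ne_iff.1 hne
  have h1 : ∀ n : ℕ, φ (u ^ n * p.1, p.2) ≠ 0 := by
    intro n
    induction n with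
    | zero => simpa using hp
    | succ n ih =>
      rw [← h, tr_apply]
      simpa [pow_succ', mul_assoc] using ih
  have hinj : Function.Injective (fun n : ℕ => (u ^ n * p.1, p.2)) := by
    intro m n hmn
    simp only [Prod.mk.injEq, mul_left_inj, and_true] at hmn
    have := zpow_inj hu (m := m) (n := n) (by simpa using hmn)
    omega
  have hinf := Set.infinite_range_of_injective hinj
  apply hinf
  refine φ.support.finite_toSet.subset ?_
  rintro _ ⟨n, rfl⟩
  simpa using h1 n

/-- malnormality of free factors -/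
theorem malnormal (Y : Set α) {u r : FreeGroup α} (hu : u ∈ FY Y) (hr : r ∉ FY Y)
    (h : r⁻¹ * u * r ∈ FY Y) : u = 1 := by
  by_contra hne
  apply hr
  rw [← fox_eq_zero_iff] at *
  refine tr_ne hne ?_
  have h1 : u * r = r * (r⁻¹ * u * r) := by group
  have h2 := fox_mul Y u r
  rw [h1, fox_mul, h, map_zero, add_zero, hu, zero_add] at h2
  exact h2.symm

/-- the limit of `fox (u ^ n)` -/
theorem fox_lim {u : FreeGroup α} (hu : u ≠ 1) : ∃ a : FreeGroup α × α → ℤ,
    (∀ p, ∃ n₀ : ℕ, ∀ n ≥ n₀, fox ∅ (u ^ n) p = a p) ∧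
    (∀ p, a p = fox ∅ u p + a (u⁻¹ * p.1, p.2)) ∧
    (∀ p, a p ≠ 0 → ∃ i : ℕ, fox ∅ u ((u ^ i)⁻¹ * p.1, p.2) ≠ 0) := by
  have hstep : ∀ n p, fox ∅ (u ^ (n + 1)) p =
      fox ∅ (u ^ n) p + fox ∅ u ((u ^ n)⁻¹ * p.1, p.2) := by
    intro n p
    rw [pow_succ, fox_mul, Finsupp.add_apply, tr_apply]
  have hev : ∀ p : FreeGroup α × α, ∃ n₀ : ℕ, ∀ n ≥ n₀, fox ∅ u ((u ^ n)⁻¹ * p.1, p.2) = 0 := by
    intro p
    have hfin : {n : ℕ | fox ∅ u ((u ^ n)⁻¹ * p.1, p.2) ≠ 0}.Finite := by
      refine Set.Finite.of_finite_image (f := fun n : ℕ => ((u ^ n)⁻¹ * p.1, p.2)) ?_ ?_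
      · refine (fox ∅ u).support.finite_toSet.subset ?_
        rintro _ ⟨n, hn, rfl⟩
        simpa using hn
      · intro m _ n _ hmn
        simp only [Prod.mk.injEq, mul_left_inj, inv_inj, and_true] at hmn
        have := zpow_inj hu (m := m) (n := n) (by simpa using hmn)
        omega
    obtain ⟨n₀, hn₀⟩ := hfin.bddAbove
    refine ⟨n₀ + 1, fun n hn => ?_⟩
    by_contra h
    have := hn₀ h
    omega
  choose n₀ hn₀ using hev
  refine ⟨fun p => fox ∅ (u ^ n₀ p) p, ?_, ?_, ?_⟩
  · intro p
    refine ⟨n₀ p, fun n hn => ?_⟩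
    induction n, hn using Nat.le_induction with
    | base => rfl
    | succ n hn ih => rw [hstep, ih, hn₀ p n hn, add_zero]
  · intro p
    have h1 : ∀ (p : FreeGroup α × α), ∀ n ≥ n₀ p, fox ∅ (u ^ n) p = fox ∅ (u ^ n₀ p) p := by
      intro p n hn
      induction n, hn using Nat.le_induction with
      | base => rfl
      | succ n hn ih => rw [hstep, ih, hn₀ p n hn, add_zero]
    set q : FreeGroup α × α := (u⁻¹ * p.1, p.2) with hq
    have e1 := h1 p (n₀ p + n₀ q + 1) (by omega)
    have e2 := h1 q (n₀ p + n₀ q) (by omega)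
    show fox ∅ (u ^ n₀ p) p = fox ∅ u p + fox ∅ (u ^ n₀ q) q
    rw [← e1, ← e2, pow_succ', fox_mul, Finsupp.add_apply, tr_apply]
  · intro p hp
    by_contra hcon
    push Not at hcon
    apply hp
    have : ∀ n, fox ∅ (u ^ n) p = 0 := by
      intro n
      induction n with
      | zero => rw [pow_zero, fox_one]; rfl
      | succ n ih => rw [hstep, ih, hcon n, add_zero]
    exact this _

/-- the two ends of an infinite order element are separated by an edge of the tree -/
theorem fox_sep {s : FreeGroup α} (hs : s ≠ 1) : ∃ (p : FreeGroup α × α) (a b : ℤ), a ≠ b ∧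
    (∃ n₀ : ℕ, ∀ n ≥ n₀, fox ∅ (s ^ n) p = a) ∧ (∃ n₀ : ℕ, ∀ n ≥ n₀, fox ∅ ((s⁻¹) ^ n) p = b) := by
  classical
  have hs' : s⁻¹ ≠ 1 := inv_ne_one.2 hs
  obtain ⟨a, ha1, ha2, ha3⟩ := fox_lim hs
  obtain ⟨b, hb1, -, hb3⟩ := fox_lim hs'
  by_contra hcon
  push Not at hcon
  have hab : ∀ p, a p = b p := by
    intro p
    by_contra hne
    obtain ⟨n₁, hn₁⟩ := ha1 p
    obtain ⟨n₂, hn₂⟩ := hb1 p
    obtain ⟨n, hn, hn'⟩ := hcon p (a p) (b p) hne ⟨n₁, hn₁⟩ n₂
    exact hn' (hn₂ n hn)
  -- finite support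
  have hfin : (Function.support a).Finite := by
    have : ∀ q q' : FreeGroup α × α, {p : FreeGroup α × α | ∃ i j : ℕ,
        q = ((s ^ i)⁻¹ * p.1, p.2) ∧ q' = ((s⁻¹ ^ j)⁻¹ * p.1, p.2)}.Finite := by
      intro q q'
      by_cases hne : {p : FreeGroup α × α | ∃ i j : ℕ,
        q = ((s ^ i)⁻¹ * p.1, p.2) ∧ q' = ((s⁻¹ ^ j)⁻¹ * p.1, p.2)}.Nonempty
      · obtain ⟨p₀, i₀, j₀, h1, h2⟩ := hne
        refine ((Set.finite_Iic (i₀ + j₀)).image (fun i => (s ^ i * q.1, q.2))).subset ?_
        rintro p ⟨i, j, h3, h4⟩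
        refine ⟨i, ?_, ?_⟩
        · have e1 : q'.1 = s ^ (i₀ + j₀ : ℤ) * q.1 := by
            rw [h1, h2]; simp only [zpow_add, zpow_natCast, inv_pow, inv_inv]
            have : s ^ i₀ * s ^ j₀ = s ^ j₀ * s ^ i₀ := (Commute.pow_pow_self s i₀ j₀).eq
            rw [this]; group
          have e2 : q'.1 = s ^ (i + j : ℤ) * q.1 := by
            rw [h3, h4]; simp only [zpow_add, zpow_natCast, inv_pow, inv_inv]
            have : s ^ i * s ^ j = s ^ j * s ^ i := (Commute.pow_pow_self s i j).eq
            rw [this]; group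
          rw [e1] at e2
          have := zpow_inj hs (mul_right_cancel e2)
          simp only [Set.mem_Iic]
          omega
        · rw [h3]; simp
      · rw [not_nonempty_iff_eq_empty] at hne
        rw [hne]; exact finite_empty
    refine ((fox ∅ s).support.finite_toSet.biUnion fun q _ =>
      (fox ∅ s⁻¹).support.finite_toSet.biUnion fun q' _ => this q q').subset ?_
    intro p hp
    obtain ⟨i, hi⟩ := ha3 p hp
    obtain ⟨j, hj⟩ := hb3 p (by rw [← hab]; exact hp)
    simp only [mem_iUnion]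
    exact ⟨_, by simpa using hi, _, by simpa using hj, i, j, rfl, rfl⟩
  let φ : Mo α := Finsupp.ofSupportFinite a hfin
  have hφ : φ = fox ∅ s + tr s φ := by
    ext p
    rw [Finsupp.add_apply, tr_apply]
    exact ha2 p
  -- apply the boundary
  let T : (FreeGroup α →₀ ℤ) ≃+ (FreeGroup α →₀ ℤ) := Finsupp.domCongr (Equiv.mulLeft s)
  have hT1 : ∀ w n, T (Finsupp.single w n) = Finsupp.single (s * w) n := by
    intro w n
    simp [T, Finsupp.domCongr]
  have hT2 : ∀ ψ w, T ψ w = ψ (s⁻¹ * w) := by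
    intro ψ w
    simp [T, Finsupp.domCongr, Finsupp.equivMapDomain_apply]
  let dd : Mo α →ₗ[ℤ] (FreeGroup α →₀ ℤ) := Finsupp.linearCombination ℤ
      (fun p : FreeGroup α × α => Finsupp.single (p.1 * FreeGroup.of p.2) (1 : ℤ) -
        Finsupp.single p.1 (1 : ℤ))
  have hd1 : dd (fox ∅ s) = Finsupp.single s 1 - Finsupp.single 1 1 :=
    stokes ∅ s (fun w => Finsupp.single w (1 : ℤ)) (by simp)
  have hd2 : dd (tr s φ) = T (dd φ) := by
    generalize φ = φ'
    induction φ' using Finsupp.induction_linear with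
    | zero => simp
    | add f g hf hg => rw [map_add, map_add, map_add, map_add, hf, hg]
    | single p n =>
      rw [tr_single]
      simp only [dd, Finsupp.linearCombination_single, map_zsmul, map_sub, hT1, mul_assoc]
  set ψ : FreeGroup α →₀ ℤ := dd φ + Finsupp.single 1 1 with hψ
  have hψT : T ψ = ψ := by
    rw [hψ, map_add, hT1, mul_one]
    conv_rhs => rw [hφ, map_add, hd1, hd2]
    abel
  have hψ0 : ψ = 0 := by
    by_contra hne
    obtain ⟨w, hw⟩ := Finsupp.ne_iff.1 hne
    have h1 : ∀ n : ℕ, ψ (s ^ n * w) ≠ 0 := by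
      intro n
      induction n with
      | zero => simpa using hw
      | succ n ih =>
        rw [← hψT, hT2]
        simpa [pow_succ', mul_assoc] using ih
    have hinj : Function.Injective (fun n : ℕ => s ^ n * w) := by
      intro m n hmn
      have h2 : s ^ m = s ^ n := mul_right_cancel hmn
      have := zpow_inj hs (m := m) (n := n) (by simpa using h2)
      omega
    apply Set.infinite_range_of_injective hinj
    refine ψ.support.finite_toSet.subset ?_
    rintro _ ⟨n, rfl⟩
    simpa using h1 n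
  let aug : (FreeGroup α →₀ ℤ) →ₗ[ℤ] ℤ := Finsupp.linearCombination ℤ (fun _ => (1 : ℤ))
  have h1 : ∀ φ : Mo α, aug (dd φ) = 0 := by
    intro φ
    induction φ using Finsupp.induction_linear with
    | zero => simp
    | add f g hf hg => rw [map_add, map_add, hf, hg, add_zero]
    | single p n => simp [dd, aug]
  have h2 : aug ψ = 1 := by
    rw [hψ, map_add, h1]; simp [aug]
  rw [hψ0, map_zero] at h2
  exact zero_ne_one h2

end Run7.h181.LR
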