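import Pool.Agent.Run7.h181.LR.FixedPoint
import Pool.Agent.Run7.h181.LR.Fox

/-!
# Tree sets from potentials
-/

set_option autoImplicit false

open Set Relation
open scoped Pointwise

namespace Run7.h181.LR

variable {Γ V α : Type*} [Group Γ] [MulAction Γ V]

/-- The cuts given by the level sets of a potential have uniformly bounded boundary. -/
theorem bounded_cuts (N : Subgroup Γ) (ι : N →* FreeGroup α) (hι : Function.Injective ι)
    (adj : V → V → Prop) (E₀ : Finset (V × V))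
    (hE₀ : ∀ x y, adj x y → ∃ n : N, ∃ e ∈ E₀, x = (n : Γ) • e.1 ∧ y = (n : Γ) • e.2)
    (Φ : V → Mo α)
    (hΦ : ∀ (n : N) v w, Φ ((n : Γ) • v) - Φ ((n : Γ) • w) = tr (ι n) (Φ v - Φ w)) :
    ∃ k : ℕ, ∀ p (S : Set ℤ), (bd adj {v | Φ v p ∈ S}).encard ≤ k := by
  classical
  let t : Finset ((V × V) × (FreeGroup α × α)) :=
    E₀ ×ˢ (E₀.biUnion fun e => (Φ e.1 - Φ e.2).support)
  refine ⟨t.card, fun p S => ?_⟩
  choose! n e he using hE₀
  rw [← encard_coe_eq_coe_finsetCard]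
  refine encard_le_encard_of_injOn
    (f := fun z : V × V => (e z.1 z.2, ((ι (n z.1 z.2))⁻¹ * p.1, p.2))) ?_ ?_
  · rintro ⟨x, y⟩ ⟨hxy, hx, hy⟩
    obtain ⟨h1, h2, h3⟩ := he x y hxy
    simp only [t, Finset.coe_product, Finset.coe_biUnion, mem_prod, Finset.mem_coe, mem_iUnion]
    refine ⟨h1, e x y, h1, ?_⟩
    rw [Finsupp.mem_support_iff]
    have h4 := hΦ (n x y) (e x y).1 (e x y).2
    rw [← h2, ← h3] at h4
    have h5 := congrArg (fun φ : Mo α => φ p) h4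
    simp only [tr_apply] at h5
    rw [← h5, Finsupp.sub_apply, sub_ne_zero]
    intro h
    apply hy
    show Φ y p ∈ S
    rw [← h]; exact hx
  · rintro ⟨x, y⟩ ⟨hxy, hx, hy⟩ ⟨x', y'⟩ ⟨hxy', hx', hy'⟩ h
    obtain ⟨h1, h2, h3⟩ := he x y hxy
    obtain ⟨h1', h2', h3'⟩ := he x' y' hxy'
    simp only [Prod.mk.injEq, mul_left_inj, inv_inj, and_true] at h
    have hn : n x y = n x' y' := hι h.2
    rw [Prod.mk.injEq]
    constructor
    · change x = x'
      rw [h2, h2', hn, h.1]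
    · change y = y'
      rw [h3, h3', hn, h.1]

/-- Tree sets from potentials. -/
theorem exists_tree (N : Subgroup Γ) (ι : N →* FreeGroup α) (hι : Function.Injective ι)
    (adj : V → V → Prop)
    (hs : ∀ ⦃x y⦄, adj x y → adj y x) (hc : ∀ x y, ReflTransGen adj x y)
    (ha : ∀ (g : Γ) x y, adj (g • x) (g • y) ↔ adj x y)
    (hst : ∀ x y, adj x y → x ≠ y → {g : Γ | g • x = x ∧ g • y = y}.Finite)
    (E₀ : Finset (V × V))
    (hE₀ : ∀ x y, adj x y → ∃ n : N, ∃ e ∈ E₀, x = (n : Γ) • e.1 ∧ y = (n : Γ) • e.2)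
    (Φ : V → Mo α)
    (hΦ : ∀ (n : N) v w, Φ ((n : Γ) • v) - Φ ((n : Γ) • w) = tr (ι n) (Φ v - Φ w)) :
    ∃ T : TreeSet Γ V, (∀ C ∈ T.E, {g : Γ | g • C = C}.Finite) ∧
      ∀ (p q : Ultrafilter V) (i : FreeGroup α × α) (a b : ℤ), a ≠ b →
        {v | Φ v i = a} ∈ p → {v | Φ v i = b} ∈ q → ∃ C ∈ T.E, C ∈ p ∧ C ∉ q := by
  obtain ⟨k, hk⟩ := bounded_cuts N ι hι adj E₀ hE₀ Φ hΦ
  obtain ⟨T, hT1, hT2⟩ := exists_treeSet adj hs hc ha k
  refine ⟨T, ?_, ?_⟩
  · intro C hC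
    obtain ⟨hf, ⟨⟨x, y⟩, hxy, hx, hy⟩⟩ := hT1 C hC
    have hne : x ≠ y := fun h => hy (by simpa [← h] using hx)
    have hst' := hst x y hxy hne
    have key : ∀ e : V × V, {g : Γ | g • x = e.1 ∧ g • y = e.2}.Finite := by
      intro e
      by_cases hne : {g : Γ | g • x = e.1 ∧ g • y = e.2}.Nonempty
      · obtain ⟨g₀, h1, h2⟩ := hne
        refine (hst'.image (fun g => g₀ * g)).subset ?_
        rintro g ⟨h3, h4⟩
        refine ⟨g₀⁻¹ * g, ⟨?_, ?_⟩, by simp⟩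
        · rw [mul_smul, h3, ← h1, inv_smul_smul]
        · rw [mul_smul, h4, ← h2, inv_smul_smul]
      · rw [not_nonempty_iff_eq_empty] at hne
        rw [hne]; exact finite_empty
    refine (hf.biUnion fun e _ => key e).subset ?_
    intro g hg
    have hg' : g • C = C := hg
    simp only [mem_iUnion]
    refine ⟨(g • x, g • y), ⟨(ha g x y).2 hxy, ?_, ?_⟩, rfl, rfl⟩
    · rw [← hg']; exact smul_mem_smul_set hx
    · show g • y ∉ C
      rw [← hg', smul_mem_smul_set_iff]; exact hy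
  · intro p q i a b hab hp hq
    refine hT2 p q ⟨{v | Φ v i ∈ ({a} : Set ℤ)}, hp, ?_, hk i {a}⟩
    intro hq'
    have := Filter.inter_mem hq hq'
    obtain ⟨v, hv1, hv2⟩ := Ultrafilter.nonempty_of_mem this
    exact hab (hv2.symm.trans hv1)

end Run7.h181.LR
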