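import Mathlib

/-!
# Nested cuts (after Dunwoody, Krön, Diekert–Weiß)
A connected graph (symmetric relation) on `V`, sets with finite oriented boundary, minimal
cuts separating ultrafilters, and a nested invariant family of cuts.
-/

set_option autoImplicit false

open Set Relation
open scoped Pointwise

namespace Run7.h181.LR

variable {V : Type*}

/-- oriented edge boundary -/
def bd (adj : V → V → Prop) (C : Set V) : Set (V × V) :=
  {e | adj e.1 e.2 ∧ e.1 ∈ C ∧ e.2 ∉ C}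

/-- connectedness of a set of vertices, phrased without paths -/
def Conn (adj : V → V → Prop) (C : Set V) : Prop :=
  ∀ D : Set V, (∃ x ∈ C, x ∈ D) → (∀ x ∈ C, x ∈ D → ∀ y ∈ C, adj x y → y ∈ D) → C ⊆ D

def Nested (C D : Set V) : Prop := C ⊆ D ∨ C ⊆ Dᶜ ∨ Cᶜ ⊆ D ∨ Cᶜ ⊆ Dᶜ

theorem bd_compl {adj : V → V → Prop} (hs : ∀ ⦃x y⦄, adj x y → adj y x) (C : Set V) :
    bd adj Cᶜ = Prod.swap '' (bd adj C) := by
  ext ⟨a, b⟩
  simp only [bd, mem_ofPred_eq, mem_image, Prod.exists, Prod.swap_prod_mk, Prod.mk.injEq,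
    mem_compl_iff, not_not]
  constructor
  · rintro ⟨h1, h2, h3⟩
    exact ⟨b, a, ⟨hs h1, h3, h2⟩, rfl, rfl⟩
  · rintro ⟨x, y, ⟨h1, h2, h3⟩, rfl, rfl⟩
    exact ⟨hs h1, h3, h2⟩

theorem bd_compl_encard {adj : V → V → Prop} (hs : ∀ ⦃x y⦄, adj x y → adj y x) (C : Set V) :
    (bd adj Cᶜ).encard = (bd adj C).encard := by
  rw [bd_compl hs, Function.Injective.encard_image Prod.swap_injective]

theorem submod (adj : V → V → Prop) (C D : Set V) :
    (bd adj (C ∩ D)).encard + (bd adj (C ∪ D)).encard ≤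
      (bd adj C).encard + (bd adj D).encard := by
  rw [← encard_union_add_encard_inter, ← encard_union_add_encard_inter (bd adj C)]
  refine add_le_add (encard_le_encard ?_) (encard_le_encard ?_)
  · rintro ⟨a, b⟩ h
    simp only [bd, mem_union, mem_ofPred_eq, mem_inter_iff] at h ⊢
    tauto
  · rintro ⟨a, b⟩ h
    simp only [bd, mem_union, mem_ofPred_eq, mem_inter_iff] at h ⊢
    tauto

theorem submod' {adj : V → V → Prop} (hs : ∀ ⦃x y⦄, adj x y → adj y x) (C D : Set V) :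
    (bd adj (C ∩ D)).encard + (bd adj (Cᶜ ∩ Dᶜ)).encard ≤
      (bd adj C).encard + (bd adj D).encard := by
  have := submod adj C D
  rwa [← bd_compl_encard hs (C ∪ D), compl_union] at this

/-- finiteness of connected cuts of bounded size separating two points -/
theorem finite_cuts (k : ℕ) : ∀ (adj : V → V → Prop) (_ : ∀ ⦃x y⦄, adj x y → adj y x) (x y : V),
    {D : Set V | x ∈ D ∧ y ∉ D ∧ (bd adj D).encard ≤ k ∧ Conn adj D ∧ Conn adj Dᶜ}.Finite := by
  induction k with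
  | zero =>
    intro adj hs x y
    refine Set.Finite.subset (Set.finite_singleton {z | ReflTransGen adj x z}) ?_
    rintro D ⟨hx, hy, hb, hD, hD'⟩
    have hb0 : bd adj D = ∅ := by
      have : (bd adj D).encard = 0 := by simpa using hb
      exact encard_eq_zero.1 this
    rw [mem_singleton_iff]
    apply subset_antisymm
    · refine hD _ ⟨x, hx, ReflTransGen.refl⟩ ?_
      intro a ha ha' b hb hab
      exact ReflTransGen.tail ha' hab
    · intro z hz
      have hz' : ReflTransGen adj x z := hz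
      clear hz
      induction hz' with
      | refl => exact hx
      | tail h1 h2 ih =>
        rename_i b c
        by_contra hc
        have : (b, c) ∈ bd adj D := ⟨h2, ih, hc⟩
        rw [hb0] at this
        exact this.elim
  | succ k IH =>
    intro adj hs x y
    by_cases hxy : ReflTransGen adj x y
    · induction hxy with
      | refl =>
        refine Set.Finite.subset Set.finite_empty ?_
        rintro D ⟨hx, hy, -⟩
        exact hy hx
      | tail h1 h2 ih =>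
        rename_i b c
        -- remove the edge {b,c}
        let adj' : V → V → Prop := fun u v => adj u v ∧ ¬ (u = b ∧ v = c) ∧ ¬ (u = c ∧ v = b)
        have hs' : ∀ ⦃x y⦄, adj' x y → adj' y x := by
          rintro u v ⟨h, h', h''⟩
          exact ⟨hs h, fun hh => h'' ⟨hh.2, hh.1⟩, fun hh => h' ⟨hh.2, hh.1⟩⟩
        refine Set.Finite.subset (ih.union (IH adj' hs' b c)) ?_
        rintro D ⟨hx, hc, hb, hD, hD'⟩
        by_cases hbD : b ∈ D
        · right
          refine ⟨hbD, hc, ?_, ?_, ?_⟩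
          · have hmem : (b, c) ∈ bd adj D := ⟨h2, hbD, hc⟩
            have hsub : bd adj' D ⊆ bd adj D \ {(b, c)} := by
              rintro ⟨u, v⟩ ⟨h, hu, hv⟩
              refine ⟨⟨h.1, hu, hv⟩, ?_⟩
              rintro heq
              simp only [mem_singleton_iff, Prod.mk.injEq] at heq
              exact h.2.1 heq
            have h3 := encard_sdiff_singleton_add_one hmem
            have h4 : (bd adj D \ {(b, c)}).encard + 1 ≤ (k : ℕ∞) + 1 := by
              rw [h3]; simpa using hb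
            have h5 : (bd adj D \ {(b, c)}).encard ≤ (k : ℕ∞) := by
              exact (ENat.add_le_add_iff_right (by simp)).1 h4
            exact (encard_le_encard hsub).trans h5
          · intro E hE hE'
            refine hD E hE ?_
            intro u hu huE v hv huv
            refine hE' u hu huE v hv ⟨huv, ?_, ?_⟩
            · rintro ⟨rfl, rfl⟩; exact hc hv
            · rintro ⟨rfl, rfl⟩; exact hc hu
          · intro E hE hE'
            refine hD' E hE ?_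
            intro u hu huE v hv huv
            refine hE' u hu huE v hv ⟨huv, ?_, ?_⟩
            · rintro ⟨rfl, rfl⟩; exact hu hbD
            · rintro ⟨rfl, rfl⟩; exact hv hbD
        · left
          exact ⟨hx, hbD, hb, hD, hD'⟩
    · refine Set.Finite.subset (Set.finite_singleton {z | ReflTransGen adj x z}) ?_
      rintro D ⟨hx, hy, hb, hD, hD'⟩
      rw [mem_singleton_iff]
      apply subset_antisymm
      · refine hD _ ⟨x, hx, ReflTransGen.refl⟩ ?_
        intro a ha ha' b hb hab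
        exact ReflTransGen.tail ha' hab
      · intro z hz
        by_contra hzD
        apply hxy
        refine hD' {w | ReflTransGen adj x w} ⟨z, hzD, hz⟩ ?_ hy
        intro a ha ha' b hb hab
        exact ReflTransGen.tail ha' hab

/-- non-nested connected sets split the end points of each other's boundary -/
theorem exists_split {adj : V → V → Prop} {C D : Set V} (hn : ¬ Nested C D)
    (hD : Conn adj D) (hD' : Conn adj Dᶜ) :
    (∃ e ∈ bd adj C ∪ bd adj Cᶜ, e.1 ∈ D) ∧ (∃ e ∈ bd adj C ∪ bd adj Cᶜ, e.1 ∉ D) := by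
  simp only [Nested, not_or, not_subset, mem_compl_iff, not_not] at hn
  obtain ⟨⟨a, ha, ha'⟩, ⟨b, hb, hb'⟩, ⟨c, hc, hc'⟩, ⟨d, hd, hd'⟩⟩ := hn
  constructor
  · by_contra hcon
    push Not at hcon
    have : D ⊆ C := by
      refine hD C ⟨b, hb', hb⟩ ?_
      intro x hx hxC y hy hxy
      by_contra hyC
      exact hcon (x, y) (Or.inl ⟨hxy, hxC, hyC⟩) hx
    exact hd (this hd')
  · by_contra hcon
    push Not at hcon
    have : Dᶜ ⊆ C := by
      refine hD' C ⟨a, ha', ha⟩ ?_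
      intro x hx hxC y hy hxy
      by_contra hyC
      exact hx (hcon (x, y) (Or.inl ⟨hxy, hxC, hyC⟩))
    exact hc (this hc')


theorem bd_nonempty {adj : V → V → Prop} (hc : ∀ x y, ReflTransGen adj x y) {C : Set V}
    {a b : V} (ha : a ∈ C) (hb : b ∉ C) : (bd adj C).Nonempty := by
  have := hc a b
  induction this with
  | refl => exact absurd ha hb
  | tail h1 h2 ih =>
    rename_i b c
    by_cases h : b ∈ C
    · exact ⟨(b, c), h2, h, hb⟩
    · exact ih h

section Opt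

variable (adj : V → V → Prop) (k : ℕ)

def Sep (p q : Ultrafilter V) (C : Set V) : Prop := C ∈ p ∧ C ∉ q

/-- minimal cut for the pair -/
def IsMin (p q : Ultrafilter V) (C : Set V) : Prop :=
  Sep p q C ∧ (bd adj C).encard ≤ k ∧ ∀ D, Sep p q D → (bd adj C).encard ≤ (bd adj D).encard

def Cmin : Set (Set V) := {C | ∃ p q, IsMin adj k p q C}

noncomputable def mm (C : Set V) : ℕ := {D ∈ Cmin adj k | ¬ Nested C D}.ncard

def IsOpt (p q : Ultrafilter V) (C : Set V) : Prop :=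
  IsMin adj k p q C ∧ ∀ D, IsMin adj k p q D → mm adj k C ≤ mm adj k D

def Opt : Set (Set V) := {C | ∃ p q, IsOpt adj k p q C}

variable {adj k}

theorem Sep.compl {p q : Ultrafilter V} {C : Set V} (h : Sep p q C) : Sep q p Cᶜ := by
  refine ⟨Ultrafilter.compl_mem_iff_notMem.2 h.2, ?_⟩
  rw [Ultrafilter.compl_mem_iff_notMem, not_not]
  exact h.1

theorem IsMin.compl (hs : ∀ ⦃x y⦄, adj x y → adj y x) {p q : Ultrafilter V} {C : Set V}
    (h : IsMin adj k p q C) : IsMin adj k q p Cᶜ := by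
  refine ⟨h.1.compl, ?_, ?_⟩
  · rw [bd_compl_encard hs]; exact h.2.1
  · intro D hD
    rw [bd_compl_encard hs, ← bd_compl_encard hs D]
    exact h.2.2 _ hD.compl

theorem nested_symm {C D : Set V} (h : Nested C D) : Nested D C := by
  rcases h with h | h | h | h
  · exact Or.inr (Or.inr (Or.inr (compl_subset_compl.2 h)))
  · exact Or.inr (Or.inl (subset_compl_comm.1 h))
  · exact Or.inr (Or.inr (Or.inl (compl_subset_comm.1 h)))
  · exact Or.inl (compl_subset_compl.1 h)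

theorem nested_compl_right {C D : Set V} : Nested C Dᶜ ↔ Nested C D := by
  simp only [Nested, compl_compl]; tauto

theorem nested_compl_left {C D : Set V} : Nested Cᶜ D ↔ Nested C D := by
  simp only [Nested, compl_compl]; tauto

theorem mm_compl (C : Set V) : mm adj k Cᶜ = mm adj k C := by
  simp only [mm, nested_compl_left]

theorem IsOpt.compl (hs : ∀ ⦃x y⦄, adj x y → adj y x) {p q : Ultrafilter V} {C : Set V}
    (h : IsOpt adj k p q C) : IsOpt adj k q p Cᶜ := by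
  refine ⟨h.1.compl hs, ?_⟩
  intro D hD
  rw [mm_compl, ← mm_compl D]
  exact h.2 _ (hD.compl hs)

theorem exists_isMin {p q : Ultrafilter V} (h : ∃ D, Sep p q D ∧ (bd adj D).encard ≤ k) :
    ∃ C, IsMin adj k p q C := by
  obtain ⟨D, hD, hDk⟩ := h
  have hne : {C | Sep p q C}.Nonempty := ⟨D, hD⟩
  let f : Set V → ℕ∞ := fun C => (bd adj C).encard
  obtain ⟨C, hC, hmin⟩ := WellFounded.has_min (InvImage.wf f wellFounded_lt) _ hne
  have hmin' : ∀ D, Sep p q D → (bd adj C).encard ≤ (bd adj D).encard := by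
    intro D hD
    exact not_lt.1 (hmin D hD)
  exact ⟨C, hC, (hmin' D hD).trans hDk, hmin'⟩

theorem exists_isOpt {p q : Ultrafilter V} (h : ∃ D, Sep p q D ∧ (bd adj D).encard ≤ k) :
    ∃ C, IsOpt adj k p q C := by
  obtain ⟨D, hD⟩ := exists_isMin h
  have hne : {C | IsMin adj k p q C}.Nonempty := ⟨D, hD⟩
  obtain ⟨C, hC, hmin⟩ := WellFounded.has_min (InvImage.wf (mm adj k) wellFounded_lt) _ hne
  exact ⟨C, hC, fun D hD => not_lt.1 (hmin D hD)⟩

theorem conn_aux (hs : ∀ ⦃x y⦄, adj x y → adj y x) (hc : ∀ x y, ReflTransGen adj x y)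
    {p q : Ultrafilter V} {C : Set V} (h : IsMin adj k p q C) {C₁ C₂ : Set V}
    (hu : C₁ ∪ C₂ = C) (hno : ∀ x ∈ C₁, ∀ y ∈ C₂, ¬ adj x y) (hd : ∀ x ∈ C₁, x ∉ C₂)
    (h1 : C₁ ∈ p) (hn1 : C₁.Nonempty) (hn2 : C₂.Nonempty) : False := by
  have hsep : Sep p q C₁ := by
    refine ⟨h1, fun hq => h.1.2 ?_⟩
    exact Filter.mem_of_superset hq (hu ▸ subset_union_left)
  have hsub1 : bd adj C₁ ⊆ bd adj C := by
    rintro ⟨a, b⟩ ⟨hab, ha, hb⟩
    refine ⟨hab, hu ▸ Or.inl ha, ?_⟩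
    rw [← hu]
    rintro (hb' | hb')
    · exact hb hb'
    · exact hno a ha b hb' hab
  have hsub2 : bd adj C₂ ⊆ bd adj C := by
    rintro ⟨a, b⟩ ⟨hab, ha, hb⟩
    refine ⟨hab, hu ▸ Or.inr ha, ?_⟩
    rw [← hu]
    rintro (hb' | hb')
    · exact hno b hb' a ha (hs hab)
    · exact hb hb'
  have hfin : (bd adj C).Finite := by
    apply finite_of_encard_le_coe h.2.1
  have heq : bd adj C₁ = bd adj C :=
    Finite.eq_of_subset_of_encard_le (hfin.subset hsub1) hsub1 (h.2.2 _ hsep)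
  obtain ⟨a, ha⟩ := hn1
  obtain ⟨b, hb⟩ := hn2
  obtain ⟨e, he⟩ := bd_nonempty hc hb (hd a ha)
  have he' := hsub2 he
  rw [← heq] at he'
  exact hd _ he'.2.1 he.2.1

theorem IsMin.conn (hs : ∀ ⦃x y⦄, adj x y → adj y x) (hc : ∀ x y, ReflTransGen adj x y)
    {p q : Ultrafilter V} {C : Set V} (h : IsMin adj k p q C) : Conn adj C := by
  intro D ⟨x, hxC, hxD⟩ hcl
  by_contra hcon
  rw [not_subset] at hcon
  obtain ⟨y, hyC, hyD⟩ := hcon
  have hu : (C ∩ D) ∪ (C \ D) = C := inter_union_sdiff C D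
  have hmem : (C ∩ D) ∪ (C \ D) ∈ p := by rw [hu]; exact h.1.1
  rcases Ultrafilter.union_mem_iff.1 hmem with h1 | h1
  · refine conn_aux hs hc h hu ?_ ?_ h1 ⟨x, hxC, hxD⟩ ⟨y, hyC, hyD⟩
    · rintro a ⟨ha, ha'⟩ b ⟨hb, hb'⟩ hab
      exact hb' (hcl a ha ha' b hb hab)
    · rintro a ⟨ha, ha'⟩ ⟨-, h'⟩
      exact h' ha'
  · refine conn_aux hs hc h ((union_comm _ _).trans hu) ?_ ?_ h1 ⟨y, hyC, hyD⟩ ⟨x, hxC, hxD⟩
    · rintro b ⟨hb, hb'⟩ a ⟨ha, ha'⟩ hab
      exact hb' (hcl a ha ha' b hb (hs hab))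
    · rintro b ⟨hb, hb'⟩ ⟨-, h'⟩
      exact hb' h'

theorem finite_nonnested (hs : ∀ ⦃x y⦄, adj x y → adj y x) (hc : ∀ x y, ReflTransGen adj x y)
    {C : Set V} (hC : (bd adj C).Finite) : {D ∈ Cmin adj k | ¬ Nested C D}.Finite := by
  have hC' : (bd adj C ∪ bd adj Cᶜ).Finite := by
    refine hC.union ?_
    rw [bd_compl hs]
    exact hC.image _
  refine Set.Finite.subset (hC'.biUnion fun e _ => hC'.biUnion fun e' _ =>
    finite_cuts k adj hs e.1 e'.1) ?_
  rintro D ⟨⟨p, q, hD⟩, hn⟩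
  obtain ⟨⟨e, he, he1⟩, ⟨e', he', he1'⟩⟩ := exists_split hn (hD.conn hs hc)
    ((hD.compl hs).conn hs hc)
  simp only [mem_iUnion]
  exact ⟨e, he, e', he', he1, he1', hD.2.1, hD.conn hs hc, (hD.compl hs).conn hs hc⟩

theorem nested_corner {C D F : Set V} (hn : ¬ Nested C D) (h1 : Nested C F) (h2 : Nested D F) :
    Nested (C ∩ D) F := by
  simp only [Nested, not_or, not_subset, mem_compl_iff, not_not] at hn
  obtain ⟨⟨a, ha, ha'⟩, ⟨b, hb, hb'⟩, ⟨c, hc, hc'⟩, ⟨d, hd, hd'⟩⟩ := hn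
  rcases h1 with h1 | h1 | h1 | h1
  · exact Or.inl (inter_subset_left.trans h1)
  · exact Or.inr (Or.inl (inter_subset_left.trans h1))
  · rcases h2 with h2 | h2 | h2 | h2
    · exact Or.inl (inter_subset_right.trans h2)
    · exact Or.inr (Or.inl (inter_subset_right.trans h2))
    · refine Or.inr (Or.inr (Or.inl ?_))
      rw [compl_inter]
      exact union_subset h1 h2
    · -- Cᶜ ⊆ F, Dᶜ ⊆ Fᶜ
      exfalso
      exact h2 hc' (h1 hc)
  · rcases h2 with h2 | h2 | h2 | h2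
    · exact Or.inl (inter_subset_right.trans h2)
    · exact Or.inr (Or.inl (inter_subset_right.trans h2))
    · exfalso
      exact h1 hc (h2 hc')
    · refine Or.inr (Or.inr (Or.inr ?_))
      rw [compl_inter]
      exact union_subset h1 h2

theorem nested_or_of_nested {C F E E' : Set V} (h : Nested C F) (hE : E ⊆ C) (hE' : E' ⊆ Cᶜ) :
    Nested E F ∨ Nested E' F := by
  rcases h with h | h | h | h
  · exact Or.inl (Or.inl (hE.trans h))
  · exact Or.inl (Or.inr (Or.inl (hE.trans h)))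
  · exact Or.inr (Or.inl (hE'.trans h))
  · exact Or.inr (Or.inr (Or.inl (hE'.trans h)))

theorem count (hs : ∀ ⦃x y⦄, adj x y → adj y x) (hc : ∀ x y, ReflTransGen adj x y)
    {C D : Set V} (hC : C ∈ Cmin adj k) (hD : D ∈ Cmin adj k) (hn : ¬ Nested C D) :
    mm adj k (C ∩ D) + mm adj k (Cᶜ ∩ Dᶜ) < mm adj k C + mm adj k D := by
  have hfC : (bd adj C).Finite := by
    obtain ⟨p, q, h⟩ := hC
    exact finite_of_encard_le_coe h.2.1
  have hfD : (bd adj D).Finite := by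
    obtain ⟨p, q, h⟩ := hD
    exact finite_of_encard_le_coe h.2.1
  have hn' : ¬ Nested Cᶜ Dᶜ := by rwa [nested_compl_left, nested_compl_right]
  have hfinC := finite_nonnested (k := k) hs hc hfC
  have hfinD := finite_nonnested (k := k) hs hc hfD
  have hsub : {F ∈ Cmin adj k | ¬ Nested (C ∩ D) F} ∪ {F ∈ Cmin adj k | ¬ Nested (Cᶜ ∩ Dᶜ) F} ⊆
      ({F ∈ Cmin adj k | ¬ Nested C F} ∪ {F ∈ Cmin adj k | ¬ Nested D F}) := by
    rintro F (⟨hF, hF'⟩ | ⟨hF, hF'⟩)
    · by_contra hcon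
      simp only [mem_union, mem_ofPred_eq, not_or, not_and, not_not] at hcon
      exact hF' (nested_corner hn (hcon.1 hF) (hcon.2 hF))
    · by_contra hcon
      simp only [mem_union, mem_ofPred_eq, not_or, not_and, not_not] at hcon
      exact hF' (nested_corner hn' (nested_compl_left.2 (hcon.1 hF))
        (nested_compl_left.2 (hcon.2 hF)))
  have hsub2 : {F ∈ Cmin adj k | ¬ Nested (C ∩ D) F} ∩ {F ∈ Cmin adj k | ¬ Nested (Cᶜ ∩ Dᶜ) F} ⊆
      ({F ∈ Cmin adj k | ¬ Nested C F} ∩ {F ∈ Cmin adj k | ¬ Nested D F}) := by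
    rintro F ⟨⟨hF, hF1⟩, ⟨-, hF2⟩⟩
    refine ⟨⟨hF, fun h => ?_⟩, ⟨hF, fun h => ?_⟩⟩
    · rcases nested_or_of_nested h (inter_subset_left (t := D)) (inter_subset_left (t := Dᶜ)) with
        h | h
      · exact hF1 h
      · exact hF2 h
    · rcases nested_or_of_nested h (inter_subset_right (s := C)) (inter_subset_right (s := Cᶜ)) with
        h | h
      · exact hF1 h
      · exact hF2 h
  have hstrict : {F ∈ Cmin adj k | ¬ Nested (C ∩ D) F} ∪ {F ∈ Cmin adj k | ¬ Nested (Cᶜ ∩ Dᶜ) F} ⊂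
      ({F ∈ Cmin adj k | ¬ Nested C F} ∪ {F ∈ Cmin adj k | ¬ Nested D F}) := by
    refine ⟨hsub, fun h => ?_⟩
    have hCm : C ∈ ({F ∈ Cmin adj k | ¬ Nested C F} ∪ {F ∈ Cmin adj k | ¬ Nested D F}) :=
      Or.inr ⟨hC, fun h => hn (nested_symm h)⟩
    rcases h hCm with h | h
    · exact h.2 (Or.inl inter_subset_left)
    · exact h.2 (Or.inr (Or.inl inter_subset_left))
  have hfin := hfinC.union hfinD
  have h1 := ncard_lt_ncard hstrict hfin
  have h2 := ncard_le_ncard hsub2 (hfinC.inter_of_left _)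
  have h3 := ncard_union_add_ncard_inter _ _ hfinC hfinD
  have hfE : {F ∈ Cmin adj k | ¬ Nested (C ∩ D) F}.Finite :=
    hfin.subset (subset_union_left.trans hsub)
  have hfE' : {F ∈ Cmin adj k | ¬ Nested (Cᶜ ∩ Dᶜ) F}.Finite :=
    hfin.subset (subset_union_right.trans hsub)
  have h4 := ncard_union_add_ncard_inter _ _ hfE hfE'
  simp only [mm]
  omega

theorem bd_ne_top {C : Set V} (h : (bd adj C).encard ≤ k) : (bd adj C).encard ≠ ⊤ :=
  ne_top_of_le_ne_top (by simp) h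

theorem enat_aux {a b c d : ℕ∞} (h : a + b ≤ c + d) (hc : c ≠ ⊤) (hd : d ≠ ⊤)
    (h1 : c ≤ a) (h2 : d ≤ b) : a ≤ c ∧ b ≤ d := by
  have hab : a + b ≠ ⊤ := ne_top_of_le_ne_top (by simp [hc, hd]) h
  have ha : a ≠ ⊤ := fun h => hab (by simp [h])
  have hb : b ≠ ⊤ := fun h => hab (by simp [h])
  lift a to ℕ using ha
  lift b to ℕ using hb
  lift c to ℕ using hc
  lift d to ℕ using hd
  norm_cast at *
  omega

theorem key1 (hs : ∀ ⦃x y⦄, adj x y → adj y x) (hc : ∀ x y, ReflTransGen adj x y)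
    {C D : Set V} {p q p' q' : Ultrafilter V} (hC : IsOpt adj k p q C) (hD : IsOpt adj k p' q' D)
    (hn : ¬ Nested C D) (h1 : D ∈ p) (h2 : C ∉ q') : False := by
  have hsE : Sep p q (C ∩ D) := by
    refine ⟨Filter.inter_mem hC.1.1.1 h1, fun h => hC.1.1.2 ?_⟩
    exact Filter.mem_of_superset h inter_subset_left
  have hsE' : Sep q' p' (Cᶜ ∩ Dᶜ) := by
    refine ⟨Filter.inter_mem (Ultrafilter.compl_mem_iff_notMem.2 h2)
      (Ultrafilter.compl_mem_iff_notMem.2 hD.1.1.2), fun h => ?_⟩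
    have h' : Dᶜ ∈ p' := Filter.mem_of_superset h inter_subset_right
    exact Ultrafilter.compl_mem_iff_notMem.1 h' hD.1.1.1
  have hb := submod' hs C D
  have hb1 := hC.1.2.2 _ hsE
  have hb2 := (hD.1.compl hs).2.2 _ hsE'
  rw [bd_compl_encard hs] at hb2
  obtain ⟨e1, e2⟩ := enat_aux hb (bd_ne_top hC.1.2.1) (bd_ne_top hD.1.2.1) hb1 hb2
  have hmE : IsMin adj k p q (C ∩ D) :=
    ⟨hsE, e1.trans hC.1.2.1, fun F hF => e1.trans (hC.1.2.2 F hF)⟩
  have hmE' : IsMin adj k q' p' (Cᶜ ∩ Dᶜ) := by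
    refine ⟨hsE', e2.trans hD.1.2.1, fun F hF => e2.trans ?_⟩
    rw [← bd_compl_encard hs D]
    exact (hD.1.compl hs).2.2 F hF
  have m1 := hC.2 _ hmE
  have m2 := (hD.compl hs).2 _ hmE'
  rw [mm_compl] at m2
  have := count hs hc ⟨p, q, hC.1⟩ ⟨p', q', hD.1⟩ hn
  omega

theorem key2 (hs : ∀ ⦃x y⦄, adj x y → adj y x) (hc : ∀ x y, ReflTransGen adj x y)
    {C D : Set V} {p q p' q' : Ultrafilter V} (hC : IsOpt adj k p q C) (hD : IsOpt adj k p' q' D)
    (hn : ¬ Nested C D) (h1 : D ∈ p) (h2 : D ∉ q) (h3 : C ∉ p') (h4 : C ∈ q') : False := by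
  have hle1 := hC.1.2.2 D ⟨h1, h2⟩
  have hle2 := (hD.1.compl hs).2.2 C ⟨h4, h3⟩
  rw [bd_compl_encard hs] at hle2
  have hbeq : (bd adj C).encard = (bd adj D).encard := le_antisymm hle1 hle2
  have hsE : Sep p q (C ∩ D) := by
    refine ⟨Filter.inter_mem hC.1.1.1 h1, fun h => hC.1.1.2 ?_⟩
    exact Filter.mem_of_superset h inter_subset_left
  have hsE' : Sep q p (Cᶜ ∩ Dᶜ) := by
    refine ⟨Filter.inter_mem (Ultrafilter.compl_mem_iff_notMem.2 hC.1.1.2)
      (Ultrafilter.compl_mem_iff_notMem.2 h2), fun h => ?_⟩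
    have h' : Dᶜ ∈ p := Filter.mem_of_superset h inter_subset_right
    exact Ultrafilter.compl_mem_iff_notMem.1 h' h1
  have hb := submod' hs C D
  have hb1 := hC.1.2.2 _ hsE
  have hb2 := (hC.1.compl hs).2.2 _ hsE'
  rw [bd_compl_encard hs, hbeq] at hb2
  obtain ⟨e1, e2⟩ := enat_aux hb (bd_ne_top hC.1.2.1) (bd_ne_top hD.1.2.1) hb1 hb2
  have hmE : IsMin adj k p q (C ∩ D) :=
    ⟨hsE, e1.trans hC.1.2.1, fun F hF => e1.trans (hC.1.2.2 F hF)⟩
  have hmE' : IsMin adj k q p (Cᶜ ∩ Dᶜ) := by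
    refine ⟨hsE', e2.trans hD.1.2.1, fun F hF => e2.trans ?_⟩
    rw [← hbeq, ← bd_compl_encard hs C]
    exact (hC.1.compl hs).2.2 F hF
  have m1 := hC.2 _ hmE
  have m2 := (hC.compl hs).2 _ hmE'
  rw [mm_compl] at m2
  have hmC : IsMin adj k q' p' C := by
    refine ⟨⟨h4, h3⟩, hC.1.2.1, fun F hF => ?_⟩
    rw [hbeq, ← bd_compl_encard hs D]
    exact (hD.1.compl hs).2.2 F hF
  have m3 := (hD.compl hs).2 _ hmC
  rw [mm_compl] at m3
  have := count hs hc ⟨p, q, hC.1⟩ ⟨p', q', hD.1⟩ hn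
  omega

theorem opt_nested (hs : ∀ ⦃x y⦄, adj x y → adj y x) (hc : ∀ x y, ReflTransGen adj x y)
    {C D : Set V} (hC : C ∈ Opt adj k) (hD : D ∈ Opt adj k) : Nested C D := by
  obtain ⟨p, q, hC⟩ := hC
  obtain ⟨p', q', hD⟩ := hD
  by_contra hn
  have hcq : ∀ {p : Ultrafilter V} {C : Set V}, Cᶜ ∈ p ↔ C ∉ p :=
    Ultrafilter.compl_mem_iff_notMem
  have hcq' : ∀ {p : Ultrafilter V} {C : Set V}, Cᶜ ∉ p ↔ C ∈ p := by
    intro p C; rw [hcq, not_not]
  have hn1 : ¬ Nested D C := fun h => hn (nested_symm h)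
  have hn2 : ¬ Nested C Dᶜ := fun h => hn (nested_compl_right.1 h)
  have hn3 : ¬ Nested Cᶜ D := fun h => hn (nested_compl_left.1 h)
  -- p ∈ 1, q' ∈ 3
  have i1 : D ∈ p → C ∈ q' := by
    intro h; by_contra h'
    exact key1 hs hc hC hD hn h h'
  -- q ∈ 3, p' ∈ 1
  have i2 : D ∉ q → C ∉ p' := by
    intro h h'
    exact key1 hs hc hD hC hn1 h' h
  -- p ∈ 2, p' ∈ 4
  have i3 : D ∉ p → C ∈ p' := by
    intro h; by_contra h'
    exact key1 hs hc hC (hD.compl hs) hn2 (hcq.2 h) h'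
  -- q ∈ 4, q' ∈ 2
  have i4 : D ∈ q → C ∉ q' := by
    intro h h'
    exact key1 hs hc (hC.compl hs) hD hn3 h (hcq'.2 h')
  by_cases hDp : D ∈ p
  · have a1 := i1 hDp
    have a2 : D ∉ q := fun h => i4 h a1
    exact key2 hs hc hC hD hn hDp a2 (i2 a2) a1
  · have a1 := i3 hDp
    have a2 : D ∈ q := by
      by_contra h; exact i2 h a1
    exact key2 hs hc hC (hD.compl hs) hn2 (hcq.2 hDp) (hcq'.2 a2) (i4 a2) a1

end Opt

section Inv

variable {adj : V → V → Prop} {k : ℕ} {G : Type*} [Group G] [MulAction G V]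

theorem bd_smul (ha : ∀ (g : G) x y, adj (g • x) (g • y) ↔ adj x y) (g : G) (C : Set V) :
    bd adj (g • C) = (fun e : V × V => (g • e.1, g • e.2)) '' bd adj C := by
  ext ⟨a, b⟩
  simp only [bd, mem_ofPred_eq, mem_image, Prod.exists, Prod.mk.injEq]
  constructor
  · rintro ⟨h1, h2, h3⟩
    refine ⟨g⁻¹ • a, g⁻¹ • b, ⟨?_, mem_smul_set_iff_inv_smul_mem.1 h2,
      fun h => h3 (mem_smul_set_iff_inv_smul_mem.2 h)⟩, by simp, by simp⟩
    rw [ha]; exact h1
  · rintro ⟨x, y, ⟨h1, h2, h3⟩, rfl, rfl⟩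
    refine ⟨(ha _ _ _).2 h1, smul_mem_smul_set h2, ?_⟩
    rwa [smul_mem_smul_set_iff]

theorem bd_smul_encard (ha : ∀ (g : G) x y, adj (g • x) (g • y) ↔ adj x y) (g : G) (C : Set V) :
    (bd adj (g • C)).encard = (bd adj C).encard := by
  rw [bd_smul ha, Function.Injective.encard_image]
  rintro ⟨a, b⟩ ⟨c, d⟩ h
  simpa using h

def umap (g : G) (p : Ultrafilter V) : Ultrafilter V := p.map (g • ·)

theorem mem_umap {g : G} {p : Ultrafilter V} {C : Set V} : C ∈ umap g p ↔ g⁻¹ • C ∈ p := by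
  rw [umap, Ultrafilter.mem_map, preimage_smul]

theorem sep_umap {g : G} {p q : Ultrafilter V} {C : Set V} :
    Sep (umap g p) (umap g q) C ↔ Sep p q (g⁻¹ • C) := by
  simp only [Sep, mem_umap]

theorem IsMin.smul (ha : ∀ (g : G) x y, adj (g • x) (g • y) ↔ adj x y) {p q : Ultrafilter V}
    {C : Set V} (h : IsMin adj k p q C) (g : G) :
    IsMin adj k (umap g p) (umap g q) (g • C) := by
  refine ⟨?_, ?_, ?_⟩
  · rw [sep_umap, inv_smul_smul]; exact h.1
  · rw [bd_smul_encard ha]; exact h.2.1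
  · intro D hD
    rw [bd_smul_encard ha, ← bd_smul_encard ha g⁻¹ D]
    exact h.2.2 _ (sep_umap.1 hD)

theorem cmin_smul (ha : ∀ (g : G) x y, adj (g • x) (g • y) ↔ adj x y) {C : Set V}
    (h : C ∈ Cmin adj k) (g : G) : g • C ∈ Cmin adj k := by
  obtain ⟨p, q, h⟩ := h
  exact ⟨_, _, h.smul ha g⟩

theorem nested_smul {C D : Set V} (g : G) : Nested (g • C) (g • D) ↔ Nested C D := by
  simp only [Nested, ← smul_set_compl, smul_set_subset_smul_set_iff]

theorem mm_smul (ha : ∀ (g : G) x y, adj (g • x) (g • y) ↔ adj x y) (g : G) (C : Set V) :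
    mm adj k (g • C) = mm adj k C := by
  have : {D ∈ Cmin adj k | ¬ Nested (g • C) D} = (g • ·) '' {D ∈ Cmin adj k | ¬ Nested C D} := by
    ext D
    simp only [mem_ofPred_eq, mem_image]
    constructor
    · rintro ⟨h1, h2⟩
      refine ⟨g⁻¹ • D, ⟨cmin_smul ha h1 _, ?_⟩, by simp⟩
      rw [← nested_smul g, smul_inv_smul]; exact h2
    · rintro ⟨D, ⟨h1, h2⟩, rfl⟩
      refine ⟨cmin_smul ha h1 _, ?_⟩
      rw [nested_smul]; exact h2
  rw [mm, this, ncard_image_of_injective _ (MulAction.injective g), mm]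

theorem opt_smul (ha : ∀ (g : G) x y, adj (g • x) (g • y) ↔ adj x y) {C : Set V}
    (h : C ∈ Opt adj k) (g : G) : g • C ∈ Opt adj k := by
  obtain ⟨p, q, h⟩ := h
  refine ⟨_, _, h.1.smul ha g, ?_⟩
  intro D hD
  rw [mm_smul ha, ← mm_smul ha g⁻¹ D]
  refine h.2 _ ?_
  have := hD.smul ha g⁻¹
  have e : ∀ p : Ultrafilter V, umap g⁻¹ (umap g p) = p := by
    intro p
    ext C
    rw [mem_umap, mem_umap]; simp
  rwa [e, e] at this

end Inv

/-- A tree set on `V`: nested, closed under complements, locally finite. -/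
structure TreeSet (G V : Type*) [Group G] [MulAction G V] where
  E : Set (Set V)
  compl_mem : ∀ {C}, C ∈ E → Cᶜ ∈ E
  nonempty : ∀ {C}, C ∈ E → C.Nonempty
  nested : ∀ {C D}, C ∈ E → D ∈ E → Nested C D
  fin : ∀ x y, {C ∈ E | x ∈ C ∧ y ∉ C}.Finite
  smul_mem : ∀ (g : G) {C}, C ∈ E → g • C ∈ E

/-- Dunwoody's theorem in the form we need. -/
theorem exists_treeSet {G V : Type*} [Group G] [MulAction G V] (adj : V → V → Prop)
    (hs : ∀ ⦃x y⦄, adj x y → adj y x) (hc : ∀ x y, ReflTransGen adj x y)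
    (ha : ∀ (g : G) x y, adj (g • x) (g • y) ↔ adj x y) (k : ℕ) :
    ∃ T : TreeSet G V, (∀ C ∈ T.E, (bd adj C).Finite ∧ (bd adj C).Nonempty) ∧
      ∀ p q : Ultrafilter V, (∃ D, D ∈ p ∧ D ∉ q ∧ (bd adj D).encard ≤ k) →
        ∃ C ∈ T.E, C ∈ p ∧ C ∉ q := by
  have hne : ∀ C ∈ Opt adj k, C.Nonempty := by
    rintro C ⟨p, q, h⟩
    exact Ultrafilter.nonempty_of_mem h.1.1.1
  have hcomp : ∀ C ∈ Opt adj k, Cᶜ ∈ Opt adj k := by
    rintro C ⟨p, q, h⟩
    exact ⟨_, _, h.compl hs⟩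
  refine ⟨⟨Opt adj k, fun {C} => hcomp C, fun {C} => hne C, fun {C D} => opt_nested hs hc, ?_,
    fun g C hC => opt_smul ha hC g⟩, ?_, ?_⟩
  · intro x y
    refine (finite_cuts k adj hs x y).subset ?_
    rintro C ⟨⟨p, q, h⟩, hx, hy⟩
    exact ⟨hx, hy, h.1.2.1, h.1.conn hs hc, (h.1.compl hs).conn hs hc⟩
  · intro C hC
    obtain ⟨a, ha⟩ := hne C hC
    obtain ⟨b, hb⟩ := hne _ (hcomp C hC)
    obtain ⟨p, q, h⟩ := hC
    exact ⟨finite_of_encard_le_coe h.1.2.1, bd_nonempty hc ha hb⟩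
  · rintro p q ⟨D, h1, h2, h3⟩
    obtain ⟨C, hC⟩ := exists_isOpt ⟨D, ⟨h1, h2⟩, h3⟩
    exact ⟨C, ⟨p, q, hC⟩, hC.1.1⟩

end Run7.h181.LR
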