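import Pool.Agent.Run7.h181.LR.Zorn
import Pool.Agent.Run7.h181.LR.Base

/-!
# Every virtually free group has property (LR)
-/

set_option autoImplicit false

open Set

namespace Run7.h181.LR

theorem finiteIndex_of_transversal {G : Type} [Group G] (K : Subgroup G) (S : Set G)
    (hS : S.Finite) (h : ∀ g : G, ∃ s ∈ S, s⁻¹ * g ∈ K) : K.FiniteIndex := by
  have : Finite S := hS
  have : Finite (G ⧸ K) := by
    refine Finite.of_surjective (fun s : S => ((s : G) : G ⧸ K)) ?_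
    intro x
    obtain ⟨g, rfl⟩ := QuotientGroup.mk_surjective x
    obtain ⟨s, hs, hsg⟩ := h g
    exact ⟨⟨s, hs⟩, QuotientGroup.eq.2 hsg⟩
  exact Subgroup.finiteIndex_of_finite_quotient

theorem transversal_of_finiteIndex {G : Type} [Group G] (K : Subgroup G) [K.FiniteIndex] :
    ∃ S : Set G, S.Finite ∧ ∀ g : G, ∃ s ∈ S, s⁻¹ * g ∈ K := by
  have : Finite (G ⧸ K) := Subgroup.finite_quotient_of_finiteIndex
  refine ⟨range (fun x : G ⧸ K => x.out), Set.finite_range _, fun g => ?_⟩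
  refine ⟨_, ⟨(g : G ⧸ K), rfl⟩, ?_⟩
  rw [← QuotientGroup.eq]
  exact QuotientGroup.out_eq' _

/-- from a representation on a target to a virtual retraction -/
theorem retract_of_target {G A H₀ : Type} [Group G] [Group A] [Group H₀] (D : Subgroup G)
    [D.FiniteIndex] (t : Target H₀ A) (f : G → t.W) (hf : ∀ x ∈ D, ∀ y ∈ D, f (x * y) = f x * f y)
    (ν : H₀ →* G) (hνD : ∀ k, ν k ∈ D)
    (hfν : ∀ k, (f (ν k) : Equiv.Perm t.Z) t.e₀ = t.L k⁻¹ t.e₀) :
    ∃ K : Subgroup G, K.FiniteIndex ∧ (∀ k, ν k ∈ K) ∧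
      ∃ ρ : K →* G, (∀ x : K, ρ x ∈ ν.range) ∧ ∀ k : H₀, ∀ hk : ν k ∈ K, ρ ⟨ν k, hk⟩ = ν k := by
  classical
  have hcomm : ∀ (x : G) h z, (f x : Equiv.Perm t.Z) (t.L h z) = t.L h ((f x : Equiv.Perm t.Z) z) :=
    fun x h z => t.comm _ (f x).2 h z
  have hf1 : f 1 = 1 := by
    have := hf 1 D.one_mem 1 D.one_mem
    rw [mul_one] at this
    exact mul_eq_left.1 this.symm
  have hmul : ∀ x ∈ D, ∀ y ∈ D, ∀ z, (f (x * y) : Equiv.Perm t.Z) z =
      (f x : Equiv.Perm t.Z) ((f y : Equiv.Perm t.Z) z) := by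
    intro x hx y hy z
    rw [hf x hx y hy]; rfl
  have huniq : ∀ k k' : H₀, t.L k t.e₀ = t.L k' t.e₀ → k = k' := by
    intro k k' h
    have : t.L (k'⁻¹ * k) t.e₀ = t.e₀ := by
      rw [map_mul, Equiv.Perm.mul_apply, h, map_inv]; simp
    have := t.free _ _ this
    exact (inv_mul_eq_one.1 this).symm
  let K : Subgroup G :=
    { carrier := {g | g ∈ D ∧ ∃ k : H₀, (f g : Equiv.Perm t.Z) t.e₀ = t.L k⁻¹ t.e₀}
      mul_mem' := by
        rintro x y ⟨hx, k, hk⟩ ⟨hy, k', hk'⟩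
        refine ⟨mul_mem hx hy, k * k', ?_⟩
        rw [hmul x hx y hy, hk', hcomm, hk, mul_inv_rev, map_mul]; rfl
      one_mem' := ⟨D.one_mem, 1, by rw [hf1]; simp⟩
      inv_mem' := by
        rintro x ⟨hx, k, hk⟩
        refine ⟨inv_mem hx, k⁻¹, ?_⟩
        have h1 := hmul x⁻¹ (inv_mem hx) x hx t.e₀
        rw [inv_mul_cancel, hf1, hk, hcomm] at h1
        have h2 : t.L k (t.L k⁻¹ ((f x⁻¹ : Equiv.Perm t.Z) t.e₀)) = t.L k t.e₀ := by
          rw [← h1]; rfl
        rw [map_inv] at h2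
        rw [inv_inv, ← h2]; simp }
  have hKD : ∀ x : K, (x : G) ∈ D := fun x => x.2.1
  choose κ hκ using fun x : K => x.2.2
  have hνK : ∀ k, ν k ∈ K := fun k => ⟨hνD k, k, hfν k⟩
  have hκmul : ∀ x y : K, κ (x * y) = κ x * κ y := by
    intro x y
    have h1 := hκ (x * y)
    have h2 : (f ((x * y : K) : G) : Equiv.Perm t.Z) t.e₀ = t.L (κ x * κ y)⁻¹ t.e₀ := by
      rw [Subgroup.coe_mul, hmul _ (hKD x) _ (hKD y), hκ y, hcomm, hκ x, mul_inv_rev, map_mul]; rfl
    rw [h1] at h2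
    exact inv_injective (huniq _ _ h2)
  refine ⟨K, ?_, hνK, (ν.comp (MonoidHom.mk' κ hκmul)), ?_, ?_⟩
  · -- finite index
    obtain ⟨S, hS, hSD⟩ := transversal_of_finiteIndex D
    obtain ⟨Z₀, hZ₀, hZ⟩ := t.fin
    let γ : t.Z → G := fun z₀ => if h : ∃ g ∈ D, ∃ k, (f g : Equiv.Perm t.Z) t.e₀ = t.L k z₀
      then h.choose else 1
    refine finiteIndex_of_transversal K ((fun p : G × t.Z => p.1 * γ p.2) '' (S ×ˢ Z₀))
      ((hS.prod hZ₀).image _) ?_
    intro g
    obtain ⟨s, hs, hsD⟩ := hSD g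
    set d := s⁻¹ * g with hd
    obtain ⟨k, z₀, hz₀, hk⟩ := hZ ((f d : Equiv.Perm t.Z) t.e₀)
    have hex : ∃ g ∈ D, ∃ k, (f g : Equiv.Perm t.Z) t.e₀ = t.L k z₀ := ⟨d, hsD, k, hk⟩
    have hγ : γ z₀ ∈ D ∧ ∃ k, (f (γ z₀) : Equiv.Perm t.Z) t.e₀ = t.L k z₀ := by
      simp only [γ, dif_pos hex]
      exact hex.choose_spec
    obtain ⟨hγD, k', hk'⟩ := hγ
    refine ⟨s * γ z₀, ⟨(s, z₀), ⟨hs, hz₀⟩, rfl⟩, ?_⟩
    have e1 : (s * γ z₀)⁻¹ * g = (γ z₀)⁻¹ * d := by rw [hd]; group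
    rw [e1]
    refine ⟨mul_mem (inv_mem hγD) hsD, (k * k'⁻¹)⁻¹, ?_⟩
    rw [hmul _ (inv_mem hγD) _ hsD, hk, inv_inv]
    have h1 : t.L k z₀ = t.L (k * k'⁻¹) ((f (γ z₀) : Equiv.Perm t.Z) t.e₀) := by
      rw [hk', map_mul, map_inv]; simp
    rw [h1, hcomm, ← hmul _ (inv_mem hγD) _ hγD, inv_mul_cancel, hf1]; rfl
  · intro x
    exact ⟨_, rfl⟩
  · intro k hk
    show ν (κ ⟨ν k, hk⟩) = ν k
    congr 1
    have h1 := hκ ⟨ν k, hk⟩
    rw [hfν k] at h1
    exact (inv_injective (huniq _ _ h1)).symm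

theorem main (G : Type) [Group G] (hG : ∃ F : Subgroup G, F.FiniteIndex ∧ IsFreeGroup F)
    (H : Subgroup G) (hH : H.FG) :
    ∃ K : Subgroup G, K.FiniteIndex ∧ H ≤ K ∧
      ∃ ρ : K →* G, (∀ k : K, ρ k ∈ H) ∧
        ∀ h : G, ∀ hk : h ∈ K, h ∈ H → ρ ⟨h, hk⟩ = h := by
  classical
  obtain ⟨Fr, hFr, hfree⟩ := hG
  let N := Fr.normalCore
  have hNfi : N.FiniteIndex := inferInstance
  let A := G ⧸ N
  have hAfin : Finite A := Subgroup.finite_quotient_of_finiteIndex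
  let q : G →* A := QuotientGroup.mk' N
  have hqker : q.ker = N := QuotientGroup.ker_mk' N
  have hker : q.ker ≤ Fr := by
    rw [hqker]; exact Fr.normalCore_le
  -- a free basis of the kernel
  have hfk : IsFreeGroup (q.ker.subgroupOf Fr) := subgroupIsFreeOfIsFree _
  have hfk' : IsFreeGroup q.ker := IsFreeGroup.ofMulEquiv (Subgroup.subgroupOfEquivOfLe hker)
  let α := IsFreeGroup.Generators q.ker
  let e : q.ker ≃* FreeGroup α := IsFreeGroup.toFreeGroup q.ker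
  let j : FreeGroup α →* G := q.ker.subtype.comp e.symm.toMonoidHom
  have hj : Function.Injective j := by
    intro a b hab
    exact e.symm.injective (Subtype.ext hab)
  have hjr : j.range = q.ker := by
    ext g
    constructor
    · rintro ⟨w, rfl⟩
      exact (e.symm w).2
    · intro hg
      exact ⟨e ⟨g, hg⟩, by simp [j]⟩
  -- a finite set of letters containing `H ∩ ker q`
  have hHfg : Group.FG H := (Group.fg_iff_subgroup_fg H).2 hH
  have hMfi : (q.ker.subgroupOf H).FiniteIndex := by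
    rw [hqker]; infer_instance
  have hMfg : (q.ker.subgroupOf H).FG := by
    have : Group.FG (q.ker.subgroupOf H) := Subgroup.fg_of_index_ne_zero _
    exact (Group.fg_iff_subgroup_fg _).1 this
  obtain ⟨TM, hTM⟩ := hMfg
  have hsupp : ∀ x : G, x ∈ q.ker → ∃ T : Set α, T.Finite ∧ x ∈ NY j T := by
    intro x hx
    rw [← hjr] at hx
    obtain ⟨w, rfl⟩ := hx
    obtain ⟨T, hT, hw⟩ := exists_support w
    exact ⟨T, hT, w, hw, rfl⟩
  choose! Ts hTs1 hTs2 using hsupp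
  have hTMker : ∀ x ∈ TM, (x : G) ∈ q.ker := by
    intro x hx
    have : x ∈ q.ker.subgroupOf H := hTM ▸ Subgroup.subset_closure hx
    exact this
  let Z₀ : Set α := ⋃ x ∈ TM, Ts (x : G)
  have hZ₀ : Z₀.Finite := TM.finite_toSet.biUnion fun x hx => hTs1 _ (hTMker x hx)
  have hM : HM q j H Z₀ := by
    intro m hm hmk
    have h1 : (⟨m, hm⟩ : H) ∈ Subgroup.closure (TM : Set H) := by
      rw [hTM]; exact hmk
    have h2 : Subgroup.closure (TM : Set H) ≤ (NY j Z₀).comap H.subtype := by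
      rw [Subgroup.closure_le]
      intro x hx
      show (x : G) ∈ NY j Z₀
      refine NY_mono ?_ (hTs2 _ (hTMker x hx))
      exact subset_biUnion_of_mem (u := fun x : H => Ts (x : G)) hx
    exact h2 h1
  -- the finitely generated group
  let Γ := GY j H Z₀
  have hHΓ : H ≤ Γ := H_le_GY Z₀
  obtain ⟨T, hT, hRT⟩ := RY_fg (Yb := ∅) (Z := Z₀) hj hjr inv_empty hZ₀ (by rwa [empty_union])
  have hNYe : NY j (∅ : Set α) = ⊥ := by
    rw [NY_eq_closure, image_empty, Subgroup.closure_empty]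
  rw [empty_union, hNYe, bot_sup_eq] at hRT
  have hΓfg : Γ.FG := by
    have h1 : Γ = H ⊔ RY j H Z₀ := by
      apply le_antisymm
      · rintro _ ⟨h, hh, r, hr, rfl⟩
        exact mul_mem ((le_sup_left : H ≤ _) hh) ((le_sup_right : RY j H Z₀ ≤ _) hr)
      · exact sup_le hHΓ (RY_le_GY Z₀)
    rw [h1]
    refine hH.sup ?_
    exact ⟨hT.toFinset, by rw [hRT]; simp⟩
  let q₂ : Γ →* A := q.comp Γ.subtype
  have hker2 : ∀ x : q₂.ker, ((x : Γ) : G) ∈ j.range := by
    intro x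
    rw [hjr]
    exact x.2
  let ι : q₂.ker →* FreeGroup α := MonoidHom.mk'
    (fun x => (MonoidHom.ofInjective hj).symm ⟨((x : Γ) : G), hker2 x⟩) (by
      intro a b
      rw [← map_mul]
      rfl)
  have hι1 : ∀ x : q₂.ker, j (ι x) = ((x : Γ) : G) := by
    intro x
    exact MonoidHom.apply_ofInjective_symm hj _
  have hι : Function.Injective ι := by
    intro x y hxy
    have := congrArg j hxy
    rw [hι1, hι1] at this
    exact Subtype.ext (Subtype.ext this)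
  let H' : Subgroup Γ := H.subgroupOf Γ
  have hH' : H'.FG := by
    have h1 : Group.FG H' := Group.fg_of_surjective
      (f := (Subgroup.subgroupOfEquivOfLe hHΓ).symm.toMonoidHom)
      (Subgroup.subgroupOfEquivOfLe hHΓ).symm.surjective
    exact (Group.fg_iff_subgroup_fg _).1 h1
  have hΓfg' : (⊤ : Subgroup Γ).FG := by
    have : Group.FG Γ := (Group.fg_iff_subgroup_fg Γ).2 hΓfg
    exact this.out
  obtain ⟨t, f, hf1, hf2⟩ := base q₂ ι hι hΓfg' H' hH'
  -- extend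
  let f₀ : G → t.W := fun x => if h : x ∈ Γ then f ⟨x, h⟩ else 1
  have hf₀ : Good q t.F (GY j H Z₀) f₀ := by
    refine ⟨?_, ?_⟩
    · intro x hx y hy
      simp only [f₀, dif_pos (show x ∈ Γ from hx), dif_pos (show y ∈ Γ from hy),
        dif_pos (show x * y ∈ Γ from mul_mem hx hy)]
      rw [← map_mul]; rfl
    · intro B _ hB
      have hfin : Finite (B.subgroupOf Γ) := by
        have h1 : (B : Set G).Finite := ‹Finite B›
        have h2 : {x : Γ | (x : G) ∈ (B : Set G)}.Finite :=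
          Set.Finite.preimage (Subtype.val_injective.injOn) h1
        exact h2
      obtain ⟨w, hw⟩ := hf2 (B.subgroupOf Γ)
      refine ⟨w, fun b hb => ?_⟩
      have hb' : b ∈ Γ := hB hb
      simp only [f₀, dif_pos hb']
      exact hw ⟨b, hb'⟩ hb
  obtain ⟨f', hf'1, hf'2⟩ := extend_all hj hjr hZ₀ hM t.F f₀ hf₀
  -- the domain has finite index
  have hD : (GY j H (univ : Set α)).FiniteIndex := by
    have h1 : N ≤ GY j H (univ : Set α) := by
      intro x hx
      refine RY_le_GY _ ?_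
      intro h hh
      have h2 : h⁻¹ * x * h ∈ q.ker := by
        rw [← hqker] at hx
        have := q.normal_ker.conj_mem _ hx h⁻¹
        rwa [inv_inv] at this
      rw [← hjr] at h2
      obtain ⟨w, hw⟩ := h2
      refine ⟨w, ?_, hw⟩
      have : FY (univ : Set α) = ⊤ := by
        rw [FY, image_univ, FreeGroup.closure_range_of]
      show w ∈ FY univ
      rw [this]; trivial
    exact Subgroup.finiteIndex_of_le h1
  let ν : H' →* G := Γ.subtype.comp H'.subtype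
  obtain ⟨K, hK, hνK, ρ, hρ1, hρ2⟩ := retract_of_target (GY j H univ) t f' hf'1.1 ν
    (fun k => H_le_GY _ k.2) (by
      intro k
      have h1 : ν k ∈ Γ := (k : Γ).2
      have h2 : f' (ν k) = f (k : Γ) := by
        rw [hf'2 _ h1]
        simp only [f₀, dif_pos h1]
        rfl
      rw [h2]
      exact hf1 k)
  have hνmem : ∀ h ∈ H, ∃ k, ν k = h := fun h hh => ⟨⟨⟨h, hHΓ hh⟩, hh⟩, rfl⟩
  refine ⟨K, hK, ?_, ρ, ?_, ?_⟩
  · intro h hh
    obtain ⟨k, rfl⟩ := hνmem h hh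
    exact hνK k
  · intro k
    obtain ⟨x, hx⟩ := hρ1 k
    rw [← hx]
    exact x.2
  · intro h hk hh
    obtain ⟨k, rfl⟩ := hνmem h hh
    exact hρ2 k hk

end Run7.h181.LR
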