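import Pool.Agent.Run7.h181.LR.Tree

/-!
# Finite groups fix a vertex or preserve an edge
-/

set_option autoImplicit false

open Set Relation
open scoped Pointwise

namespace Run7.h181.LR
namespace TreeSet

variable {G V : Type*} [Group G] [MulAction G V] {T : TreeSet G V} {v₀ : V}

noncomputable def cnt (B : Subgroup G) (v₀ : V) (C : Set V) : ℕ :=
  {b : B | (b : G) • v₀ ∈ C}.ncard

variable {B : Subgroup G} [Finite B]

theorem cnt_compl (C : Set V) : cnt B v₀ C + cnt B v₀ Cᶜ = Nat.card B := by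
  have := ncard_add_ncard_compl {b : B | (b : G) • v₀ ∈ C}
  rw [← this]
  rfl

omit [Finite B] in
theorem cnt_smul {g : G} (hg : g ∈ B) (C : Set V) : cnt B v₀ (g • C) = cnt B v₀ C := by
  have : {b : B | (b : G) • v₀ ∈ C} = (fun b : B => (⟨g, hg⟩⁻¹ : B) * b) ''
      {b : B | (b : G) • v₀ ∈ g • C} := by
    ext b
    simp only [mem_ofPred_eq, mem_image]
    constructor
    · intro h
      refine ⟨⟨g, hg⟩ * b, ?_, by group⟩
      simp only [Subgroup.coe_mul, mul_smul, smul_mem_smul_set_iff]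
      exact h
    · rintro ⟨b', h, rfl⟩
      simpa [mem_smul_set_iff_inv_smul_mem, mul_smul] using h
  rw [cnt, cnt, this, ncard_image_of_injective _ (mul_right_injective _)]

theorem cnt_mono {C D : Set V} (h : C ⊆ D) : cnt B v₀ C ≤ cnt B v₀ D := by
  refine ncard_le_ncard ?_ (toFinite _)
  intro b hb
  exact h hb

theorem cnt_pos {C : Set V} (h : 0 < cnt B v₀ C) : ∃ b ∈ B, b • v₀ ∈ C := by
  rw [cnt, ncard_pos] at h
  obtain ⟨b, hb⟩ := h
  exact ⟨b, b.2, hb⟩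

theorem card_pos : 0 < Nat.card B := Nat.card_pos

variable (T v₀ B) in
def ties : Set (Set V) := {C ∈ T.E | 2 * cnt B v₀ C = Nat.card B}

theorem ties_finite : (T.ties v₀ B).Finite := by
  have : (⋃ b : B, ⋃ b' : B, {C ∈ T.E | (b : G) • v₀ ∈ C ∧ (b' : G) • v₀ ∉ C}).Finite :=
    finite_iUnion fun b => finite_iUnion fun b' => T.fin _ _
  refine this.subset ?_
  rintro C ⟨hC, h⟩
  have hp : 0 < Nat.card B := card_pos
  obtain ⟨b, hb, hbC⟩ := cnt_pos (B := B) (v₀ := v₀) (C := C) (by omega)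
  have := cnt_compl (B := B) (v₀ := v₀) C
  obtain ⟨b', hb', hbC'⟩ := cnt_pos (B := B) (v₀ := v₀) (C := Cᶜ) (by omega)
  simp only [mem_iUnion]
  exact ⟨⟨b, hb⟩, ⟨b', hb'⟩, hC, hbC, hbC'⟩

theorem ties_compl {C : Set V} (h : C ∈ T.ties v₀ B) : Cᶜ ∈ T.ties v₀ B := by
  have := cnt_compl (B := B) (v₀ := v₀) C
  have h2 := h.2
  exact ⟨T.compl_mem h.1, by omega⟩

omit [Finite B] in
theorem ties_smul {C : Set V} (h : C ∈ T.ties v₀ B) {g : G} (hg : g ∈ B) :
    g • C ∈ T.ties v₀ B := ⟨T.smul_mem g h.1, by rw [cnt_smul hg]; exact h.2⟩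

theorem css {α : Type*} {C D : Set α} : Cᶜ ⊂ Dᶜ ↔ D ⊂ C := by
  simp only [ssubset_def, compl_subset_compl]

variable (T v₀ B) in
noncomputable def lam (D : Set V) : ℤ :=
  ({E ∈ T.ties v₀ B | E ⊂ D}.ncard : ℤ) - ({E ∈ T.ties v₀ B | D ⊂ E}.ncard : ℤ)

theorem lam_compl (D : Set V) : T.lam v₀ B Dᶜ = - T.lam v₀ B D := by
  have key : ∀ D : Set V, {E ∈ T.ties v₀ B | E ⊂ Dᶜ} = compl '' {E ∈ T.ties v₀ B | D ⊂ E} := by
    intro D
    ext E
    simp only [mem_ofPred_eq, mem_image]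
    constructor
    · rintro ⟨h1, h2⟩
      refine ⟨Eᶜ, ⟨ties_compl h1, ?_⟩, compl_compl _⟩
      rwa [← css, compl_compl]
    · rintro ⟨F, ⟨h1, h2⟩, rfl⟩
      exact ⟨ties_compl h1, css.2 h2⟩
  have h1 := key D
  have h2 := key Dᶜ
  rw [compl_compl] at h2
  rw [lam, lam, h1, h2, ncard_image_of_injective _ compl_injective,
    ncard_image_of_injective _ compl_injective]
  ring

omit [Finite B] in
theorem lam_smul {g : G} (hg : g ∈ B) (D : Set V) : T.lam v₀ B (g • D) = T.lam v₀ B D := by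
  have hs : ∀ A C : Set V, g • A ⊂ g • C ↔ A ⊂ C := by
    intro A C
    simp only [ssubset_def, smul_set_subset_smul_set_iff]
  have k1 : {E ∈ T.ties v₀ B | E ⊂ g • D} = (g • ·) '' {E ∈ T.ties v₀ B | E ⊂ D} := by
    ext E
    simp only [mem_ofPred_eq, mem_image]
    constructor
    · rintro ⟨h1, h2⟩
      refine ⟨g⁻¹ • E, ⟨ties_smul h1 (B.inv_mem hg), ?_⟩, by simp⟩
      rw [← hs, smul_inv_smul]; exact h2
    · rintro ⟨F, ⟨h1, h2⟩, rfl⟩
      exact ⟨ties_smul h1 hg, (hs _ _).2 h2⟩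
  have k2 : {E ∈ T.ties v₀ B | g • D ⊂ E} = (g • ·) '' {E ∈ T.ties v₀ B | D ⊂ E} := by
    ext E
    simp only [mem_ofPred_eq, mem_image]
    constructor
    · rintro ⟨h1, h2⟩
      refine ⟨g⁻¹ • E, ⟨ties_smul h1 (B.inv_mem hg), ?_⟩, by simp⟩
      rw [← hs, smul_inv_smul]; exact h2
    · rintro ⟨F, ⟨h1, h2⟩, rfl⟩
      exact ⟨ties_smul h1 hg, (hs _ _).2 h2⟩
  rw [lam, lam, k1, k2, ncard_image_of_injective _ (MulAction.injective g),
    ncard_image_of_injective _ (MulAction.injective g)]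

theorem lam_lt {C D : Set V} (hC : C ∈ T.ties v₀ B) (h : C ⊂ D) :
    T.lam v₀ B C < T.lam v₀ B D := by
  have hf := ties_finite (T := T) (v₀ := v₀) (B := B)
  have h1 : {E ∈ T.ties v₀ B | E ⊂ C}.ncard < {E ∈ T.ties v₀ B | E ⊂ D}.ncard := by
    refine ncard_lt_ncard ⟨?_, ?_⟩ (hf.subset (sep_subset _ _))
    · rintro E ⟨h1, h2⟩
      exact ⟨h1, h2.trans h⟩
    · intro hcon
      have : C ∈ ({E ∈ T.ties v₀ B | E ⊂ C} : Set (Set V)) := hcon ⟨hC, h⟩
      exact this.2.ne rfl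
  have h2 : {E ∈ T.ties v₀ B | D ⊂ E}.ncard ≤ {E ∈ T.ties v₀ B | C ⊂ E}.ncard := by
    refine ncard_le_ncard ?_ (hf.subset (sep_subset _ _))
    rintro E ⟨h1, h2⟩
    exact ⟨h1, h.trans h2⟩
  simp only [lam]
  omega

theorem lam_zero {C D : Set V} (hC : C ∈ T.ties v₀ B) (hD : D ∈ T.ties v₀ B)
    (h1 : T.lam v₀ B C = 0) (h2 : T.lam v₀ B D = 0) : C = D ∨ C = Dᶜ := by
  have key : ∀ {C D : Set V}, C ∈ T.ties v₀ B → D ∈ T.ties v₀ B → T.lam v₀ B C = 0 →
      T.lam v₀ B D = 0 → C ⊆ D → C = D := by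
    intro C D hC hD h1 h2 h
    by_contra hne
    have := lam_lt hC (h.ssubset_of_ne hne)
    omega
  rcases T.nested hC.1 hD.1 with h | h | h | h
  · exact Or.inl (key hC hD h1 h2 h)
  · exact Or.inr (key hC (ties_compl hD) h1 (by rw [lam_compl, h2, neg_zero]) h)
  · right
    rw [compl_subset_comm] at h
    exact (key (ties_compl hD) hC (by rw [lam_compl, h2, neg_zero]) h1 h).symm
  · left
    rw [compl_subset_compl] at h
    exact (key hD hC h2 h1 h).symm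

/-- a finite group fixes a vertex or preserves an edge of the structure tree -/
theorem fixed_point (T : TreeSet G V) (v₀ : V) (B : Subgroup G) [Finite B] :
    (∃ u, T.IsVert v₀ u ∧ ∀ b ∈ B, b • u = u) ∨
      (∃ C ∈ T.E, ∀ b ∈ B, b • C = C ∨ b • C = Cᶜ) := by
  by_cases hz : ∃ D ∈ T.ties v₀ B, T.lam v₀ B D = 0
  · right
    obtain ⟨D, hD, hD0⟩ := hz
    refine ⟨D, hD.1, fun b hb => ?_⟩
    exact lam_zero (ties_smul hD hb) hD (by rw [lam_smul hb, hD0]) hD0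
  · left
    push Not at hz
    let u : Set (Set V) := {C ∈ T.E | Nat.card B < 2 * cnt B v₀ C ∨
      (2 * cnt B v₀ C = Nat.card B ∧ 0 < T.lam v₀ B C)}
    refine ⟨u, ⟨fun C hC => hC.1, ?_, ?_, ?_⟩, ?_⟩
    · intro C hC
      have h1 := cnt_compl (B := B) (v₀ := v₀) C
      have h2 := lam_compl (T := T) (B := B) (v₀ := v₀) C
      simp only [u, mem_ofPred_eq, hC, T.compl_mem hC, true_and]
      by_cases ht : 2 * cnt B v₀ C = Nat.card B
      · have h3 := hz C ⟨hC, ht⟩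
        rw [h2]
        omega
      · omega
    · rintro C ⟨hC, h⟩ D hD hCD
      have h1 := cnt_mono (B := B) (v₀ := v₀) hCD
      refine ⟨hD, ?_⟩
      rcases h with h | ⟨h, h'⟩
      · left; omega
      · by_cases ht : 2 * cnt B v₀ D = Nat.card B
        · right
          refine ⟨ht, ?_⟩
          by_cases heq : C = D
          · rw [← heq]; exact h'
          · exact h'.trans (lam_lt ⟨hC, h⟩ (hCD.ssubset_of_ne heq))
        · left; omega
    · have : (⋃ b : B, {C ∈ T.E | (b : G) • v₀ ∈ C ∧ v₀ ∉ C}).Finite :=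
        finite_iUnion fun b => T.fin _ _
      refine this.subset ?_
      rintro C ⟨⟨hC, h⟩, hv⟩
      have hp : 0 < Nat.card B := card_pos
      obtain ⟨b, hb, hbC⟩ := cnt_pos (B := B) (v₀ := v₀) (C := C) (by omega)
      simp only [mem_iUnion]
      exact ⟨⟨b, hb⟩, hC, hbC, hv⟩
    · intro b hb
      ext C
      rw [mem_smul_set_iff_inv_smul_mem]
      simp only [u, mem_ofPred_eq, smul_mem_iff, cnt_smul (B.inv_mem hb),
        lam_smul (B.inv_mem hb)]

variable {W : Type*} [Group W]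

/-- the extension theorem, with conjugacy on finite subgroups -/
theorem ext_hom_lc (fZ : G →* W) (c : G → Set (Set V) → W)
    (hc : ∀ g h u, T.IsVert v₀ u → c (g * h) u = c g (h • u) * c h u)
    (θ : Set V → W) (hθ : ∀ g, ∀ C ∈ T.E, fZ g * θ C = θ (g • C) * c g (T.org C))
    (hlc : ∀ (B : Subgroup G) [Finite B] (u : Set (Set V)), T.IsVert v₀ u →
      (∀ b ∈ B, b • u = u) → ∃ t : W, ∀ b ∈ B, fZ b * t = t * c b u) :
    ∃ (f : G →* W) (τ : Set (Set V) → W), τ (T.pt v₀) = 1 ∧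
      (∀ C ∈ T.E, θ C * τ (T.org C) = θ Cᶜ * τ (T.org Cᶜ)) ∧
      (∀ g u, T.IsVert v₀ u → c g (g⁻¹ • u) * τ (g⁻¹ • u) = τ u * f g) ∧
      (∀ (B : Subgroup G) [Finite B], ∃ t : W, ∀ b ∈ B, fZ b * t = t * f b) := by
  obtain ⟨f, τ, h0, h1, h2⟩ := ext_hom fZ c hc θ hθ
  refine ⟨f, τ, h0, h1, h2, ?_⟩
  intro B _
  rcases fixed_point T v₀ B with ⟨u, hu, hfix⟩ | ⟨C, hC, hfix⟩
  · obtain ⟨t, ht⟩ := hlc B u hu hfix
    refine ⟨t * τ u, fun b hb => ?_⟩
    have := h2 b u hu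
    rw [hfix _ (B.inv_mem hb)] at this
    rw [← mul_assoc, ht b hb, mul_assoc, mul_assoc, ← this]
  · refine ⟨θ C * τ (T.org C), fun b hb => ?_⟩
    have e1 := h2 b _ (org_isVert (v₀ := v₀) hC)
    rw [smul_org] at e1
    have e2 := hθ b _ (T.smul_mem b⁻¹ hC)
    rw [smul_inv_smul] at e2
    have e3 : θ (b⁻¹ • C) * τ (T.org (b⁻¹ • C)) = θ C * τ (T.org C) := by
      rcases hfix _ (B.inv_mem hb) with h | h
      · rw [h]
      · rw [h]; exact (h1 C hC).symm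
    calc fZ b * (θ C * τ (T.org C)) = fZ b * θ (b⁻¹ • C) * τ (T.org (b⁻¹ • C)) := by
          rw [mul_assoc, e3]
      _ = θ C * (c b (T.org (b⁻¹ • C)) * τ (T.org (b⁻¹ • C))) := by rw [e2, mul_assoc]
      _ = _ := by rw [e1, mul_assoc]

end TreeSet
end Run7.h181.LR
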