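import Pool.Agent.Run7.h181.LR.Fox

/-!
# Retractions of subgroups of free groups onto their intersection with a free factor
-/

set_option autoImplicit false

open Set

namespace Run7.h181.LR

theorem exists_cocycle {β V W : Type*} [MulAction (FreeGroup β) V] [Group W] (κ : β → V → W) :
    ∃ c : FreeGroup β → V → W, (∀ x v, c (FreeGroup.of x) v = κ x v) ∧
      ∀ u u' v, c (u * u') v = c u (u' • v) * c u' v := by
  let A : β → Equiv.Perm (V × W) := fun x =>
    { toFun := fun p => (FreeGroup.of x • p.1, κ x p.1 * p.2)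
      invFun := fun p => ((FreeGroup.of x)⁻¹ • p.1, (κ x ((FreeGroup.of x)⁻¹ • p.1))⁻¹ * p.2)
      left_inv := fun p => by simp
      right_inv := fun p => by simp }
  let L : FreeGroup β →* Equiv.Perm (V × W) := FreeGroup.lift A
  have hof : ∀ x p, L (FreeGroup.of x) p = (FreeGroup.of x • p.1, κ x p.1 * p.2) := by
    intro x p
    simp only [L, FreeGroup.lift_apply_of]
    rfl
  have hinv : ∀ x p, L (FreeGroup.of x)⁻¹ p =
      ((FreeGroup.of x)⁻¹ • p.1, (κ x ((FreeGroup.of x)⁻¹ • p.1))⁻¹ * p.2) := by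
    intro x p
    simp only [L, map_inv, FreeGroup.lift_apply_of]
    rfl
  have key : ∀ u : FreeGroup β, ∀ v w, L u (v, w) = (u • v, (L u (v, 1)).2 * w) := by
    intro u
    induction u using FreeGroup.induction_on with
    | C1 => intro v w; simp
    | of x =>
      intro v w
      show L (FreeGroup.of x) (v, w) = (FreeGroup.of x • v, (L (FreeGroup.of x) (v, 1)).2 * w)
      rw [hof, hof]; simp
    | inv_of x _ =>
      intro v w
      show L (FreeGroup.of x)⁻¹ (v, w) =
        ((FreeGroup.of x)⁻¹ • v, (L (FreeGroup.of x)⁻¹ (v, 1)).2 * w)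
      rw [hinv, hinv]; simp
    | mul a b ha hb =>
      intro v w
      rw [map_mul, Equiv.Perm.mul_apply, Equiv.Perm.mul_apply, hb v w, ha, hb v 1, ha (b • v)
        ((L b (v, 1)).2 * 1), mul_one, mul_smul, mul_assoc]
  refine ⟨fun u v => (L u (v, 1)).2, ?_, ?_⟩
  · intro x v
    show (L (FreeGroup.of x) (v, 1)).2 = _
    rw [hof]; simp
  · intro u u' v
    show (L (u * u') (v, 1)).2 = (L u (u' • v, 1)).2 * (L u' (v, 1)).2
    rw [map_mul, Equiv.Perm.mul_apply, key u' v 1, key u (u' • v), mul_one]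

theorem exists_retract {β : Type*} (P : Subgroup (FreeGroup β)) (Y : Set β) :
    ∃ ρ : P →* FreeGroup β, (∀ p, ρ p ∈ P ∧ ρ p ∈ FY Y) ∧
      ∀ p : P, (p : FreeGroup β) ∈ FY Y → ρ p = p := by
  classical
  let v₀ : FreeGroup β ⧸ P := ((1 : FreeGroup β) : FreeGroup β ⧸ P)
  have hv₀ : ∀ g : FreeGroup β, g • v₀ = (g : FreeGroup β ⧸ P) := by
    intro g
    show ((g * 1 : FreeGroup β) : FreeGroup β ⧸ P) = _
    rw [mul_one]
  let Q : Subgroup (FreeGroup β) := P ⊓ FY Y
  -- section over the orbit of the base point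
  let σ : FreeGroup β ⧸ P → FreeGroup β := fun v =>
    if v = v₀ then 1 else if h : ∃ u ∈ FY Y, u • v₀ = v then h.choose else 1
  have hσ₀ : σ v₀ = 1 := by simp [σ]
  have hσ1 : ∀ v, σ v ∈ FY Y := by
    intro v
    by_cases h1 : v = v₀
    · simp only [σ, if_pos h1]; exact (FY Y).one_mem
    · by_cases h2 : ∃ u ∈ FY Y, u • v₀ = v
      · simp only [σ, if_neg h1, dif_pos h2]; exact h2.choose_spec.1
      · simp only [σ, if_neg h1, dif_neg h2]; exact (FY Y).one_mem
  have hσ2 : ∀ v, (∃ u ∈ FY Y, u • v₀ = v) → σ v • v₀ = v := by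
    intro v h2
    by_cases h1 : v = v₀
    · simp only [σ, if_pos h1, one_smul]; exact h1.symm
    · simp only [σ, if_neg h1, dif_pos h2]; exact h2.choose_spec.2
  have hmem : ∀ u ∈ FY Y, ∀ v, (∃ u ∈ FY Y, u • v₀ = v) → (σ (u • v))⁻¹ * u * σ v ∈ Q := by
    intro u hu v hv
    refine Subgroup.mem_inf.2 ⟨?_, ?_⟩
    · rw [mul_assoc, ← QuotientGroup.eq, ← hv₀, ← hv₀, mul_smul, hσ2 v hv, hσ2]
      obtain ⟨u', hu', rfl⟩ := hv
      exact ⟨u * u', mul_mem hu hu', mul_smul _ _ _⟩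
    · exact mul_mem (mul_mem (inv_mem (hσ1 _)) hu) (hσ1 _)
  have hYmem : ∀ x ∈ Y, FreeGroup.of x ∈ FY Y := fun x hx => Subgroup.subset_closure ⟨x, hx, rfl⟩
  obtain ⟨c, hc1, hc2⟩ := exists_cocycle (β := β) (V := FreeGroup β ⧸ P) (W := Q)
    (fun x v => if h : x ∈ Y ∧ ∃ u ∈ FY Y, u • v₀ = v then
      ⟨(σ (FreeGroup.of x • v))⁻¹ * FreeGroup.of x * σ v, hmem _ (hYmem x h.1) v h.2⟩ else 1)
  have hc0 : ∀ v, c 1 v = 1 := by
    intro v
    have := hc2 1 1 v
    rw [mul_one, one_smul] at this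
    exact mul_eq_left.1 this.symm
  have key : ∀ u ∈ FY Y, ∀ v, (∃ u ∈ FY Y, u • v₀ = v) →
      (c u v : FreeGroup β) = (σ (u • v))⁻¹ * u * σ v := by
    intro u hu
    have hu' : u ∈ Subgroup.closure (FreeGroup.of '' Y) := hu
    induction hu' using Subgroup.closure_induction with
    | mem x hx =>
      obtain ⟨y, hy, rfl⟩ := hx
      intro v hv
      rw [hc1, dif_pos ⟨hy, hv⟩]
    | one => intro v _; rw [hc0, one_smul]; simp
    | mul a b ha hb iha ihb =>
      intro v hv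
      have hbv : ∃ u ∈ FY Y, u • v₀ = b • v := by
        obtain ⟨u', hu', rfl⟩ := hv
        exact ⟨b * u', mul_mem hb hu', mul_smul _ _ _⟩
      rw [hc2, Subgroup.coe_mul, iha ha _ hbv, ihb hb _ hv, mul_smul]
      group
    | inv a ha iha =>
      intro v hv
      have hav : ∃ u ∈ FY Y, u • v₀ = a⁻¹ • v := by
        obtain ⟨u', hu', rfl⟩ := hv
        exact ⟨a⁻¹ * u', mul_mem (inv_mem ha) hu', mul_smul _ _ _⟩
      have h1 := hc2 a a⁻¹ v
      rw [mul_inv_cancel, hc0] at h1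
      have h2 : (c a⁻¹ v : FreeGroup β) = (c a (a⁻¹ • v) : FreeGroup β)⁻¹ := by
        have := congrArg (fun z : Q => (z : FreeGroup β)) h1
        simp only [Subgroup.coe_mul, Subgroup.coe_one] at this
        exact (inv_eq_of_mul_eq_one_right this.symm).symm
      rw [h2, iha ha _ hav, smul_inv_smul]
      group
  have hfix : ∀ p : P, (p : FreeGroup β) • v₀ = v₀ := by
    intro p
    rw [hv₀, eq_comm, QuotientGroup.eq]
    simp
  let ρ : P →* FreeGroup β := MonoidHom.mk' (fun p => (c (p : FreeGroup β) v₀ : FreeGroup β)) (by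
    intro a b
    rw [Subgroup.coe_mul, hc2, hfix, Subgroup.coe_mul])
  refine ⟨ρ, ?_, ?_⟩
  · intro p
    exact (c (p : FreeGroup β) v₀).2
  · intro p hp
    show (c (p : FreeGroup β) v₀ : FreeGroup β) = p
    rw [key _ hp v₀ ⟨1, (FY Y).one_mem, one_smul _ _⟩, hfix, hσ₀]
    simp

section G

variable {G : Type} [Group G] {α : Type} (j : FreeGroup α →* G)

/-- the image of a free factor -/
def NY (Y : Set α) : Subgroup G := (FY Y).map j

theorem exists_retract_G (hj : Function.Injective j) (P : Subgroup G) (hP : P ≤ j.range)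
    (hn : ∀ g : G, ∀ w, ∃ w', g * j w * g⁻¹ = j w') (h : G) (Y : Set α) :
    ∃ ρ : P →* G, (∀ p, ρ p ∈ P ∧ h⁻¹ * ρ p * h ∈ NY j Y) ∧
      ∀ p : P, h⁻¹ * p * h ∈ NY j Y → ρ p = p := by
  classical
  -- the inverse of j on its range
  have hex : ∀ p : P, ∃ w, j w = h⁻¹ * p * h := by
    intro p
    obtain ⟨w, hw⟩ := hP p.2
    obtain ⟨w', hw'⟩ := hn h⁻¹ w
    refine ⟨w', ?_⟩
    rw [← hw', hw, inv_inv]
  choose ω hω using hex
  let P' : Subgroup (FreeGroup α) :=
    { carrier := {w | h * j w * h⁻¹ ∈ P}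
      mul_mem' := by
        intro a b ha hb
        have : h * j (a * b) * h⁻¹ = (h * j a * h⁻¹) * (h * j b * h⁻¹) := by
          rw [map_mul]; group
        show h * j (a * b) * h⁻¹ ∈ P
        rw [this]; exact mul_mem ha hb
      one_mem' := by
        show h * j 1 * h⁻¹ ∈ P
        simp
      inv_mem' := by
        intro a ha
        have : h * j a⁻¹ * h⁻¹ = (h * j a * h⁻¹)⁻¹ := by
          rw [map_inv]; group
        show h * j a⁻¹ * h⁻¹ ∈ P
        rw [this]; exact inv_mem ha }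
  have hωP : ∀ p, ω p ∈ P' := by
    intro p
    show h * j (ω p) * h⁻¹ ∈ P
    rw [hω]
    have : h * (h⁻¹ * (p : G) * h) * h⁻¹ = p := by group
    rw [this]; exact p.2
  obtain ⟨ρ, h1, h2⟩ := exists_retract P' Y
  let ψ : P →* P' := MonoidHom.mk' (fun p => ⟨ω p, hωP p⟩) (by
    intro a b
    apply Subtype.ext
    apply hj
    show j (ω (a * b)) = j (ω a * ω b)
    rw [map_mul, hω, hω, hω, Subgroup.coe_mul]; group)
  let conj : G →* G := (MulAut.conj h).toMonoidHom
  refine ⟨conj.comp (j.comp (ρ.comp ψ)), ?_, ?_⟩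
  · intro p
    have e : (conj.comp (j.comp (ρ.comp ψ))) p = h * j (ρ (ψ p)) * h⁻¹ := rfl
    rw [e]
    refine ⟨(h1 (ψ p)).1, ?_⟩
    have : h⁻¹ * (h * j (ρ (ψ p)) * h⁻¹) * h = j (ρ (ψ p)) := by group
    rw [this]
    exact ⟨_, (h1 (ψ p)).2, rfl⟩
  · intro p hp
    have e : (conj.comp (j.comp (ρ.comp ψ))) p = h * j (ρ (ψ p)) * h⁻¹ := rfl
    rw [e]
    have h3 : ((ψ p : P') : FreeGroup α) ∈ FY Y := by
      obtain ⟨w, hw, hw'⟩ := hp
      have : ω p = w := hj (by rw [hω, hw'])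
      show ω p ∈ FY Y
      rw [this]; exact hw
    rw [h2 _ h3]
    show h * j (ω p) * h⁻¹ = p
    rw [hω]; group

/-- relative finite generation passes to the intersection with a conjugate of a free factor -/
theorem fg_inter (hj : Function.Injective j) (P P₀ : Subgroup G) (hP : P ≤ j.range)
    (hn : ∀ g : G, ∀ w, ∃ w', g * j w * g⁻¹ = j w') (h : G) (Y : Set α)
    (h₀ : ∀ x ∈ P₀, h⁻¹ * x * h ∈ NY j Y) (T : Set G) (hT : T.Finite)
    (hPT : P = P₀ ⊔ Subgroup.closure T) (Q : Subgroup G)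
    (hQ : ∀ g, g ∈ Q ↔ g ∈ P ∧ h⁻¹ * g * h ∈ NY j Y) :
    ∃ T' : Set G, T'.Finite ∧ Q = P₀ ⊔ Subgroup.closure T' := by
  obtain ⟨ρ, h1, h2⟩ := exists_retract_G j hj P hP hn h Y
  have hP₀ : P₀ ≤ P := hPT ▸ le_sup_left
  have hTP : ∀ t ∈ T, t ∈ P := fun t ht =>
    (hPT ▸ (le_sup_right : Subgroup.closure T ≤ P₀ ⊔ Subgroup.closure T))
      (Subgroup.subset_closure ht)
  refine ⟨(fun p : P => ρ p) '' {p : P | (p : G) ∈ T}, ?_, ?_⟩
  · exact (Set.Finite.preimage (Subtype.val_injective.injOn) hT).image _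
  · apply le_antisymm
    · intro g hg
      have hg' := (hQ g).1 hg
      have key : ∀ (x : G) (hx : x ∈ P), ρ ⟨x, hx⟩ ∈
          P₀ ⊔ Subgroup.closure ((fun p : P => ρ p) '' {p : P | (p : G) ∈ T}) := by
        intro x hx
        have hx' : x ∈ Subgroup.closure ((P₀ : Set G) ∪ T) := by
          rw [Subgroup.closure_union, Subgroup.closure_eq]
          rwa [hPT] at hx
        have hcl : Subgroup.closure ((P₀ : Set G) ∪ T) ≤ P := by
          rw [Subgroup.closure_union, Subgroup.closure_eq, ← hPT]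
        induction hx' using Subgroup.closure_induction with
        | mem y hy =>
          rcases hy with hy | hy
          · have := h2 ⟨y, hx⟩ (h₀ y hy)
            rw [this]
            exact (le_sup_left : P₀ ≤ _) hy
          · exact (le_sup_right : Subgroup.closure _ ≤ _)
              (Subgroup.subset_closure ⟨⟨y, hx⟩, hy, rfl⟩)
        | one =>
          have : (⟨1, hx⟩ : P) = 1 := rfl
          rw [this, map_one]; exact one_mem _
        | mul a b ha hb iha ihb =>
          have e : (⟨a * b, hx⟩ : P) = ⟨a, hcl ha⟩ * ⟨b, hcl hb⟩ := rfl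
          rw [e, map_mul]
          exact mul_mem (iha _) (ihb _)
        | inv a ha iha =>
          have e : (⟨a⁻¹, hx⟩ : P) = ⟨a, hcl ha⟩⁻¹ := rfl
          rw [e, map_inv]
          exact inv_mem (iha _)
      have := key g hg'.1
      rwa [h2 ⟨g, hg'.1⟩ hg'.2] at this
    · refine sup_le ?_ ?_
      · intro x hx
        exact (hQ x).2 ⟨hP₀ hx, h₀ x hx⟩
      · rw [Subgroup.closure_le]
        rintro _ ⟨p, -, rfl⟩
        exact (hQ _).2 (h1 p)

end G

end Run7.h181.LR
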