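import Pool.Agent.Run7.h181.LR.Rel
import Pool.Agent.Run7.h181.LR.Retract

/-!
# The subgroups `H * R(Y)` and the concrete relative step
-/

set_option autoImplicit false

open Set

namespace Run7.h181.LR

variable {G A : Type} [Group G] [Group A] [Finite A] (q : G →* A) {α : Type}
  (j : FreeGroup α →* G) (H : Subgroup G)

/-- the largest `H`-invariant subgroup of `NY j Y` -/
def RY (Y : Set α) : Subgroup G where
  carrier := {g | ∀ h ∈ H, h⁻¹ * g * h ∈ NY j Y}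
  mul_mem' := by
    intro a b ha hb h hh
    have : h⁻¹ * (a * b) * h = (h⁻¹ * a * h) * (h⁻¹ * b * h) := by group
    rw [this]; exact mul_mem (ha h hh) (hb h hh)
  one_mem' := by
    intro h _
    simp
  inv_mem' := by
    intro a ha h hh
    have : h⁻¹ * a⁻¹ * h = (h⁻¹ * a * h)⁻¹ := by group
    rw [this]; exact inv_mem (ha h hh)

variable {j H}

theorem RY_conj {Y : Set α} {g k : G} (hg : g ∈ RY j H Y) (hk : k ∈ H) :
    k * g * k⁻¹ ∈ RY j H Y := by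
  intro h hh
  have := hg (k⁻¹ * h) (mul_mem (inv_mem hk) hh)
  have e : h⁻¹ * (k * g * k⁻¹) * h = (k⁻¹ * h)⁻¹ * g * (k⁻¹ * h) := by group
  rw [e]; exact this

theorem RY_conj' {Y : Set α} {g k : G} (hg : g ∈ RY j H Y) (hk : k ∈ H) :
    k⁻¹ * g * k ∈ RY j H Y := by
  have := RY_conj hg (inv_mem hk)
  rwa [inv_inv] at this

theorem RY_le_NY (Y : Set α) : RY j H Y ≤ NY j Y := by
  intro g hg
  have := hg 1 H.one_mem
  simpa using this

theorem NY_mono {Y Y' : Set α} (h : Y ⊆ Y') : NY j Y ≤ NY j Y' :=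
  Subgroup.map_mono (Subgroup.closure_mono (image_mono h))

theorem RY_mono {Y Y' : Set α} (h : Y ⊆ Y') : RY j H Y ≤ RY j H Y' :=
  fun _ hg k hk => NY_mono h (hg k hk)

variable (j H) in
/-- `H * R(Y)` -/
def GY (Y : Set α) : Subgroup G where
  carrier := {g | ∃ h ∈ H, ∃ r ∈ RY j H Y, g = h * r}
  mul_mem' := by
    rintro _ _ ⟨h, hh, r, hr, rfl⟩ ⟨h', hh', r', hr', rfl⟩
    refine ⟨h * h', mul_mem hh hh', (h'⁻¹ * r * h') * r', mul_mem (RY_conj' hr hh') hr', ?_⟩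
    group
  one_mem' := ⟨1, H.one_mem, 1, one_mem _, by simp⟩
  inv_mem' := by
    rintro _ ⟨h, hh, r, hr, rfl⟩
    refine ⟨h⁻¹, inv_mem hh, h * r⁻¹ * h⁻¹, RY_conj (inv_mem hr) hh, ?_⟩
    group

theorem H_le_GY (Y : Set α) : H ≤ GY j H Y := fun h hh => ⟨h, hh, 1, one_mem _, by simp⟩

theorem RY_le_GY (Y : Set α) : RY j H Y ≤ GY j H Y := fun r hr => ⟨1, one_mem _, r, hr, by simp⟩

theorem GY_mono {Y Y' : Set α} (h : Y ⊆ Y') : GY j H Y ≤ GY j H Y' := by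
  rintro _ ⟨h, hh, r, hr, rfl⟩
  exact ⟨h, hh, r, RY_mono ‹_› hr, rfl⟩

/-- `H ∩ ker q` is contained in `NY j Y` -/
def HM (q : G →* A) (j : FreeGroup α →* G) (H : Subgroup G) (Y : Set α) : Prop :=
  ∀ m ∈ H, m ∈ q.ker → m ∈ NY j Y

/-- `NY j Y` is invariant under `H` -/
def Inv (j : FreeGroup α →* G) (H : Subgroup G) (Y : Set α) : Prop :=
  ∀ h ∈ H, ∀ g ∈ NY j Y, h * g * h⁻¹ ∈ NY j Y

variable {q}

omit [Finite A] in
theorem HM.mono {Y Y' : Set α} (hM : HM q j H Y) (h : Y ⊆ Y') : HM q j H Y' :=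
  fun m hm hm' => NY_mono h (hM m hm hm')

omit [Finite A] in
theorem HM.mem_RY {Y : Set α} (hM : HM q j H Y) {m : G} (hm : m ∈ H) (hm' : m ∈ q.ker) :
    m ∈ RY j H Y := by
  intro h hh
  refine hM _ (mul_mem (mul_mem (inv_mem hh) hm) hh) ?_
  rw [MonoidHom.mem_ker] at hm' ⊢
  simp [hm']

theorem Inv.le_RY {Y : Set α} (hI : Inv j H Y) : NY j Y ≤ RY j H Y := by
  intro g hg h hh
  have := hI h⁻¹ (inv_mem hh) g hg
  rwa [inv_inv] at this

theorem NY_le_range (Y : Set α) : NY j Y ≤ j.range := by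
  rintro _ ⟨w, -, rfl⟩
  exact ⟨w, rfl⟩

omit [Finite A] in
theorem mem_RY_of_GY {Y : Set α} (hjr : j.range = q.ker) (hM : HM q j H Y) {g : G}
    (hg : g ∈ GY j H Y) (hg' : g ∈ q.ker) : g ∈ RY j H Y := by
  obtain ⟨h, hh, r, hr, rfl⟩ := hg
  have hr' : r ∈ q.ker := hjr ▸ NY_le_range Y (RY_le_NY Y hr)
  have hh' : h ∈ q.ker := by
    have := mul_mem hg' (inv_mem hr')
    rwa [mul_inv_cancel_right] at this
  exact mul_mem (hM.mem_RY hh hh') hr

theorem mem_NY_union {Y Z : Set α} : NY j (Y ∪ Z) = NY j Y ⊔ NY j Z := by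
  rw [NY, NY, NY, ← Subgroup.map_sup, FY, FY, FY, image_union, Subgroup.closure_union]

theorem NY_eq_closure (Z : Set α) :
    NY j Z = Subgroup.closure ((fun z => j (FreeGroup.of z)) '' Z) := by
  rw [NY, FY, MonoidHom.map_closure, image_image]

omit [Finite A] in
theorem normal_aux (hjr : j.range = q.ker) : ∀ g : G, ∀ w, ∃ w', g * j w * g⁻¹ = j w' := by
  intro g w
  have h1 : j w ∈ q.ker := hjr ▸ ⟨w, rfl⟩
  have h2 : g * j w * g⁻¹ ∈ q.ker := q.normal_ker.conj_mem _ h1 g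
  rw [← hjr] at h2
  obtain ⟨w', hw'⟩ := h2
  exact ⟨w', hw'.symm⟩

theorem RY_fg (hj : Function.Injective j) (hjr : j.range = q.ker) {Yb Z : Set α}
    (hI : Inv j H Yb) (hZ : Z.Finite) (hM : HM q j H (Yb ∪ Z)) :
    ∃ T : Set G, T.Finite ∧ RY j H (Yb ∪ Z) = NY j Yb ⊔ Subgroup.closure T := by
  classical
  -- finitely many conjugators
  let η : A → G := fun a => if h : ∃ g ∈ H, q g = a then h.choose else 1
  have hη1 : ∀ a, η a ∈ H := by
    intro a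
    by_cases h : ∃ g ∈ H, q g = a
    · simp only [η, dif_pos h]; exact h.choose_spec.1
    · simp only [η, dif_neg h]; exact H.one_mem
  have hη2 : ∀ g ∈ H, q (η (q g)) = q g := by
    intro g hg
    have h : ∃ g' ∈ H, q g' = q g := ⟨g, hg, rfl⟩
    simp only [η, dif_pos h]; exact h.choose_spec.2
  let P : Finset A → Subgroup G := fun I =>
    { carrier := {g | g ∈ NY j (Yb ∪ Z) ∧ ∀ a ∈ I, (η a)⁻¹ * g * η a ∈ NY j (Yb ∪ Z)}
      mul_mem' := by
        rintro x y ⟨hx, hx'⟩ ⟨hy, hy'⟩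
        refine ⟨mul_mem hx hy, fun a ha => ?_⟩
        have : (η a)⁻¹ * (x * y) * η a = ((η a)⁻¹ * x * η a) * ((η a)⁻¹ * y * η a) := by group
        rw [this]; exact mul_mem (hx' a ha) (hy' a ha)
      one_mem' := ⟨one_mem _, fun a _ => by simp⟩
      inv_mem' := by
        rintro x ⟨hx, hx'⟩
        refine ⟨inv_mem hx, fun a ha => ?_⟩
        have : (η a)⁻¹ * x⁻¹ * η a = ((η a)⁻¹ * x * η a)⁻¹ := by group
        rw [this]; exact inv_mem (hx' a ha) }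
  have key : ∀ I : Finset A, ∃ T : Set G, T.Finite ∧ P I = NY j Yb ⊔ Subgroup.closure T := by
    intro I
    induction I using Finset.induction_on with
    | empty =>
      refine ⟨(fun z => j (FreeGroup.of z)) '' Z, hZ.image _, ?_⟩
      rw [← NY_eq_closure, ← mem_NY_union]
      ext g
      constructor
      · intro h; exact h.1
      · intro h; exact ⟨h, fun a ha => absurd ha (Finset.notMem_empty a)⟩
    | insert a I ha ih =>
      obtain ⟨T, hT, hPT⟩ := ih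
      have hP : P I ≤ j.range := fun g hg => NY_le_range _ hg.1
      refine fg_inter j hj (P I) (NY j Yb) hP (normal_aux hjr) (η a) (Yb ∪ Z) ?_ T hT hPT
        (P (insert a I)) ?_
      · intro x hx
        have := hI (η a)⁻¹ (inv_mem (hη1 a)) x hx
        rw [inv_inv] at this
        exact NY_mono subset_union_left this
      · intro g
        constructor
        · rintro ⟨h1, h2⟩
          exact ⟨⟨h1, fun b hb => h2 b (Finset.mem_insert_of_mem hb)⟩,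
            h2 a (Finset.mem_insert_self a I)⟩
        · rintro ⟨⟨h1, h2⟩, h3⟩
          refine ⟨h1, fun b hb => ?_⟩
          rcases Finset.mem_insert.1 hb with rfl | hb
          · exact h3
          · exact h2 b hb
  have hA := Fintype.ofFinite A
  obtain ⟨T, hT, hPT⟩ := key Finset.univ
  refine ⟨T, hT, ?_⟩
  rw [← hPT]
  ext g
  constructor
  · intro hg
    exact ⟨RY_le_NY _ hg, fun a _ => hg _ (hη1 a)⟩
  · rintro ⟨-, h2⟩ h hh
    have h3 := h2 (q h) (Finset.mem_univ _)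
    set m := (η (q h))⁻¹ * h with hm
    have hmH : m ∈ H := mul_mem (inv_mem (hη1 _)) hh
    have hmk : m ∈ q.ker := by
      rw [MonoidHom.mem_ker, hm, map_mul, map_inv, hη2 h hh, inv_mul_cancel]
    have hmN := hM m hmH hmk
    have e : h⁻¹ * g * h = m⁻¹ * ((η (q h))⁻¹ * g * η (q h)) * m := by
      rw [hm]; group
    rw [e]
    exact mul_mem (mul_mem (inv_mem hmN) h3) hmN

variable {W : Type} [Group W]

/-- a homomorphism on the subgroup `D`, locally conjugate to `F ∘ q` -/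
def Good (q : G →* A) (F : A →* W) (D : Subgroup G) (f : G → W) : Prop :=
  (∀ x ∈ D, ∀ y ∈ D, f (x * y) = f x * f y) ∧
    (∀ (B : Subgroup G) [Finite B], B ≤ D → ∃ t : W, ∀ b ∈ B, F (q b) * t = t * f b)

/-- **Relative step**, concrete form. -/
theorem rel_step (hj : Function.Injective j) (hjr : j.range = q.ker) {Yb Z Z' : Set α}
    (hI : Inv j H Yb) (hZ' : Z'.Finite) (hZZ' : Z ⊆ Z')
    (hM : HM q j H (Yb ∪ Z)) (F : A →* W) (f : G → W) (hf : Good q F (GY j H (Yb ∪ Z)) f) :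
    ∃ f' : G → W, (∀ x ∈ GY j H (Yb ∪ Z), f' x = f x) ∧ Good q F (GY j H (Yb ∪ Z')) f' := by
  classical
  set Y := Yb ∪ Z with hY
  set Y' := Yb ∪ Z' with hY'
  have hYY' : Y ⊆ Y' := union_subset_union_right _ hZZ'
  let Γ := GY j H Y'
  let Γ₁ : Subgroup Γ := (GY j H Y).subgroupOf Γ
  let q₂ : Γ →* A := q.comp Γ.subtype
  have hker : ∀ x : q₂.ker, ((x : Γ) : G) ∈ j.range := by
    intro x
    rw [hjr]
    exact x.2
  let ι : q₂.ker →* FreeGroup α := MonoidHom.mk'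
    (fun x => (MonoidHom.ofInjective hj).symm ⟨((x : Γ) : G), hker x⟩) (by
      intro a b
      rw [← map_mul]
      rfl)
  have hι1 : ∀ x : q₂.ker, j (ι x) = ((x : Γ) : G) := by
    intro x
    exact MonoidHom.apply_ofInjective_symm hj _
  have hι : Function.Injective ι := by
    intro x y hxy
    have := congrArg j hxy
    rw [hι1, hι1] at this
    exact Subtype.ext (Subtype.ext this)
  have hιNY : ∀ (x : q₂.ker) (Y : Set α), ((x : Γ) : G) ∈ NY j Y ↔ ι x ∈ FY Y := by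
    intro x Y
    constructor
    · rintro ⟨w, hw, hw'⟩
      rw [← hι1] at hw'
      rwa [← hj hw']
    · intro h
      exact ⟨_, h, hι1 x⟩
  have hkerR : ∀ x : q₂.ker, (x : Γ) ∈ Γ₁ → ((x : Γ) : G) ∈ RY j H Y := by
    intro x hx
    exact mem_RY_of_GY hjr hM hx x.2
  -- representatives in the kernel
  have hrep : ∀ v : Γ ⧸ Γ₁, ∃ n : q₂.ker, (((n : Γ) : Γ) : Γ ⧸ Γ₁) = v := by
    intro v
    obtain ⟨x, rfl⟩ := QuotientGroup.mk_surjective v
    obtain ⟨h, hh, r, hr, hx⟩ := x.2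
    have h1 : h * r * h⁻¹ ∈ RY j H Y' := RY_conj hr hh
    have h2 : h * r * h⁻¹ ∈ q.ker := by
      rw [← hjr]; exact NY_le_range _ (RY_le_NY _ h1)
    refine ⟨⟨⟨h * r * h⁻¹, RY_le_GY _ h1⟩, h2⟩, ?_⟩
    rw [QuotientGroup.eq]
    show (h * r * h⁻¹)⁻¹ * (x : G) ∈ GY j H Y
    rw [hx]
    have : (h * r * h⁻¹)⁻¹ * (h * r) = h := by group
    rw [this]
    exact H_le_GY _ hh
  choose n hn using hrep
  let Φ : Γ ⧸ Γ₁ → Mo α := fun v => fox Y (ι (n v))
  have hΦ1 : ∀ (m : q₂.ker) (v : Γ ⧸ Γ₁), (((m : Γ) : Γ) : Γ ⧸ Γ₁) = v → Φ v = fox Y (ι m) := by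
    intro m v hmv
    have h1 : ((((n v)⁻¹ * m : q₂.ker) : Γ)) ∈ Γ₁ := by
      have := QuotientGroup.eq.1 ((hn v).trans hmv.symm)
      exact this
    have h2 := RY_le_NY _ (hkerR _ h1)
    rw [hιNY, ← fox_eq_zero_iff, map_mul, map_inv] at h2
    have e : ι m = ι (n v) * ((ι (n v))⁻¹ * ι m) := by group
    show fox Y (ι (n v)) = fox Y (ι m)
    rw [e, fox_mul, h2, map_zero, add_zero]
  have hΦ2 : ∀ (m : q₂.ker) (v : Γ ⧸ Γ₁), Φ ((m : Γ) • v) = fox Y (ι m) + tr (ι m) (Φ v) := by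
    intro m v
    have h1 : ((((m * n v : q₂.ker) : Γ) : Γ) : Γ ⧸ Γ₁) = (m : Γ) • v := by
      conv_rhs => rw [← hn v]
      rfl
    rw [hΦ1 _ _ h1, map_mul, fox_mul]
  have hΦ : ∀ (m : q₂.ker) v w, Φ ((m : Γ) • v) - Φ ((m : Γ) • w) = tr (ι m) (Φ v - Φ w) := by
    intro m v w
    rw [hΦ2, hΦ2, map_sub]; abel
  have hsep : ∀ v w, v ≠ w → ∃ g : Γ, Φ (g • v) ≠ Φ (g • w) := by
    intro v w hvw
    let r : q₂.ker := (n v)⁻¹ * n w
    have hr : (r : Γ) ∉ Γ₁ := by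
      intro h
      apply hvw
      rw [← hn v, ← hn w]
      exact QuotientGroup.eq.2 h
    have hr' : ((r : Γ) : G) ∉ RY j H Y := fun h => hr (RY_le_GY _ h)
    have hex : ∃ k ∈ H, k⁻¹ * ((r : Γ) : G) * k ∉ NY j Y := by
      by_contra hcon
      push Not at hcon
      exact hr' hcon
    obtain ⟨k, hk, hk'⟩ := hex
    let k' : Γ := ⟨k, H_le_GY _ hk⟩
    have hk1 : k' ∈ Γ₁ := H_le_GY (j := j) Y hk
    refine ⟨k'⁻¹ * ((n v : Γ))⁻¹, ?_⟩
    have e1 : (k'⁻¹ * ((n v : Γ))⁻¹) • v = (((1 : q₂.ker) : Γ) : Γ ⧸ Γ₁) := by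
      have e0 : (k'⁻¹ * ((n v : Γ))⁻¹) • v =
          (k'⁻¹ * ((n v : Γ))⁻¹) • (((n v : Γ) : Γ) : Γ ⧸ Γ₁) := by rw [hn v]
      rw [e0]
      show ((k'⁻¹ * ((n v : Γ))⁻¹ * (n v : Γ) : Γ) : Γ ⧸ Γ₁) = _
      rw [inv_mul_cancel_right, QuotientGroup.eq, inv_inv]
      simpa using hk1
    have hrk : k'⁻¹ * (r : Γ) * k' ∈ q₂.ker := by
      have := q₂.normal_ker.conj_mem _ r.2 k'⁻¹
      rwa [inv_inv] at this
    have e2 : (k'⁻¹ * ((n v : Γ))⁻¹) • w = (((⟨_, hrk⟩ : q₂.ker) : Γ) : Γ ⧸ Γ₁) := by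
      have e0 : (k'⁻¹ * ((n v : Γ))⁻¹) • w =
          (k'⁻¹ * ((n v : Γ))⁻¹) • (((n w : Γ) : Γ) : Γ ⧸ Γ₁) := by rw [hn w]
      rw [e0]
      show ((k'⁻¹ * ((n v : Γ))⁻¹ * (n w : Γ) : Γ) : Γ ⧸ Γ₁) =
        ((k'⁻¹ * (r : Γ) * k' : Γ) : Γ ⧸ Γ₁)
      rw [QuotientGroup.eq]
      have : (k'⁻¹ * ((n v : Γ))⁻¹ * (n w : Γ))⁻¹ * (k'⁻¹ * (r : Γ) * k') = k' := by
        show (k'⁻¹ * ((n v : Γ))⁻¹ * (n w : Γ))⁻¹ * (k'⁻¹ * (((n v : Γ))⁻¹ * (n w : Γ)) * k') = k'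
        group
      rw [this]; exact hk1
    rw [e1, e2, hΦ1 1 _ rfl, hΦ1 _ _ rfl, map_one, fox_one]
    intro h
    have h1 := (fox_eq_zero_iff _ _).1 h.symm
    rw [← hιNY] at h1
    exact hk' h1
  -- malnormality
  have hmal : ∀ g : Γ, g ∉ Γ₁ → {x | x ∈ Γ₁ ∧ g⁻¹ * x * g ∈ Γ₁}.Finite := by
    intro g hg
    refine Set.Finite.of_finite_image (f := q₂) (Set.toFinite _) ?_
    intro x hx y hy hxy
    have hz : x * y⁻¹ ∈ q₂.ker := by
      rw [MonoidHom.mem_ker, map_mul, map_inv, hxy, mul_inv_cancel]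
    have hz1 : x * y⁻¹ ∈ Γ₁ := mul_mem hx.1 (inv_mem hy.1)
    have hz2 : g⁻¹ * (x * y⁻¹) * g ∈ Γ₁ := by
      have e : g⁻¹ * (x * y⁻¹) * g = (g⁻¹ * x * g) * (g⁻¹ * y * g)⁻¹ := by group
      rw [e]; exact mul_mem hx.2 (inv_mem hy.2)
    rw [← mul_inv_eq_one]
    generalize x * y⁻¹ = z at hz hz1 hz2
    obtain ⟨h, hh, r, hr, hgr⟩ := g.2
    have hrR : r ∉ RY j H Y := by
      intro hr'
      apply hg
      show (g : G) ∈ GY j H Y
      rw [hgr]
      exact mul_mem (H_le_GY _ hh) (RY_le_GY _ hr')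
    have hex : ∃ k ∈ H, k⁻¹ * r * k ∉ NY j Y := by
      by_contra hcon
      push Not at hcon
      exact hrR hcon
    obtain ⟨k, hk, hk'⟩ := hex
    have hzR : (z : G) ∈ RY j H Y := hkerR ⟨z, hz⟩ hz1
    have hz2k : g⁻¹ * z * g ∈ q₂.ker := by
      have := q₂.normal_ker.conj_mem _ hz g⁻¹
      rwa [inv_inv] at this
    have hz2R : ((g⁻¹ * z * g : Γ) : G) ∈ RY j H Y := hkerR ⟨_, hz2k⟩ hz2
    have hz3 : h⁻¹ * (z : G) * h ∈ RY j H Y := RY_conj' hzR hh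
    have h4 : k⁻¹ * (h⁻¹ * (z : G) * h) * k ∈ NY j Y := hz3 k hk
    have h5 : k⁻¹ * ((g⁻¹ * z * g : Γ) : G) * k ∈ NY j Y := hz2R k hk
    have hrker : r ∈ q.ker := by
      rw [← hjr]; exact NY_le_range _ (RY_le_NY _ hr)
    have hrk : k⁻¹ * r * k ∈ j.range := by
      rw [hjr]
      have := q.normal_ker.conj_mem _ hrker k⁻¹
      rwa [inv_inv] at this
    obtain ⟨w, hw⟩ := hrk
    obtain ⟨u, hu, hu'⟩ := h4
    obtain ⟨u₂, hu₂, hu₂'⟩ := h5
    have hw1 : w ∉ FY Y := fun hh => hk' ⟨w, hh, hw⟩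
    have hu3 : w⁻¹ * u * w = u₂ := by
      apply hj
      rw [map_mul, map_mul, map_inv, hw, hu', hu₂']
      show _ = k⁻¹ * ((g : G)⁻¹ * (z : G) * (g : G)) * k
      rw [hgr]; group
    have hu4 : u = 1 := malnormal Y hu hw1 (by rw [hu3]; exact hu₂)
    rw [hu4, map_one] at hu'
    apply Subtype.ext
    show (z : G) = 1
    have e : (z : G) = h * (k * (k⁻¹ * (h⁻¹ * (z : G) * h) * k) * k⁻¹) * h⁻¹ := by group
    rw [e, ← hu']; group
  -- generation
  obtain ⟨T, hT, hRT⟩ := RY_fg hj hjr hI hZ' (hM.mono hYY')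
  have hTfin : {x : Γ | (x : G) ∈ T}.Finite :=
    Set.Finite.preimage (Subtype.val_injective.injOn) hT
  let S : Finset Γ := hTfin.toFinset
  have hS : Subgroup.closure ((Γ₁ : Set Γ) ∪ S) = ⊤ := by
    rw [eq_top_iff]
    rintro x -
    let K : Subgroup G := (Subgroup.closure ((Γ₁ : Set Γ) ∪ S)).map Γ.subtype
    have hK1 : ∀ y : Γ, y ∈ Γ₁ → (y : G) ∈ K := fun y hy =>
      ⟨y, Subgroup.subset_closure (Or.inl hy), rfl⟩
    have hK2 : RY j H Y' ≤ K := by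
      rw [hRT]
      refine sup_le ?_ ?_
      · intro g hg
        have h1 : g ∈ RY j H Y := RY_mono subset_union_left (hI.le_RY hg)
        exact hK1 ⟨g, GY_mono hYY' (RY_le_GY _ h1)⟩ (RY_le_GY _ h1)
      · rw [Subgroup.closure_le]
        intro t ht
        have h1 : t ∈ RY j H Y' := by
          rw [hRT]
          exact (le_sup_right : Subgroup.closure T ≤ _) (Subgroup.subset_closure ht)
        refine ⟨⟨t, RY_le_GY _ h1⟩, Subgroup.subset_closure (Or.inr ?_), rfl⟩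
        simpa [S] using ht
    obtain ⟨h, hh, r, hr, hx⟩ := x.2
    have h1 : (x : G) ∈ K := by
      rw [hx]
      exact mul_mem (hK1 ⟨h, H_le_GY _ hh⟩ (H_le_GY (j := j) Y hh)) (hK2 hr)
    obtain ⟨y, hy, hyx⟩ := h1
    have : y = x := Subtype.ext hyx
    rw [← this]; exact hy
  obtain ⟨f', hf'1, hf'2⟩ := relative q₂ ι hι Γ₁ S hS hmal Φ hΦ hsep F (fun x => f (x : G))
    (fun x hx y hy => hf.1 _ hx _ hy) (by
      intro B _ hB
      have hfin : Finite (B.map Γ.subtype) := by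
        have : ((B.map Γ.subtype : Subgroup G) : Set G).Finite := by
          have h1 : (B : Set Γ).Finite := ‹Finite B›
          exact h1.image _
        exact this
      obtain ⟨t, ht⟩ := hf.2 (B.map Γ.subtype) (by
        rintro _ ⟨b, hb, rfl⟩
        exact hB hb)
      exact ⟨t, fun b hb => ht _ ⟨b, hb, rfl⟩⟩)
  refine ⟨fun x => if h : x ∈ Γ then f' ⟨x, h⟩ else 1, ?_, ?_, ?_⟩
  · intro x hx
    have hx' : x ∈ Γ := GY_mono hYY' hx
    simp only [dif_pos hx']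
    exact hf'1 ⟨x, hx'⟩ hx
  · intro x hx y hy
    simp only [dif_pos (show x ∈ Γ from hx), dif_pos (show y ∈ Γ from hy),
      dif_pos (show x * y ∈ Γ from mul_mem hx hy)]
    rw [← map_mul]; rfl
  · intro B _ hB
    have hfin : Finite (B.subgroupOf Γ) := by
      have h1 : (B : Set G).Finite := ‹Finite B›
      have h2 : {x : Γ | (x : G) ∈ (B : Set G)}.Finite :=
        Set.Finite.preimage (Subtype.val_injective.injOn) h1
      exact h2
    obtain ⟨t, ht⟩ := hf'2 (B.subgroupOf Γ)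
    refine ⟨t, fun b hb => ?_⟩
    have hb' : b ∈ Γ := hB hb
    simp only [dif_pos hb']
    exact ht ⟨b, hb'⟩ hb

end Run7.h181.LR
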