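import Pool.Agent.Run7.h181.LR.Bound
import Pool.Agent.Run7.h181.LR.Extend

/-!
# The relative step: extending a homomorphism from a malnormal vertex group
-/

set_option autoImplicit false

open Set Relation
open scoped Pointwise

namespace Run7.h181.LR

theorem rtg_symm' {V : Type*} {adj : V → V → Prop} (hs : ∀ ⦃x y⦄, adj x y → adj y x) {x y : V}
    (h : ReflTransGen adj x y) : ReflTransGen adj y x := by
  induction h with
  | refl => exact ReflTransGen.refl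
  | tail h1 h2 ih => exact ReflTransGen.head (hs h2) ih

variable {Γ A : Type} [Group Γ] [Group A] [Finite A] (q : Γ →* A) {α : Type}
  (ι : q.ker →* FreeGroup α)

theorem rel_tree (hι : Function.Injective ι) (Γ₁ : Subgroup Γ) (S : Finset Γ)
    (hS : Subgroup.closure ((Γ₁ : Set Γ) ∪ S) = ⊤)
    (hmal : ∀ g : Γ, g ∉ Γ₁ → {x | x ∈ Γ₁ ∧ g⁻¹ * x * g ∈ Γ₁}.Finite)
    (Φ : Γ ⧸ Γ₁ → Mo α)
    (hΦ : ∀ (n : q.ker) v w, Φ ((n : Γ) • v) - Φ ((n : Γ) • w) = tr (ι n) (Φ v - Φ w))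
    (hsep : ∀ v w, v ≠ w → ∃ g : Γ, Φ (g • v) ≠ Φ (g • w)) :
    ∃ T : TreeSet Γ (Γ ⧸ Γ₁), (∀ C ∈ T.E, {g : Γ | g • C = C}.Finite) ∧
      (∀ v w, T.pt v = T.pt w → v = w) := by
  classical
  let v₀ : Γ ⧸ Γ₁ := ((1 : Γ) : Γ ⧸ Γ₁)
  have hv₀ : ∀ g : Γ, g • v₀ = (g : Γ ⧸ Γ₁) := by
    intro g
    show ((g * 1 : Γ) : Γ ⧸ Γ₁) = _
    rw [mul_one]
  let adj : Γ ⧸ Γ₁ → Γ ⧸ Γ₁ → Prop := fun x y => ∃ g : Γ, ∃ s ∈ S,
    (x = g • v₀ ∧ y = (g * s) • v₀) ∨ (y = g • v₀ ∧ x = (g * s) • v₀)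
  have hs : ∀ ⦃x y⦄, adj x y → adj y x := by
    rintro x y ⟨g, s, hs, h | h⟩
    · exact ⟨g, s, hs, Or.inr h⟩
    · exact ⟨g, s, hs, Or.inl h⟩
  have hc : ∀ x y, ReflTransGen adj x y := by
    have key : ∀ g : Γ, g ∈ Subgroup.closure ((Γ₁ : Set Γ) ∪ S) → ∀ x : Γ,
        ReflTransGen adj (x • v₀) ((x * g) • v₀) := by
      intro g hg
      induction hg using Subgroup.closure_induction with
      | mem s hs =>
        intro x
        rcases hs with hs | hs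
        · have : (x * s) • v₀ = x • v₀ := by
            rw [hv₀, hv₀, eq_comm, QuotientGroup.eq, inv_mul_cancel_left]
            exact hs
          rw [this]
        · exact ReflTransGen.single ⟨x, s, hs, Or.inl ⟨rfl, rfl⟩⟩
      | one => intro x; rw [mul_one]
      | mul a b _ _ ha hb => intro x; rw [← mul_assoc]; exact (ha x).trans (hb _)
      | inv a _ ha =>
        intro x
        have := ha (x * a⁻¹)
        rw [inv_mul_cancel_right] at this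
        exact rtg_symm' hs this
    intro x y
    induction x using QuotientGroup.induction_on
    induction y using QuotientGroup.induction_on
    rename_i x y
    have := key (x⁻¹ * y) (by rw [hS]; trivial) x
    rw [mul_inv_cancel_left, hv₀, hv₀] at this
    exact this
  have ha : ∀ (g : Γ) x y, adj (g • x) (g • y) ↔ adj x y := by
    have h1 : ∀ (g : Γ) x y, adj x y → adj (g • x) (g • y) := by
      rintro g x y ⟨k, s, hs, ⟨rfl, rfl⟩ | ⟨rfl, rfl⟩⟩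
      · exact ⟨g * k, s, hs, Or.inl ⟨by rw [mul_smul], by rw [mul_assoc, mul_smul g]⟩⟩
      · exact ⟨g * k, s, hs, Or.inr ⟨by rw [mul_smul], by rw [mul_assoc, mul_smul g]⟩⟩
    intro g x y
    refine ⟨fun h => ?_, h1 g x y⟩
    have := h1 g⁻¹ _ _ h
    rwa [inv_smul_smul, inv_smul_smul] at this
  have hst : ∀ x y, adj x y → x ≠ y → {g : Γ | g • x = x ∧ g • y = y}.Finite := by
    intro x y _ hne
    obtain ⟨a, rfl⟩ := QuotientGroup.mk_surjective x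
    obtain ⟨b, rfl⟩ := QuotientGroup.mk_surjective y
    have h1 : a⁻¹ * b ∉ Γ₁ := fun h => hne (QuotientGroup.eq.2 h)
    refine ((hmal _ h1).image (fun z => a * z * a⁻¹)).subset ?_
    rintro g ⟨h2, h3⟩
    have h2' : ((a : Γ) : Γ ⧸ Γ₁) = ((g * a : Γ) : Γ ⧸ Γ₁) := h2.symm
    have h3' : ((b : Γ) : Γ ⧸ Γ₁) = ((g * b : Γ) : Γ ⧸ Γ₁) := h3.symm
    rw [QuotientGroup.eq] at h2' h3'
    refine ⟨a⁻¹ * (g * a), ⟨h2', ?_⟩, by group⟩
    have : (a⁻¹ * b)⁻¹ * (a⁻¹ * (g * a)) * (a⁻¹ * b) = b⁻¹ * (g * b) := by group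
    rw [this]; exact h3'
  -- representatives
  let ρ : A → Γ := fun a => if h : ∃ g, q g = a then h.choose else 1
  have hρ : ∀ g, q (ρ (q g)) = q g := by
    intro g
    have hex : ∃ g', q g' = q g := ⟨g, rfl⟩
    simp only [ρ, dif_pos hex]
    exact hex.choose_spec
  have hπ : ∀ g : Γ, g * (ρ (q g))⁻¹ ∈ q.ker := by
    intro g
    rw [MonoidHom.mem_ker, map_mul, map_inv, hρ, mul_inv_cancel]
  let π : Γ → q.ker := fun g => ⟨g * (ρ (q g))⁻¹, hπ g⟩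
  have hA := Fintype.ofFinite A
  let E₀ : Finset ((Γ ⧸ Γ₁) × (Γ ⧸ Γ₁)) :=
    (Finset.univ ×ˢ S).biUnion fun as : A × Γ =>
      {(ρ as.1 • v₀, (ρ as.1 * as.2) • v₀), ((ρ as.1 * as.2) • v₀, ρ as.1 • v₀)}
  have hE₀ : ∀ x y, adj x y → ∃ n : q.ker, ∃ e ∈ E₀, x = (n : Γ) • e.1 ∧ y = (n : Γ) • e.2 := by
    rintro x y ⟨g, s, hs, ⟨rfl, rfl⟩ | ⟨rfl, rfl⟩⟩
    · refine ⟨π g, (ρ (q g) • v₀, (ρ (q g) * s) • v₀), ?_, ?_, ?_⟩
      · simp only [E₀, Finset.mem_biUnion]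
        exact ⟨(q g, s), by simp [hs], by simp⟩
      · simp only [π, smul_smul, inv_mul_cancel_right]
      · simp only [π, smul_smul]; congr 1; group
    · refine ⟨π g, ((ρ (q g) * s) • v₀, ρ (q g) • v₀), ?_, ?_, ?_⟩
      · simp only [E₀, Finset.mem_biUnion]
        exact ⟨(q g, s), by simp [hs], by simp⟩
      · simp only [π, smul_smul]; congr 1; group
      · simp only [π, smul_smul, inv_mul_cancel_right]
  obtain ⟨T, hT1, hT2⟩ := exists_tree q.ker ι hι adj hs hc ha hst E₀ hE₀ Φ hΦ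
  refine ⟨T, hT1, ?_⟩
  intro v w hvw
  by_contra hne
  obtain ⟨g, hg⟩ := hsep v w hne
  obtain ⟨i, hi⟩ := Finsupp.ne_iff.1 hg
  obtain ⟨C, hC, h1, h2⟩ := hT2 (pure (g • v)) (pure (g • w)) i _ _ hi rfl rfl
  have h1' : g • v ∈ C := h1
  have h2' : g • w ∉ C := h2
  have h3 : g⁻¹ • C ∈ T.pt v := ⟨T.smul_mem _ hC, by rwa [mem_inv_smul_set_iff]⟩
  rw [hvw] at h3
  exact h2' (by simpa [mem_inv_smul_set_iff] using h3.2)

/-- **Relative step**, abstract form. -/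
theorem relative (hι : Function.Injective ι) (Γ₁ : Subgroup Γ) (S : Finset Γ)
    (hS : Subgroup.closure ((Γ₁ : Set Γ) ∪ S) = ⊤)
    (hmal : ∀ g : Γ, g ∉ Γ₁ → {x | x ∈ Γ₁ ∧ g⁻¹ * x * g ∈ Γ₁}.Finite)
    (Φ : Γ ⧸ Γ₁ → Mo α)
    (hΦ : ∀ (n : q.ker) v w, Φ ((n : Γ) • v) - Φ ((n : Γ) • w) = tr (ι n) (Φ v - Φ w))
    (hsep : ∀ v w, v ≠ w → ∃ g : Γ, Φ (g • v) ≠ Φ (g • w))
    {W : Type} [Group W] (F : A →* W) (f₁ : Γ → W)
    (hf₁ : ∀ x ∈ Γ₁, ∀ y ∈ Γ₁, f₁ (x * y) = f₁ x * f₁ y)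
    (hlc : ∀ (B : Subgroup Γ) [Finite B], B ≤ Γ₁ → ∃ t : W, ∀ b ∈ B, F (q b) * t = t * f₁ b) :
    ∃ f : Γ →* W, (∀ x ∈ Γ₁, f x = f₁ x) ∧
      (∀ (B : Subgroup Γ) [Finite B], ∃ t : W, ∀ b ∈ B, F (q b) * t = t * f b) := by
  classical
  obtain ⟨T, hT1, hT2⟩ := rel_tree q ι hι Γ₁ S hS hmal Φ hΦ hsep
  let v₀ : Γ ⧸ Γ₁ := ((1 : Γ) : Γ ⧸ Γ₁)
  -- a section
  let σ : Γ ⧸ Γ₁ → Γ := fun v => if v = v₀ then 1 else v.out
  have hσ : ∀ v, ((σ v : Γ) : Γ ⧸ Γ₁) = v := by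
    intro v
    by_cases h : v = v₀
    · simp only [σ, if_pos h]; exact h.symm
    · simp only [σ, if_neg h]; exact QuotientGroup.out_eq' v
  have hσ₀ : σ v₀ = 1 := by simp [σ]
  have hmem : ∀ (g : Γ) v, (σ (g • v))⁻¹ * g * σ v ∈ Γ₁ := by
    intro g v
    rw [mul_assoc, ← QuotientGroup.eq, hσ]
    show g • v = g • ((σ v : Γ) : Γ ⧸ Γ₁)
    rw [hσ]
  let c : Γ → Set (Set (Γ ⧸ Γ₁)) → W := fun g u =>
    if h : ∃ v, T.pt v = u then f₁ ((σ (g • h.choose))⁻¹ * g * σ h.choose) else F (q g)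
  have hc1 : ∀ g v, c g (T.pt v) = f₁ ((σ (g • v))⁻¹ * g * σ v) := by
    intro g v
    have hex : ∃ w, T.pt w = T.pt v := ⟨v, rfl⟩
    have : hex.choose = v := hT2 _ _ hex.choose_spec
    simp only [c, dif_pos hex, this]
  have hc2 : ∀ g u, (¬ ∃ v, T.pt v = u) → c g u = F (q g) := by
    intro g u h
    simp only [c, dif_neg h]
  have hc : ∀ g h u, c (g * h) u = c g (h • u) * c h u := by
    intro g h u
    by_cases hu : ∃ v, T.pt v = u
    · obtain ⟨v, rfl⟩ := hu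
      rw [TreeSet.smul_pt, hc1, hc1, hc1, ← hf₁ _ (hmem g (h • v)) _ (hmem h v), mul_smul]
      congr 1; group
    · have hu' : ¬ ∃ v, T.pt v = h • u := by
        rintro ⟨v, hv⟩
        exact hu ⟨h⁻¹ • v, by rw [← TreeSet.smul_pt, hv, inv_smul_smul]⟩
      rw [hc2 _ _ hu, hc2 _ _ hu, hc2 _ _ hu', map_mul, map_mul]
  have hone : f₁ 1 = 1 := by
    have := hf₁ 1 Γ₁.one_mem 1 Γ₁.one_mem
    rw [mul_one] at this
    exact (mul_eq_left.1 this.symm)
  have hLc : ∀ (B : Subgroup Γ) [Finite B] (u : Set (Set (Γ ⧸ Γ₁))),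
      (∀ b ∈ B, b • u = u) → ∃ t : W, ∀ b ∈ B, F (q b) * t = t * c b u := by
    intro B _ u hB
    by_cases hu : ∃ v, T.pt v = u
    · obtain ⟨v, rfl⟩ := hu
      have hBv : ∀ b ∈ B, b • v = v := by
        intro b hb
        have := hB b hb
        rw [TreeSet.smul_pt] at this
        exact hT2 _ _ this
      let B' : Subgroup Γ := B.map (MulAut.conj (σ v)⁻¹).toMonoidHom
      have hB'fin : Finite B' := by
        have : (B' : Set Γ).Finite := by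
          have h1 : (B : Set Γ).Finite := ‹Finite B›
          exact h1.image _
        exact this
      have hB' : ∀ b ∈ B, (σ v)⁻¹ * b * σ v ∈ B' := by
        intro b hb
        exact ⟨b, hb, by simp [MulAut.conj_apply]⟩
      have hle : B' ≤ Γ₁ := by
        rintro _ ⟨b, hb, rfl⟩
        have := hmem b v
        rw [hBv b hb] at this
        simpa [MulAut.conj_apply] using this
      obtain ⟨t, ht⟩ := hlc B' hle
      refine ⟨F (q (σ v)) * t, fun b hb => ?_⟩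
      have h1 := ht _ (hB' b hb)
      rw [hc1, hBv b hb]
      have h2 : b * σ v = σ v * ((σ v)⁻¹ * b * σ v) := by group
      calc F (q b) * (F (q (σ v)) * t) = F (q (b * σ v)) * t := by
            rw [map_mul, map_mul, mul_assoc]
        _ = F (q (σ v)) * (F (q ((σ v)⁻¹ * b * σ v)) * t) := by
            rw [h2, map_mul, map_mul, mul_assoc]
        _ = _ := by rw [h1]; exact (mul_assoc _ _ _).symm
    · exact ⟨1, fun b _ => by rw [hc2 _ _ hu, mul_one, one_mul]⟩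
  obtain ⟨θ, hθ⟩ := equivariant_choice (Γ := Γ) (X := Set (Γ ⧸ Γ₁)) (W := W) T.E
    (fun g C hC => T.smul_mem g hC) (fun g C => c g (T.org C)) (fun g _ => F (q g))
    (fun g h C _ => by
      show c (g * h) (T.org C) = c g (T.org (h • C)) * c h (T.org C)
      rw [hc, TreeSet.smul_org])
    (fun g h C _ => by rw [map_mul, map_mul])
    (fun _ _ => True) (fun _ _ _ _ _ => trivial) (by
      intro C hC
      have hfin : Finite (MulAction.stabilizer Γ C) := hT1 C hC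
      obtain ⟨t, ht⟩ := hLc (MulAction.stabilizer Γ C) (T.org C) (by
        intro b hb
        rw [TreeSet.smul_org, MulAction.mem_stabilizer_iff.1 hb])
      exact ⟨t, trivial, fun b hb => ht b hb⟩)
  obtain ⟨f, τ, hτ0, hτ1, hτ2, hlc'⟩ := TreeSet.ext_hom_lc (T := T) (v₀ := v₀) (F.comp q)
    c (fun g h u _ => hc g h u) θ
    (fun g C hC => (hθ C hC).2 g) (fun B _ u _ hu => hLc B u hu)
  refine ⟨f, ?_, hlc'⟩
  intro x hx
  have h1 := hτ2 x (T.pt v₀) (TreeSet.pt_isVert v₀)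
  have h2 : x⁻¹ • v₀ = v₀ := by
    show ((x⁻¹ * 1 : Γ) : Γ ⧸ Γ₁) = _
    rw [mul_one, eq_comm, QuotientGroup.eq]
    simpa using hx
  have h3 : x • v₀ = v₀ := by
    rw [← h2, smul_inv_smul, h2]
  rw [TreeSet.smul_pt, h2, hτ0, mul_one, one_mul, hc1, h3, hσ₀] at h1
  rw [← h1]; simp

end Run7.h181.LR
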