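import Pool.Agent.Run7.h181.LR.Cuts

/-!
# The structure tree of a tree set, and the extension theorem
-/

set_option autoImplicit false

open Set Relation
open scoped Pointwise

namespace Run7.h181.LR
namespace TreeSet

variable {G V : Type*} [Group G] [MulAction G V] (T : TreeSet G V) (v₀ : V)

/-- vertices of the structure tree, as orientations -/
structure IsVert (u : Set (Set V)) : Prop where
  sub : u ⊆ T.E
  one : ∀ C ∈ T.E, (C ∈ u ↔ Cᶜ ∉ u)
  up : ∀ C ∈ u, ∀ D ∈ T.E, C ⊆ D → D ∈ u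
  fin : {C ∈ u | v₀ ∉ C}.Finite

def pt (v : V) : Set (Set V) := {C ∈ T.E | v ∈ C}

def org (C : Set V) : Set (Set V) := {D ∈ T.E | C ⊆ D ∨ (Cᶜ ⊆ D ∧ D ≠ Cᶜ)}

variable {T v₀}

theorem compl_nonempty {C : Set V} (hC : C ∈ T.E) : Cᶜ.Nonempty := T.nonempty (T.compl_mem hC)

theorem not_sub_compl {C : Set V} (hC : C ∈ T.E) : ¬ C ⊆ Cᶜ := by
  intro h
  obtain ⟨x, hx⟩ := T.nonempty hC
  exact h hx hx

theorem mem_compl_iff' {C : Set V} : Cᶜ ∈ T.E ↔ C ∈ T.E :=
  ⟨fun h => by simpa using T.compl_mem h, T.compl_mem⟩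

theorem smul_mem_iff {C : Set V} (g : G) : g • C ∈ T.E ↔ C ∈ T.E :=
  ⟨fun h => by simpa using T.smul_mem g⁻¹ h, T.smul_mem g⟩

theorem pt_isVert (v : V) : T.IsVert v₀ (T.pt v) where
  sub := fun C hC => hC.1
  one := by
    intro C hC
    constructor
    · rintro ⟨-, h⟩ ⟨-, h'⟩
      exact h' h
    · intro h
      refine ⟨hC, ?_⟩
      by_contra h'
      exact h ⟨T.compl_mem hC, h'⟩
  up := by
    rintro C ⟨hC, h⟩ D hD hCD
    exact ⟨hD, hCD h⟩
  fin := by
    refine (T.fin v v₀).subset ?_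
    rintro C ⟨⟨h1, h2⟩, h3⟩
    exact ⟨h1, h2, h3⟩

theorem self_mem_org {C : Set V} (hC : C ∈ T.E) : C ∈ T.org C := ⟨hC, Or.inl Subset.rfl⟩

theorem compl_notMem_org {C : Set V} (hC : C ∈ T.E) : Cᶜ ∉ T.org C := by
  rintro ⟨-, h | h⟩
  · exact not_sub_compl hC h
  · exact h.2 rfl

theorem org_isVert {C : Set V} (hC : C ∈ T.E) : T.IsVert v₀ (T.org C) where
  sub := fun C hC => hC.1
  one := by
    intro D hD
    obtain ⟨x, hx⟩ := T.nonempty hC
    obtain ⟨y, hy⟩ := compl_nonempty hC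
    constructor
    · rintro ⟨-, h⟩ ⟨-, h'⟩
      rcases h with h | ⟨h, h2⟩
      · rcases h' with h' | ⟨h', h2'⟩
        · exact h' hx (h hx)
        · apply h2'
          rw [compl_subset_compl] at h'
          rw [subset_antisymm h' h]
      · rcases h' with h' | ⟨h', h2'⟩
        · apply h2
          rw [subset_compl_comm] at h'
          exact subset_antisymm h' h
        · exact h' hy (h hy)
    · intro h
      rcases T.nested hC hD with h1 | h1 | h1 | h1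
      · exact ⟨hD, Or.inl h1⟩
      · exact absurd ⟨T.compl_mem hD, Or.inl h1⟩ h
      · refine ⟨hD, Or.inr ⟨h1, ?_⟩⟩
        rintro rfl
        rw [compl_compl] at h
        exact h (self_mem_org hC)
      · by_cases hCD : Dᶜ = Cᶜ
        · rw [compl_inj_iff] at hCD
          subst hCD
          exact self_mem_org hD
        · exact absurd ⟨T.compl_mem hD, Or.inr ⟨h1, hCD⟩⟩ h
  up := by
    rintro D ⟨hD, h⟩ F hF hDF
    rcases h with h | ⟨h, h'⟩
    · exact ⟨hF, Or.inl (h.trans hDF)⟩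
    · refine ⟨hF, Or.inr ⟨h.trans hDF, ?_⟩⟩
      rintro rfl
      exact h' (subset_antisymm hDF h)
  fin := by
    obtain ⟨x, hx⟩ := T.nonempty hC
    obtain ⟨y, hy⟩ := compl_nonempty hC
    refine ((T.fin x v₀).union (T.fin y v₀)).subset ?_
    rintro D ⟨⟨h1, h2⟩, h3⟩
    rcases h2 with h2 | h2
    · exact Or.inl ⟨h1, h2 hx, h3⟩
    · exact Or.inr ⟨h1, h2.1 hy, h3⟩

theorem IsVert.mem_or {u : Set (Set V)} (hu : T.IsVert v₀ u) {C : Set V} (hC : C ∈ T.E) :
    C ∈ u ∨ Cᶜ ∈ u := by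
  by_cases h : C ∈ u
  · exact Or.inl h
  · right; by_contra h'
    exact h ((hu.one C hC).2 h')

theorem IsVert.not_both {u : Set (Set V)} (hu : T.IsVert v₀ u) {C : Set V} (h : C ∈ u)
    (h' : Cᶜ ∈ u) : False := (hu.one C (hu.sub h)).1 h h'

theorem IsVert.eq_of_subset {u w : Set (Set V)} (hu : T.IsVert v₀ u) (hw : T.IsVert v₀ w)
    (h : u ⊆ w) : u = w := by
  refine subset_antisymm h ?_
  intro C hC
  rcases hu.mem_or (hw.sub hC) with h1 | h1
  · exact h1
  · exact (hw.not_both hC (h h1)).elim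

theorem IsVert.smul {u : Set (Set V)} (hu : T.IsVert v₀ u) (g : G) : T.IsVert v₀ (g • u) where
  sub := by
    rintro _ ⟨C, hC, rfl⟩
    exact T.smul_mem g (hu.sub hC)
  one := by
    intro C hC
    rw [mem_smul_set_iff_inv_smul_mem, mem_smul_set_iff_inv_smul_mem, smul_set_compl]
    exact hu.one _ (T.smul_mem _ hC)
  up := by
    intro C hC D hD hCD
    rw [mem_smul_set_iff_inv_smul_mem] at hC ⊢
    exact hu.up _ hC _ (T.smul_mem _ hD) (smul_set_mono hCD)
  fin := by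
    have h1 := (hu.fin.union (T.fin (g⁻¹ • v₀) v₀)).union (T.fin v₀ (g⁻¹ • v₀))
    refine (h1.image (g • ·)).subset ?_
    rintro _ ⟨⟨C, hC, rfl⟩, h⟩
    have h' : g⁻¹ • v₀ ∉ C := fun hh => h (mem_smul_set_iff_inv_smul_mem.2 hh)
    refine ⟨C, ?_, rfl⟩
    by_cases hv : v₀ ∈ C
    · exact Or.inr ⟨hu.sub hC, hv, h'⟩
    · exact Or.inl (Or.inl ⟨hC, hv⟩)

theorem smul_pt (g : G) (v : V) : g • T.pt v = T.pt (g • v) := by
  ext C
  rw [mem_smul_set_iff_inv_smul_mem]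
  simp only [pt, mem_ofPred_eq, smul_mem_iff, mem_inv_smul_set_iff]

theorem smul_org (g : G) (C : Set V) : g • T.org C = T.org (g • C) := by
  ext D
  rw [mem_smul_set_iff_inv_smul_mem]
  have e1 : ∀ A : Set V, A ⊆ g⁻¹ • D ↔ g • A ⊆ D := by
    intro A; rw [subset_smul_set_iff, inv_inv]
  simp only [org, mem_ofPred_eq, smul_mem_iff, ne_eq, e1, inv_smul_eq_iff, smul_set_compl]

/-- the other end of an edge -/
theorem org_compl {C : Set V} (hC : C ∈ T.E) : T.org Cᶜ = insert Cᶜ (T.org C \ {C}) := by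
  have hne : C ≠ Cᶜ := fun h => not_sub_compl hC h.subset
  obtain ⟨x, hx⟩ := T.nonempty hC
  have hv1 : T.IsVert x (T.org Cᶜ) := org_isVert (T.compl_mem hC)
  have ho : T.IsVert x (T.org C) := org_isVert hC
  have hv2 : T.IsVert x (insert Cᶜ (T.org C \ {C})) := by
    refine ⟨?_, ?_, ?_, ?_⟩
    · rintro D (rfl | ⟨h, -⟩)
      · exact T.compl_mem hC
      · exact h.1
    · intro D hD
      by_cases h1 : D = C
      · subst h1
        simp [hne, hne.symm]
      by_cases h2 : D = Cᶜ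
      · subst h2
        simp [hne, hne.symm]
      have h3 : Dᶜ ≠ C := fun h => h2 (by rw [← h, compl_compl])
      have h4 : Dᶜ ≠ Cᶜ := fun h => h1 (compl_injective h)
      simp only [mem_insert_iff, h2, mem_sdiff, mem_singleton_iff, h1, not_false_eq_true, and_true,
        false_or, h4, h3]
      exact ho.one D hD
    · rintro D (rfl | ⟨h, h'⟩) F hF hDF
      · by_cases h1 : F = Cᶜ
        · exact Or.inl h1
        · refine Or.inr ⟨⟨hF, Or.inr ⟨hDF, h1⟩⟩, ?_⟩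
          rintro rfl
          obtain ⟨y, hy⟩ := compl_nonempty hC
          exact hy (hDF hy)
      · refine Or.inr ⟨ho.up _ h _ hF hDF, ?_⟩
        rintro rfl
        rcases h with ⟨h1, h2 | ⟨h2, h3⟩⟩
        · exact h' (subset_antisymm hDF h2)
        · obtain ⟨y, hy⟩ := compl_nonempty hC
          exact hy (hDF (h2 hy))
    · refine (ho.fin.union (finite_singleton Cᶜ)).subset ?_
      rintro D ⟨rfl | ⟨h, -⟩, h'⟩
      · exact Or.inr rfl
      · exact Or.inl ⟨h, h'⟩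
  refine hv1.eq_of_subset hv2 ?_
  rintro D ⟨hD, h⟩
  rw [compl_compl] at h
  by_cases h1 : D = Cᶜ
  · exact Or.inl h1
  · refine Or.inr ⟨⟨hD, ?_⟩, ?_⟩
    · rcases h with h | h
      · exact Or.inr ⟨h, h1⟩
      · exact Or.inl h.1
    · rintro rfl
      rcases h with h | h
      · obtain ⟨y, hy⟩ := compl_nonempty hC
        exact hy (h hy)
      · exact h.2 rfl

variable (v₀) in
noncomputable def depth (u : Set (Set V)) : ℕ := {C ∈ u | v₀ ∉ C}.ncard

theorem depth_org {C : Set V} (hC : C ∈ T.E) (hv : v₀ ∈ C) :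
    depth v₀ (T.org Cᶜ) = depth v₀ (T.org C) + 1 := by
  have : {D ∈ T.org Cᶜ | v₀ ∉ D} = insert Cᶜ {D ∈ T.org C | v₀ ∉ D} := by
    rw [org_compl hC]
    ext D
    simp only [mem_insert_iff, mem_sdiff, mem_singleton_iff, mem_ofPred_eq]
    constructor
    · rintro ⟨rfl | h, h'⟩
      · exact Or.inl rfl
      · exact Or.inr ⟨h.1, h'⟩
    · rintro (rfl | h)
      · exact ⟨Or.inl rfl, fun h => h hv⟩
      · refine ⟨Or.inr ⟨h.1, ?_⟩, h.2⟩
        rintro rfl
        exact h.2 hv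
  rw [depth, this, ncard_insert_of_notMem ?_ (org_isVert hC).fin, depth]
  rintro ⟨h, -⟩
  exact compl_notMem_org hC h

theorem exists_parent {u : Set (Set V)} (hu : T.IsVert v₀ u) (hne : u ≠ T.pt v₀) :
    ∃ C ∈ T.E, v₀ ∈ C ∧ u = T.org Cᶜ := by
  have h1 : {C ∈ u | v₀ ∉ C}.Nonempty := by
    by_contra h
    rw [not_nonempty_iff_eq_empty] at h
    apply hne
    refine hu.eq_of_subset (pt_isVert v₀) ?_
    intro C hC
    refine ⟨hu.sub hC, ?_⟩
    by_contra hv
    have : C ∈ ({C ∈ u | v₀ ∉ C} : Set (Set V)) := ⟨hC, hv⟩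
    rw [h] at this
    exact this
  obtain ⟨C, hC, hmin⟩ := hu.fin.exists_minimal h1
  refine ⟨Cᶜ, T.compl_mem (hu.sub hC.1), hC.2, ?_⟩
  rw [compl_compl]
  symm
  refine (org_isVert (hu.sub hC.1)).eq_of_subset hu ?_
  rintro D ⟨hD, h | ⟨h, h'⟩⟩
  · exact hu.up _ hC.1 _ hD h
  · rcases hu.mem_or hD with h2 | h2
    · exact h2
    · exfalso
      have h3 : Dᶜ ⊆ C := by rwa [compl_subset_comm]
      have h4 : v₀ ∉ Dᶜ := fun hh => hC.2 (h3 hh)
      have h5 := hmin ⟨h2, h4⟩ h3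
      apply h'
      rw [← subset_antisymm h3 h5, compl_compl]

theorem parent_unique {C D : Set V} (hC : C ∈ T.E) (hD : D ∈ T.E) (h1 : v₀ ∈ C) (h2 : v₀ ∈ D)
    (h : T.org Cᶜ = T.org Dᶜ) : C = D := by
  have key : ∀ {C D : Set V}, C ∈ T.E → D ∈ T.E → v₀ ∈ C → v₀ ∈ D → T.org Cᶜ = T.org Dᶜ →
      Cᶜ ⊆ Dᶜ := by
    intro C D hC hD h1 h2 h
    have h3 : Dᶜ ∈ T.org Cᶜ := by
      rw [h]; exact self_mem_org (T.compl_mem hD)
    rcases h3.2 with h4 | h4
    · exact h4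
    · rw [compl_compl] at h4
      exact absurd h2 (h4.1 h1)
  exact compl_injective (subset_antisymm (key hC hD h1 h2 h) (key hD hC h2 h1 h.symm))

/-- induction over the vertices of the structure tree -/
theorem vert_ind {P : Set (Set V) → Prop} (h0 : P (T.pt v₀))
    (hs : ∀ C ∈ T.E, v₀ ∈ C → P (T.org C) → P (T.org Cᶜ)) : ∀ u, T.IsVert v₀ u → P u := by
  have key : ∀ n : ℕ, ∀ u, T.IsVert v₀ u → depth v₀ u = n → P u := by
    intro n
    induction n with
    | zero =>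
      intro u hu hd
      by_cases h : u = T.pt v₀
      · rw [h]; exact h0
      · obtain ⟨C, hC, hv, rfl⟩ := exists_parent hu h
        rw [depth_org hC hv] at hd
        omega
    | succ n ih =>
      intro u hu hd
      by_cases h : u = T.pt v₀
      · rw [h]; exact h0
      · obtain ⟨C, hC, hv, rfl⟩ := exists_parent hu h
        rw [depth_org hC hv] at hd
        exact hs C hC hv (ih _ (org_isVert hC) (by omega))
  intro u hu
  exact key _ u hu rfl

variable {W : Type*} [Group W]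

open Classical in
variable (T v₀) in
noncomputable def tauN (Θ : Set V → W) : ℕ → Set (Set V) → W
  | 0, _ => 1
  | n + 1, u => if h : ∃ C, C ∈ T.E ∧ v₀ ∈ C ∧ u = T.org Cᶜ then
      Θ h.choose * tauN Θ n (T.org h.choose) else 1

theorem exists_tau (Θ : Set V → W) (hΘ : ∀ C ∈ T.E, Θ Cᶜ = (Θ C)⁻¹) :
    ∃ τ : Set (Set V) → W, τ (T.pt v₀) = 1 ∧ ∀ C ∈ T.E, τ (T.org Cᶜ) = Θ C * τ (T.org C) := by
  refine ⟨fun u => T.tauN v₀ Θ (depth v₀ u) u, ?_, ?_⟩
  · have : depth v₀ (T.pt v₀) = 0 := by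
      have h : {C ∈ T.pt v₀ | v₀ ∉ C} = ∅ := by
        ext C
        simp only [mem_ofPred_eq, mem_empty_iff_false, iff_false, not_and, not_not]
        exact fun h => h.2
      rw [depth, h, ncard_empty]
    simp only [this, tauN]
  · have key : ∀ C ∈ T.E, v₀ ∈ C → T.tauN v₀ Θ (depth v₀ (T.org Cᶜ)) (T.org Cᶜ) =
        Θ C * T.tauN v₀ Θ (depth v₀ (T.org C)) (T.org C) := by
      intro C hC hv
      rw [depth_org hC hv]
      have hex : ∃ D, D ∈ T.E ∧ v₀ ∈ D ∧ T.org Cᶜ = T.org Dᶜ := ⟨C, hC, hv, rfl⟩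
      have hch : hex.choose = C := by
        have := hex.choose_spec
        exact (parent_unique hC this.1 hv this.2.1 this.2.2).symm
      rw [tauN, dif_pos hex, hch]
    intro C hC
    by_cases hv : v₀ ∈ C
    · exact key C hC hv
    · have := key Cᶜ (T.compl_mem hC) hv
      rw [compl_compl, hΘ C hC] at this
      show _ = Θ C * T.tauN v₀ Θ (depth v₀ (T.org C)) (T.org C)
      rw [this, mul_inv_cancel_left]

/-- **Extension theorem.** -/
theorem ext_hom (fZ : G →* W) (c : G → Set (Set V) → W)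
    (hc : ∀ g h u, T.IsVert v₀ u → c (g * h) u = c g (h • u) * c h u)
    (θ : Set V → W) (hθ : ∀ g, ∀ C ∈ T.E, fZ g * θ C = θ (g • C) * c g (T.org C)) :
    ∃ (f : G →* W) (τ : Set (Set V) → W), τ (T.pt v₀) = 1 ∧
      (∀ C ∈ T.E, θ C * τ (T.org C) = θ Cᶜ * τ (T.org Cᶜ)) ∧
      (∀ g u, T.IsVert v₀ u → c g (g⁻¹ • u) * τ (g⁻¹ • u) = τ u * f g) := by
  obtain ⟨τ, hτ0, hτ⟩ := exists_tau (T := T) (v₀ := v₀) (fun C => (θ Cᶜ)⁻¹ * θ C)
    (by intro C hC; simp)
  have hid : ∀ g u, T.IsVert v₀ u →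
      c g (g⁻¹ • u) * τ (g⁻¹ • u) = τ u * (c g (g⁻¹ • T.pt v₀) * τ (g⁻¹ • T.pt v₀)) := by
    intro g u hu
    revert u
    apply vert_ind
    · rw [hτ0, one_mul]
    · intro C hC _ ih
      have hC' : g⁻¹ • C ∈ T.E := T.smul_mem _ hC
      rw [smul_org, smul_set_compl, hτ _ hC', hτ C hC]
      rw [smul_org] at ih
      have e1 := hθ g _ (T.compl_mem hC')
      have e2 := hθ g _ hC'
      rw [smul_inv_smul] at e2
      rw [smul_set_compl, smul_inv_smul] at e1
      have e3 : c g (T.org (g⁻¹ • C)ᶜ) = (θ Cᶜ)⁻¹ * (fZ g * θ (g⁻¹ • C)ᶜ) := by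
        rw [e1]; group
      rw [e3]
      have e4 : fZ g * θ (g⁻¹ • C) * τ (T.org (g⁻¹ • C)) =
          θ C * (c g (T.org (g⁻¹ • C)) * τ (T.org (g⁻¹ • C))) := by
        rw [e2]; group
      rw [ih] at e4
      calc (θ Cᶜ)⁻¹ * (fZ g * θ (g⁻¹ • C)ᶜ) *
            ((θ (g⁻¹ • C)ᶜ)⁻¹ * θ (g⁻¹ • C) * τ (T.org (g⁻¹ • C)))
          = (θ Cᶜ)⁻¹ * (fZ g * θ (g⁻¹ • C) * τ (T.org (g⁻¹ • C))) := by group
        _ = _ := by rw [e4]; group
  let f : G → W := fun g => c g (g⁻¹ • T.pt v₀) * τ (g⁻¹ • T.pt v₀)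
  have hmul : ∀ g h, f (g * h) = f g * f h := by
    intro g h
    have h1 : T.IsVert v₀ ((g⁻¹ : G) • T.pt v₀) := (pt_isVert v₀).smul _
    have h2 := hid h _ h1
    simp only [f]
    rw [mul_assoc (c g _), ← h2, mul_inv_rev, mul_smul, hc g h _ (h1.smul _), smul_inv_smul]
    group
  refine ⟨MonoidHom.mk' f hmul, τ, hτ0, ?_, ?_⟩
  · intro C hC
    rw [hτ C hC]; group
  · intro g u hu
    exact hid g u hu

end TreeSet
end Run7.h181.LR
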