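import Pool.Agent.Run7.h181.LR.Groups

/-!
# Extending to a virtually free group of arbitrary rank
-/

set_option autoImplicit false

open Set

namespace Run7.h181.LR

variable {G A : Type} [Group G] [Group A] [Finite A] {q : G →* A} {α : Type}
  {j : FreeGroup α →* G} {H : Subgroup G}

theorem exists_support (w : FreeGroup α) : ∃ T : Set α, T.Finite ∧ w ∈ FY T := by
  have hmono : ∀ {S T : Set α}, S ⊆ T → FY S ≤ FY T := fun h =>
    Subgroup.closure_mono (image_mono h)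
  induction w using FreeGroup.induction_on with
  | C1 => exact ⟨∅, finite_empty, one_mem _⟩
  | of x => exact ⟨{x}, finite_singleton x, Subgroup.subset_closure ⟨x, rfl, rfl⟩⟩
  | inv_of x h =>
    obtain ⟨T, hT, h⟩ := h
    exact ⟨T, hT, inv_mem h⟩
  | mul a b ha hb =>
    obtain ⟨T, hT, h⟩ := ha
    obtain ⟨T', hT', h'⟩ := hb
    exact ⟨T ∪ T', hT.union hT', mul_mem (hmono subset_union_left h)
      (hmono subset_union_right h')⟩

theorem step_set (hjr : j.range = q.ker) {Yb Z : Set α}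
    (hI : Inv j H Yb) (hZ : Z.Finite) (hM : HM q j H (Yb ∪ Z)) :
    ∃ Z' : Set α, Z'.Finite ∧ Z ⊆ Z' ∧
      ∀ h ∈ H, ∀ g ∈ NY j (Yb ∪ Z), h * g * h⁻¹ ∈ NY j (Yb ∪ Z') := by
  classical
  let η : A → G := fun a => if h : ∃ g ∈ H, q g = a then h.choose else 1
  have hη1 : ∀ a, η a ∈ H := by
    intro a
    by_cases h : ∃ g ∈ H, q g = a
    · simp only [η, dif_pos h]; exact h.choose_spec.1
    · simp only [η, dif_neg h]; exact H.one_mem
  have hη2 : ∀ g ∈ H, q (η (q g)) = q g := by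
    intro g hg
    have h : ∃ g' ∈ H, q g' = q g := ⟨g, hg, rfl⟩
    simp only [η, dif_pos h]; exact h.choose_spec.2
  have hT : ∀ (a : A) (z : α), ∃ T : Set α, T.Finite ∧
      η a * j (FreeGroup.of z) * (η a)⁻¹ ∈ NY j T := by
    intro a z
    obtain ⟨w, hw⟩ := normal_aux hjr (η a) (FreeGroup.of z)
    obtain ⟨T, hT, hwT⟩ := exists_support w
    exact ⟨T, hT, w, hwT, hw.symm⟩
  choose T hTfin hTmem using hT
  refine ⟨Z ∪ ⋃ a : A, ⋃ z ∈ Z, T a z, ?_, subset_union_left, ?_⟩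
  · exact hZ.union (finite_iUnion fun a => hZ.biUnion fun z _ => hTfin a z)
  · set Z' := Z ∪ ⋃ a : A, ⋃ z ∈ Z, T a z with hZ'
    have key : ∀ a, ∀ g ∈ NY j (Yb ∪ Z), η a * g * (η a)⁻¹ ∈ NY j (Yb ∪ Z') := by
      intro a g hg
      rw [NY_eq_closure] at hg
      induction hg using Subgroup.closure_induction with
      | mem x hx =>
        obtain ⟨y, hy | hy, rfl⟩ := hx
        · have h1 := hI (η a) (hη1 a) (j (FreeGroup.of y))
            ⟨_, Subgroup.subset_closure ⟨y, hy, rfl⟩, rfl⟩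
          exact NY_mono subset_union_left h1
        · refine NY_mono ?_ (hTmem a y)
          refine subset_union_of_subset_right ?_ _
          refine subset_union_of_subset_right ?_ _
          exact subset_iUnion_of_subset a (subset_biUnion_of_mem (u := fun z => T a z) hy)
      | one => simp
      | mul x y _ _ hx hy =>
        have : η a * (x * y) * (η a)⁻¹ = (η a * x * (η a)⁻¹) * (η a * y * (η a)⁻¹) := by group
        rw [this]; exact mul_mem hx hy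
      | inv x _ hx =>
        have : η a * x⁻¹ * (η a)⁻¹ = (η a * x * (η a)⁻¹)⁻¹ := by group
        rw [this]; exact inv_mem hx
    intro h hh g hg
    set m := (η (q h))⁻¹ * h with hm
    have hmH : m ∈ H := mul_mem (inv_mem (hη1 _)) hh
    have hmk : m ∈ q.ker := by
      rw [MonoidHom.mem_ker, hm, map_mul, map_inv, hη2 h hh, inv_mul_cancel]
    have hmN := hM m hmH hmk
    have e : h * g * h⁻¹ = η (q h) * (m * g * m⁻¹) * (η (q h))⁻¹ := by
      rw [hm]; group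
    rw [e]
    exact key _ _ (mul_mem (mul_mem hmN hg) (inv_mem hmN))

theorem NY_directed {I : Type*} [Nonempty I] (Y : I → Set α)
    (hY : ∀ i k, ∃ l, Y i ⊆ Y l ∧ Y k ⊆ Y l) {g : G} (hg : g ∈ NY j (⋃ i, Y i)) :
    ∃ i, g ∈ NY j (Y i) := by
  rw [NY_eq_closure] at hg
  induction hg using Subgroup.closure_induction with
  | mem x hx =>
    obtain ⟨y, hy, rfl⟩ := hx
    obtain ⟨i, hi⟩ := mem_iUnion.1 hy
    exact ⟨i, _, Subgroup.subset_closure ⟨y, hi, rfl⟩, rfl⟩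
  | one => exact ⟨Classical.arbitrary I, one_mem _⟩
  | mul x y _ _ hx hy =>
    obtain ⟨i, hi⟩ := hx
    obtain ⟨k, hk⟩ := hy
    obtain ⟨l, h1, h2⟩ := hY i k
    exact ⟨l, mul_mem (NY_mono h1 hi) (NY_mono h2 hk)⟩
  | inv x _ hx =>
    obtain ⟨i, hi⟩ := hx
    exact ⟨i, inv_mem hi⟩

variable {W : Type} [Group W]

theorem glue {I : Type*} [Nonempty I] (F : A →* W) (Y : I → Set α) (f : I → G → W)
    (hd : ∀ i k, ∃ l, Y i ⊆ Y l ∧ Y k ⊆ Y l ∧ (∀ x ∈ GY j H (Y i), f l x = f i x) ∧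
      (∀ x ∈ GY j H (Y k), f l x = f k x))
    (hf : ∀ i, Good q F (GY j H (Y i)) (f i))
    (hG : ∀ g ∈ GY j H (⋃ i, Y i), ∃ i, g ∈ GY j H (Y i)) :
    ∃ f' : G → W, Good q F (GY j H (⋃ i, Y i)) f' ∧ ∀ i, ∀ x ∈ GY j H (Y i), f' x = f i x := by
  classical
  have hcons : ∀ i k x, x ∈ GY j H (Y i) → x ∈ GY j H (Y k) → f i x = f k x := by
    intro i k x hi hk
    obtain ⟨l, -, -, h1, h2⟩ := hd i k
    rw [← h1 x hi, ← h2 x hk]
  let f' : G → W := fun x => if h : ∃ i, x ∈ GY j H (Y i) then f h.choose x else 1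
  have hf' : ∀ i, ∀ x ∈ GY j H (Y i), f' x = f i x := by
    intro i x hx
    have hex : ∃ i, x ∈ GY j H (Y i) := ⟨i, hx⟩
    simp only [f', dif_pos hex]
    exact hcons _ _ _ hex.choose_spec hx
  refine ⟨f', ⟨?_, ?_⟩, hf'⟩
  · intro x hx y hy
    obtain ⟨i, hi⟩ := hG x hx
    obtain ⟨k, hk⟩ := hG y hy
    obtain ⟨l, h1, h2, -, -⟩ := hd i k
    have hxl := GY_mono (j := j) (H := H) h1 hi
    have hyl := GY_mono (j := j) (H := H) h2 hk
    rw [hf' l _ (mul_mem hxl hyl), hf' l x hxl, hf' l y hyl]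
    exact (hf l).1 x hxl y hyl
  · intro B _ hB
    have hfin : (B : Set G).Finite := ‹Finite B›
    have key : ∀ s : Set G, s.Finite → s ⊆ B → ∃ i, ∀ b ∈ s, b ∈ GY j H (Y i) := by
      intro s hs
      induction s, hs using Set.Finite.induction_on with
      | empty => exact fun _ => ⟨Classical.arbitrary I, fun b hb => absurd hb (notMem_empty b)⟩
      | insert _ _ ih =>
        intro hsub
        obtain ⟨i, hi⟩ := ih ((subset_insert _ _).trans hsub)
        obtain ⟨k, hk⟩ := hG _ (hB (hsub (mem_insert _ _)))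
        obtain ⟨l, h1, h2, -, -⟩ := hd i k
        refine ⟨l, fun b hb => ?_⟩
        rcases hb with rfl | hb
        · exact GY_mono h2 hk
        · exact GY_mono h1 (hi b hb)
    obtain ⟨i, hi⟩ := key B hfin Subset.rfl
    obtain ⟨t, ht⟩ := (hf i).2 B hi
    exact ⟨t, fun b hb => by rw [hf' i b (hi b hb)]; exact ht b hb⟩

theorem omega_step (hj : Function.Injective j) (hjr : j.range = q.ker) {Yb Z₀ : Set α}
    (hI : Inv j H Yb) (hZ₀ : Z₀.Finite) (hM : HM q j H (Yb ∪ Z₀)) (F : A →* W) (f₀ : G → W)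
    (hf₀ : Good q F (GY j H (Yb ∪ Z₀)) f₀) :
    ∃ (Y : Set α) (f : G → W), Yb ∪ Z₀ ⊆ Y ∧ Inv j H Y ∧ Good q F (GY j H Y) f ∧
      ∀ x ∈ GY j H (Yb ∪ Z₀), f x = f₀ x := by
  classical
  let St := {s : Set α × (G → W) // s.1.Finite ∧ Z₀ ⊆ s.1 ∧ Good q F (GY j H (Yb ∪ s.1)) s.2}
  have hnext : ∀ s : St, ∃ s' : St, s.1.1 ⊆ s'.1.1 ∧
      (∀ h ∈ H, ∀ g ∈ NY j (Yb ∪ s.1.1), h * g * h⁻¹ ∈ NY j (Yb ∪ s'.1.1)) ∧
      ∀ x ∈ GY j H (Yb ∪ s.1.1), s'.1.2 x = s.1.2 x := by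
    rintro ⟨⟨Z, f⟩, hZ, hZ₀Z, hf⟩
    have hM' : HM q j H (Yb ∪ Z) := hM.mono (union_subset_union_right _ hZ₀Z)
    obtain ⟨Z', hZ', hZZ', hconj⟩ := step_set hjr hI hZ hM'
    obtain ⟨f', hf'1, hf'2⟩ := rel_step hj hjr hI hZ' hZZ' hM' F f hf
    exact ⟨⟨⟨Z', f'⟩, hZ', hZ₀Z.trans hZZ', hf'2⟩, hZZ', hconj, hf'1⟩
  choose next hn1 hn2 hn3 using hnext
  let seq : ℕ → St := fun n => Nat.rec ⟨⟨Z₀, f₀⟩, hZ₀, Subset.rfl, hf₀⟩ (fun _ s => next s) n
  have hseq : ∀ n, seq (n + 1) = next (seq n) := fun n => rfl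
  let Y : ℕ → Set α := fun n => Yb ∪ (seq n).1.1
  let f : ℕ → G → W := fun n => (seq n).1.2
  have hmono : ∀ m n, m ≤ n → Y m ⊆ Y n ∧ ∀ x ∈ GY j H (Y m), f n x = f m x := by
    intro m n hmn
    induction n, hmn using Nat.le_induction with
    | base => exact ⟨Subset.rfl, fun _ _ => rfl⟩
    | succ n hmn ih =>
      refine ⟨ih.1.trans (union_subset_union_right _ (hn1 (seq n))), fun x hx => ?_⟩
      rw [← ih.2 x hx]
      exact hn3 (seq n) x (GY_mono ih.1 hx)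
  have hY : ∀ i k, ∃ l, Y i ⊆ Y l ∧ Y k ⊆ Y l := fun i k =>
    ⟨max i k, (hmono _ _ (le_max_left i k)).1, (hmono _ _ (le_max_right i k)).1⟩
  have hinv : Inv j H (⋃ n, Y n) := by
    intro h hh g hg
    obtain ⟨n, hn⟩ := NY_directed Y hY hg
    exact NY_mono (subset_iUnion Y (n + 1)) (hn2 (seq n) h hh g hn)
  obtain ⟨f', hf'1, hf'2⟩ := glue (j := j) (H := H) (q := q) F Y f (by
      intro i k
      refine ⟨max i k, (hmono _ _ (le_max_left i k)).1, (hmono _ _ (le_max_right i k)).1,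
        (hmono _ _ (le_max_left i k)).2, (hmono _ _ (le_max_right i k)).2⟩)
    (fun n => (seq n).2.2.2) (by
      rintro _ ⟨h, hh, r, hr, rfl⟩
      obtain ⟨n, hn⟩ := NY_directed Y hY (RY_le_NY _ hr)
      refine ⟨n + 1, h, hh, r, ?_, rfl⟩
      intro k hk
      have := hn2 (seq n) k⁻¹ (inv_mem hk) r hn
      rwa [inv_inv] at this)
  exact ⟨⋃ n, Y n, f', subset_iUnion Y 0, hinv, hf'1, fun x hx => hf'2 0 x hx⟩

theorem inv_empty : Inv j H ∅ := by
  intro h _ g hg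
  have : NY j ∅ = ⊥ := by
    rw [NY_eq_closure, image_empty, Subgroup.closure_empty]
  rw [this, Subgroup.mem_bot] at hg
  rw [hg]; simp

theorem extend_all (hj : Function.Injective j) (hjr : j.range = q.ker) {Z₀ : Set α}
    (hZ₀ : Z₀.Finite) (hM : HM q j H Z₀) (F : A →* W) (f₀ : G → W)
    (hf₀ : Good q F (GY j H Z₀) f₀) :
    ∃ f : G → W, Good q F (GY j H univ) f ∧ ∀ x ∈ GY j H Z₀, f x = f₀ x := by
  classical
  have e0 : (∅ : Set α) ∪ Z₀ = Z₀ := empty_union _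
  obtain ⟨Y₁, f₁, h1, h2, h3, h4⟩ := omega_step (Yb := ∅) hj hjr inv_empty hZ₀ (by rwa [e0]) F f₀
    (by rwa [e0])
  rw [e0] at h1 h4
  have hM₁ : HM q j H Y₁ := hM.mono h1
  let P := {p : Set α × (G → W) // Inv j H p.1 ∧ Y₁ ⊆ p.1 ∧ Good q F (GY j H p.1) p.2 ∧
    ∀ x ∈ GY j H Y₁, p.2 x = f₁ x}
  let r : P → P → Prop := fun p p' => p.1.1 ⊆ p'.1.1 ∧ ∀ x ∈ GY j H p.1.1, p'.1.2 x = p.1.2 x
  have hrefl : ∀ p, r p p := fun p => ⟨Subset.rfl, fun _ _ => rfl⟩
  have htrans : ∀ {a b c}, r a b → r b c → r a c := by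
    intro a b c hab hbc
    refine ⟨hab.1.trans hbc.1, fun x hx => ?_⟩
    rw [hbc.2 x (GY_mono hab.1 hx), hab.2 x hx]
  obtain ⟨m, hm⟩ := exists_maximal_of_chains_bounded (r := r) (by
    intro c hc
    by_cases hne : c.Nonempty
    · have hne' : Nonempty c := hne.to_subtype
      have hdir : ∀ i k : c, ∃ l : c, r i.1 l.1 ∧ r k.1 l.1 := by
        intro i k
        by_cases hik : i.1 = k.1
        · exact ⟨i, hrefl _, hik ▸ hrefl _⟩
        · rcases hc i.2 k.2 hik with h | h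
          · exact ⟨k, h, hrefl _⟩
          · exact ⟨i, hrefl _, h⟩
      let Y : c → Set α := fun i => i.1.1.1
      have hY : ∀ i k, ∃ l, Y i ⊆ Y l ∧ Y k ⊆ Y l := by
        intro i k
        obtain ⟨l, hl1, hl2⟩ := hdir i k
        exact ⟨l, hl1.1, hl2.1⟩
      obtain ⟨f', hf'1, hf'2⟩ := glue (j := j) (H := H) (q := q) F Y (fun i => i.1.1.2) (by
          intro i k
          obtain ⟨l, hl1, hl2⟩ := hdir i k
          exact ⟨l, hl1.1, hl2.1, hl1.2, hl2.2⟩)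
        (fun i => i.1.2.2.2.1) (by
          rintro _ ⟨h, hh, r, hr, rfl⟩
          obtain ⟨i, hi⟩ := NY_directed Y hY (RY_le_NY _ hr)
          exact ⟨i, h, hh, r, i.1.2.1.le_RY hi, rfl⟩)
      have i₀ := Classical.arbitrary c
      refine ⟨⟨(⋃ i, Y i, f'), ?_, ?_, hf'1, ?_⟩, ?_⟩
      · intro h hh g hg
        obtain ⟨i, hi⟩ := NY_directed Y hY hg
        exact NY_mono (subset_iUnion Y i) (i.1.2.1 h hh g hi)
      · exact i₀.1.2.2.1.trans (subset_iUnion Y i₀)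
      · intro x hx
        show f' x = f₁ x
        rw [hf'2 i₀ x (GY_mono i₀.1.2.2.1 hx)]
        exact i₀.1.2.2.2.2 x hx
      · intro a ha
        exact ⟨subset_iUnion Y ⟨a, ha⟩, fun x hx => hf'2 ⟨a, ha⟩ x hx⟩
    · exact ⟨⟨(Y₁, f₁), h2, Subset.rfl, h3, fun _ _ => rfl⟩, fun a ha => absurd ⟨a, ha⟩ hne⟩)
    htrans
  obtain ⟨⟨Y, f⟩, hY1, hY2, hY3, hY4⟩ := m
  have hYuniv : Y = univ := by
    rw [eq_univ_iff_forall]
    intro x
    by_contra hx
    have eY : Y ∪ (∅ : Set α) = Y := union_empty _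
    have hMY : HM q j H Y := hM₁.mono hY2
    obtain ⟨f', hf'1, hf'2⟩ := rel_step (Yb := Y) (Z := ∅) (Z' := {x}) hj hjr hY1
      (finite_singleton x) (empty_subset _) (by rwa [eY]) F f (by rwa [eY])
    rw [eY] at hf'1
    obtain ⟨Y', f'', g1, g2, g3, g4⟩ := omega_step (Yb := Y) (Z₀ := {x}) hj hjr hY1
      (finite_singleton x) (hMY.mono subset_union_left) F f' hf'2
    have hYY' : Y ⊆ Y' := subset_union_left.trans g1
    have hrel : ∀ x ∈ GY j H Y, f'' x = f x := by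
      intro y hy
      rw [g4 y (GY_mono subset_union_left hy), hf'1 y hy]
    have := hm ⟨(Y', f''), g2, hY2.trans hYY', g3, by
      intro y hy
      show f'' y = f₁ y
      rw [hrel y (GY_mono hY2 hy)]
      exact hY4 y hy⟩ ⟨hYY', hrel⟩
    exact hx (this.1 (g1 (Or.inr rfl)))
  refine ⟨f, ?_, ?_⟩
  · rw [← hYuniv]; exact hY3
  · intro x hx
    have : f x = f₁ x := hY4 x (GY_mono h1 hx)
    rw [this, h4 x hx]

end Run7.h181.LR
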